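import Pool.Agent.W921.SF.Stm
import Pool.Agent.Helper227.EN.Alg

/-!
Solovay families: assembly of the main theorem.
-/

set_option autoImplicit false

open FirstOrder FirstOrder.Language Pool.Agent.Helper227.EN

namespace Pool.Agent.W921.SF.Main

open Pool.Agent.Helper578.JD Pool.Agent.Helper578.JD.Oracle Pool.Agent.Helper578.JD.Defs
open Pool.Agent.H623R3.JC Pool.Agent.W921.SF

theorem lim_of (h1 : S_LIMA) (h2 : S_LIMB) : S_LIM := by
  intro q hq
  obtain ⟨A, hA, hB⟩ := h1 q hq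
  refine ⟨A, fun j => ?_⟩
  obtain ⟨h3, h4⟩ := hB j
  obtain ⟨h5, h6, h7⟩ := h2 q hq A hA j
  exact ⟨h5, h6, h7, h3, h4⟩

theorem generic {ι : Type} [Countable ι] (D : ι → Cnd → Prop)
    (hD : ∀ i (q : Cnd), q.Good → ∃ q' : Cnd, q'.Good ∧ q.Ext q' ∧ D i q') (q0 : Cnd)
    (h0 : q0.Good) :
    ∃ P : ℕ → Cnd, P 0 = q0 ∧ (∀ j, (P j).Good) ∧ (∀ j, (P j).Ext (P (j + 1))) ∧
      ∀ i, ∃ t, D i (P t) := by
  classical
  rcases isEmpty_or_nonempty ι with hι | hι
  · refine ⟨fun _ => q0, rfl, fun _ => h0, fun _ => ⟨le_rfl, le_rfl, ?_⟩, fun i => hι.elim i⟩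
    have : ∀ (m k : ℕ) (x : ℕ → q0.M), G m k x x := by
      intro m
      induction m with
      | zero => intro k x t i j l _ _ _; rfl
      | succ m ih =>
        intro k x
        exact ⟨fun y hy k' _ => ⟨y, hy, ih k' y⟩, fun y hy k' _ => ⟨y, hy, ih k' y⟩⟩
    exact this _ _ _
  obtain ⟨e, he⟩ := exists_surjective_nat ι
  choose F hF1 hF2 hF3 using hD
  let P : ℕ → {q : Cnd // q.Good} := fun t => Nat.rec ⟨q0, h0⟩
    (fun t p => ⟨F (e t) p.1 p.2, hF1 (e t) p.1 p.2⟩) t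
  refine ⟨fun t => (P t).1, rfl, fun t => (P t).2, fun t => hF2 (e t) (P t).1 (P t).2,
    fun i => ?_⟩
  obtain ⟨t, rfl⟩ := he i
  exact ⟨t + 1, hF3 (e t) (P t).1 (P t).2⟩

instance symCountable : Countable LA.Symbols := by
  have h1 : Countable (Σ l, LA.Functions l) := by
    refine Function.Surjective.countable (α := Fin 4) (f := fun i => match i with
      | 0 => ⟨0, AF.zero⟩ | 1 => ⟨0, AF.one⟩ | 2 => ⟨2, AF.add⟩ | 3 => ⟨2, AF.mul⟩) ?_
    rintro ⟨l, f⟩
    cases f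
    · exact ⟨0, rfl⟩
    · exact ⟨1, rfl⟩
    · exact ⟨2, rfl⟩
    · exact ⟨3, rfl⟩
  have h2 : Countable (Σ l, LA.Relations l) := by
    refine Function.Surjective.countable (α := Fin 1) (f := fun _ => ⟨2, AR.lt⟩) ?_
    rintro ⟨l, f⟩
    cases f
    exact ⟨0, rfl⟩
  exact inferInstanceAs (Countable ((Σ l, LA.Functions l) ⊕ (Σ l, LA.Relations l)))

theorem countable_formula : Countable (LA.Formula ℕ) := inferInstance

/-! ### The limit structure is nonstandard -/

/-- the formula `num j < x_0` -/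
def big (j : ℕ) : LA.Formula ℕ := flt (num j) (Term.var (Sum.inl 0))

theorem num_vars {α : Type} [DecidableEq α] {n : ℕ} (j : ℕ) :
    (num j : LA.Term (α ⊕ Fin n)).varFinsetLeft = ∅ := by
  induction j with
  | zero =>
    simp only [num, t0, Constants.term, Term.varFinsetLeft]
    ext a
    simp
  | succ j ih =>
    simp only [num, tadd, Functions.apply₂, Term.varFinsetLeft]
    ext a
    simp only [Finset.mem_biUnion, Finset.mem_univ, true_and, Finset.notMem_empty, iff_false,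
      not_exists]
    intro i
    fin_cases i
    · simp [ih]
    · simp [t1, Constants.term, Term.varFinsetLeft]

theorem big_free (j : ℕ) : ∀ i ∈ (big j).freeVarFinset, i < 1 := by
  intro i hi
  have h1 : (big j).freeVarFinset = {0} := by
    unfold big flt Relations.boundedFormula₂ Relations.boundedFormula
    simp only [BoundedFormula.freeVarFinset]
    ext a
    simp only [Finset.mem_biUnion, Finset.mem_univ, true_and, Finset.mem_singleton]
    constructor
    · rintro ⟨i, hi⟩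
      fin_cases i
      · simp [num_vars] at hi
      · simpa [Term.varFinsetLeft] using hi
    · rintro rfl
      exact ⟨1, by simp [Term.varFinsetLeft]⟩
  rw [h1] at hi
  simp at hi
  omega

theorem realize_num {M : Type} [LA.Structure M] {α : Type} (v : α → M) (j : ℕ) :
    (num j : LA.Term α).realize v = nv M j := by
  unfold nv
  induction j with
  | zero => simp only [num, ea_t0]
  | succ j ih => simp only [num, ea_tadd, ea_t1, ih]

theorem big_realize {M : Type} [LA.Structure M] (x : ℕ → M) (j : ℕ) :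
    (big j).Realize x ↔ Structure.RelMap (L := LA) AR.lt ![nv M j, x 0] := by
  unfold big Formula.Realize
  rw [ea_flt, realize_num]
  rfl

theorem nv_std (j : ℕ) : @nv ℕ stdStr j = j := by
  let _ := stdStr
  induction j with
  | zero =>
    unfold nv
    simp only [num, ea_t0]
    rfl
  | succ j ih =>
    have h1 : @nv ℕ stdStr (j + 1) = @nv ℕ stdStr j + 1 := by
      unfold nv
      simp only [num, ea_tadd, ea_t1]
      rfl
    rw [h1, ih]

theorem equiv_nv {M N : Type} [LA.Structure M] [LA.Structure N] (e : M ≃[LA] N) (j : ℕ) :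
    e (nv M j) = nv N j := by
  unfold nv
  rw [← HomClass.realize_term e]
  exact congrArg (fun v => (num j : LA.Term Empty).realize v) (Subsingleton.elim _ _)

theorem equiv_lt {M N : Type} [LA.Structure M] [LA.Structure N] (e : M ≃[LA] N) (x y : M)
    (h : Structure.RelMap (L := LA) AR.lt ![x, y]) :
    Structure.RelMap (L := LA) AR.lt ![e x, e y] := by
  have h1 := (e.map_rel AR.lt ![x, y]).2 h
  have h2 : (e ∘ ![x, y]) = ![e x, e y] := by
    funext i
    fin_cases i <;> rfl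
  rw [h2] at h1
  exact h1

theorem std_contra (c : ℕ) (h : ∀ j, @Structure.RelMap LA ℕ stdStr 2 AR.lt
    ![@nv ℕ stdStr j, c]) : False := by
  have h1 := h c
  rw [nv_std] at h1
  exact lt_irrefl c h1

theorem nonstd_of (A : LA.Structure ℕ)
    (h : ∀ j, @Structure.RelMap LA ℕ A 2 AR.lt ![@nv ℕ A j, 0]) :
    ¬ Nonempty (@FirstOrder.Language.Equiv LA ℕ ℕ A stdStr) := by
  rintro ⟨e⟩
  have key : ∀ j, @Structure.RelMap LA ℕ stdStr 2 AR.lt ![@nv ℕ stdStr j,
      @DFunLike.coe (@FirstOrder.Language.Equiv LA ℕ ℕ A stdStr) ℕ (fun _ => ℕ) _ e 0] := by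
    intro j
    have h1 := @equiv_lt ℕ ℕ A stdStr e _ _ (h j)
    have h2 := @equiv_nv ℕ ℕ A stdStr e j
    rw [h2] at h1
    exact h1
  exact std_contra _ key

theorem main_of (hLIM : S_LIM) (hDENS : S_DENS) (hSTEP : S_STEP) (hINIT : S_INIT) : S_MAIN := by
  intro gn hgn h
  obtain ⟨q0, hq0, hns⟩ := hINIT
  have hcf := countable_formula
  let ι : Type := ℕ ⊕ ((ℕ × ℕ) ⊕ (LA.Formula ℕ ⊕ (ℕ × ℕ)))
  let D : ι → Cnd → Prop := fun i q => match i with
    | Sum.inl a => a ≤ q.k ∧ a ≤ q.n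
    | Sum.inr (Sum.inl (m, e)) => m ≤ q.n ∧ (Fc m q.x q.k e true ∨ Fc m q.x q.k e false)
    | Sum.inr (Sum.inr (Sum.inl φ)) => rk φ + 1 ≤ q.n ∧ (∀ i ∈ φ.freeVarFinset, i ≤ q.k) ∧
      ((∃ y, φ.Realize (cs y q.x)) → ∃ i < q.k, φ.Realize (cs (q.x i) q.x))
    | Sum.inr (Sum.inr (Sum.inr (r, i))) => ∀ A, Lim A q → Fails gn (h i) r A
  have hD : ∀ i (q : Cnd), q.Good → ∃ q' : Cnd, q'.Good ∧ q.Ext q' ∧ D i q' := by
    intro i q hq
    rcases i with a | ⟨m, e⟩ | φ | ⟨r, i⟩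
    · exact (hDENS q hq).1 a
    · exact (hDENS q hq).2.1 m e
    · exact (hDENS q hq).2.2 φ
    · exact hSTEP gn hgn (h i) r q hq
  obtain ⟨P, hP0, hP1, hP2, hP3⟩ := generic D hD q0 hq0
  have hgen : GenSeq P := by
    refine ⟨hP1, hP2, fun a => ?_, fun a => ?_, fun m e => ?_, fun φ => ?_⟩
    · obtain ⟨t, ht⟩ := hP3 (Sum.inl a)
      exact ⟨t, ht.1⟩
    · obtain ⟨t, ht⟩ := hP3 (Sum.inl a)
      exact ⟨t, ht.2⟩
    · obtain ⟨t, ht⟩ := hP3 (Sum.inr (Sum.inl (m, e)))
      exact ⟨t, ht⟩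
    · obtain ⟨t, ht⟩ := hP3 (Sum.inr (Sum.inr (Sum.inl φ)))
      exact ⟨t, ht⟩
  obtain ⟨A, hA⟩ := hLIM P hgen
  refine ⟨A, ?_, ?_, ?_⟩
  · let _ := A
    rw [Theory.model_iff]
    intro φ hφ
    obtain ⟨j, hj⟩ := hgen.nn (rk φ)
    have h1 : (P j).M ⊨ φ := (hP1 j).pa.realize_of_mem φ hφ
    exact ((hA j).sen φ hj).2 h1
  · apply nonstd_of
    intro j
    have h1 := hA 0
    rw [hP0] at h1
    have h2 : (big j).Realize q0.x := (big_realize q0.x j).2 (hns j)
    have h3 := (h1.fml (big j) hq0.n1 (fun i hi => lt_of_lt_of_le (big_free j i hi) hq0.k1)).2 h2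
    let _ := A
    exact (big_realize (id : ℕ → ℕ) j).1 h3
  · intro t ht i
    by_contra hcon
    push Not at hcon
    obtain ⟨r, hr⟩ := ht.delta
    obtain ⟨s, hs⟩ := hP3 (Sum.inr (Sum.inr (Sum.inr (r, i))))
    exact hs A (hA s) ⟨t, hr, ht.lim, ht.sub, hcon⟩

end Pool.Agent.W921.SF.Main
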