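import Pool.Agent.W921.SF.Game
import Pool.Agent.W921.SF.Main

/-!
Solovay families: if there is no chain of models then this is witnessed by an entailment.
-/

set_option autoImplicit false

open FirstOrder FirstOrder.Language Pool.Agent.Helper227.EN

namespace Pool.Agent.W921.SF.CComp

open Pool.Agent.Helper578.JD Pool.Agent.Helper578.JD.Oracle Pool.Agent.Helper578.JD.Defs
open Pool.Agent.H623R3.JC Pool.Agent.W921.SF

theorem QC_false (m : ℕ) : QC m fun _ _ _ => False := by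
  induction m with
  | zero => exact QC0.qcal.bits 0 (fun _ => False) fun _ _ _ => Iff.rfl
  | succ m ih => exact QC0.qcal.up m _ ih

/-- compactness for sets of formulas -/
theorem cpt_set (hC : S_CPT) (Γ : Set (LA.Formula ℕ))
    (h : ∀ l : List (LA.Formula ℕ), (∀ φ ∈ l, φ ∈ Γ) →
      ∃ (M : Type) (_ : LA.Structure M) (x : ℕ → M), M ⊨ PA ∧ ∀ φ ∈ l, φ.Realize x) :
    ∃ (M : Type) (_ : LA.Structure M) (x : ℕ → M), M ⊨ PA ∧ Satu M ∧ ∀ φ ∈ Γ, φ.Realize x := by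
  have hc := Main.countable_formula
  rcases Γ.eq_empty_or_nonempty with hΓ | hΓ
  · obtain ⟨M, _, x, hPA, hS, -⟩ := hC (fun _ => ⊤) (fun s => by
      obtain ⟨M, _, x, hPA, -⟩ := h [] (fun φ hφ => absurd hφ List.not_mem_nil)
      exact ⟨M, _, x, hPA, fun j _ => Formula.realize_top.2 trivial⟩)
    exact ⟨M, _, x, hPA, hS, fun φ hφ => by rw [hΓ] at hφ; exact absurd hφ (Set.notMem_empty φ)⟩
  · obtain ⟨f, hf⟩ := (Set.to_countable Γ).exists_eq_range hΓ
    obtain ⟨M, _, x, hPA, hS, hall⟩ := hC f (fun s => by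
      obtain ⟨M, _, x, hPA, hall⟩ := h ((List.range s).map f) (fun φ hφ => by
        obtain ⟨j, -, rfl⟩ := List.mem_map.1 hφ
        rw [hf]
        exact ⟨j, rfl⟩)
      exact ⟨M, _, x, hPA, fun j hj => hall _ (List.mem_map.2 ⟨j, List.mem_range.2 hj, rfl⟩)⟩)
    refine ⟨M, _, x, hPA, hS, fun φ hφ => ?_⟩
    rw [hf] at hφ
    obtain ⟨j, rfl⟩ := hφ
    exact hall j

theorem ex_qf (k m t : ℕ) : ∃ φ : LA.Formula ℕ, ∀ (M : Type) [LA.Structure M] (z : ℕ → M),
    φ.Realize z ↔ Q m t (tr k z) := by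
  obtain ⟨φ, hφ⟩ := QF.fml m t
  refine ⟨φ.relabel fun i => if i < k then i else 0, fun M _ z => ?_⟩
  rw [Formula.realize_relabel, hφ, Game.tr_eq]
  rfl

/-- the formula for a level `m` fact about the first `k` entries -/
noncomputable def qf (k m t : ℕ) : LA.Formula ℕ := (ex_qf k m t).choose

theorem qf_iff (k m t : ℕ) (M : Type) [LA.Structure M] (z : ℕ → M) :
    (qf k m t).Realize z ↔ Q m t (tr k z) := (ex_qf k m t).choose_spec M z

/-- a sentence as a formula -/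
def sf (σ : LA.Sentence) : LA.Formula ℕ := Formula.relabel (Empty.elim : Empty → ℕ) σ

theorem sf_iff (σ : LA.Sentence) (M : Type) [LA.Structure M] (z : ℕ → M) :
    (sf σ).Realize z ↔ M ⊨ σ := by
  unfold sf
  rw [Formula.realize_relabel]
  unfold Sentence.Realize
  rw [show (z ∘ Empty.elim : Empty → M) = default from Subsingleton.elim _ _]

section
variable {M : Type} [LA.Structure M] (x : ℕ → M) (n k N r : ℕ) (κ : ℕ → LA.Sentence)

/-- the level `n` facts of `x` -/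
def Gn : Set (LA.Formula ℕ) :=
  {φ | ∃ t, (Q n t (tr k x) ∧ φ = qf k n t) ∨ (¬ Q n t (tr k x) ∧ φ = ∼(qf k n t))}

theorem Gn_iff (M' : Type) [LA.Structure M'] (y : ℕ → M') :
    (∀ φ ∈ Gn x n k, φ.Realize y) ↔ TE n k x y := by
  constructor
  · intro h t
    constructor
    · intro ht
      have := h (qf k n t) ⟨t, Or.inl ⟨ht, rfl⟩⟩
      rwa [qf_iff] at this
    · intro ht
      by_contra hn
      have := h (∼(qf k n t)) ⟨t, Or.inr ⟨hn, rfl⟩⟩
      rw [Formula.realize_not, qf_iff] at this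
      exact this ht
  · rintro h φ ⟨t, ⟨ht, rfl⟩ | ⟨ht, rfl⟩⟩
    · rw [qf_iff]
      exact (h t).1 ht
    · rw [Formula.realize_not, qf_iff]
      exact fun h' => ht ((h t).2 h')

/-- the bad codes at the place `r - d` -/
def Bd : ℕ → ℕ → Prop
  | 0, τ => ∀ (M' : Type) [LA.Structure M'], M' ⊨ PA → ∀ y : ℕ → M', TE n k x y →
      Q N τ (tr k y) → ¬ M' ⊨ κ r
  | d + 1, τ => ∀ (M' : Type) [LA.Structure M'], M' ⊨ PA → ∀ y : ℕ → M', TE n k x y →
      Q N τ (tr k y) → M' ⊨ κ (r - (d + 1)) →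
        M' ⊨ κ (r - d) ∨ ∃ τ', Bd d τ' ∧ Q N τ' (tr k y)

/-- the negations of the bad codes -/
def GB (d : ℕ) : Set (LA.Formula ℕ) := {φ | ∃ τ, Bd x n k N r κ d τ ∧ φ = ∼(qf k N τ)}

theorem GB_iff (d : ℕ) (M' : Type) [LA.Structure M'] (y : ℕ → M') :
    (∀ φ ∈ GB x n k N r κ d, φ.Realize y) ↔ ∀ τ, Bd x n k N r κ d τ → ¬ Q N τ (tr k y) := by
  constructor
  · intro h τ hτ
    have := h _ ⟨τ, hτ, rfl⟩
    rwa [Formula.realize_not, qf_iff] at this
  · rintro h φ ⟨τ, hτ, rfl⟩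
    rw [Formula.realize_not, qf_iff]
    exact h τ hτ

theorem Bd_or (d τ τ' τ'' : ℕ) (h : Bd x n k N r κ d τ) (h' : Bd x n k N r κ d τ')
    (hor : ∀ (M : Type) [LA.Structure M] (x : ℕ → M), Q N τ'' x → Q N τ x ∨ Q N τ' x) :
    Bd x n k N r κ d τ'' := by
  cases d with
  | zero =>
    intro M' _ hPA y hTE hQ
    rcases hor M' _ hQ with h1 | h1
    · exact h M' hPA y hTE h1
    · exact h' M' hPA y hTE h1
  | succ d =>
    intro M' _ hPA y hTE hQ
    rcases hor M' _ hQ with h1 | h1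
    · exact h M' hPA y hTE h1
    · exact h' M' hPA y hTE h1

theorem Bd_false (d τ : ℕ) (hf : ∀ (M : Type) [LA.Structure M] (x : ℕ → M), ¬ Q N τ x) :
    Bd x n k N r κ d τ := by
  cases d with
  | zero => exact fun M' _ _ y _ hQ => absurd hQ (hf M' _)
  | succ d => exact fun M' _ _ y _ hQ => absurd hQ (hf M' _)

/-- finitely many level `n` facts as a pair of codes -/
theorem ext_n (l : List (LA.Formula ℕ)) : ∃ a b, Q n a (tr k x) ∧ ¬ Q n b (tr k x) ∧
    ∀ (M' : Type) [LA.Structure M'] (y : ℕ → M'), Q n a (tr k y) → ¬ Q n b (tr k y) →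
      ∀ φ ∈ l, φ ∈ Gn x n k → φ.Realize y := by
  induction l with
  | nil =>
    obtain ⟨a, ha⟩ := Game.QC_true n
    obtain ⟨b, hb⟩ := QC_false n
    exact ⟨a, b, (ha M _).2 trivial, fun h => (hb M _).1 h,
      fun M' _ y _ _ φ hφ => absurd hφ List.not_mem_nil⟩
  | cons ψ l ih =>
    obtain ⟨a, b, ha, hb, hab⟩ := ih
    by_cases hψ : ψ ∈ Gn x n k
    · obtain ⟨t, ⟨ht, hψt⟩ | ⟨ht, hψt⟩⟩ := hψ
      · obtain ⟨a', ha'⟩ := (QC0.andorQ n).1 a t
        refine ⟨a', b, (ha' M _).2 ⟨ha, ht⟩, hb, fun M' _ y h1 h2 φ hφ hmem => ?_⟩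
        obtain ⟨h3, h4⟩ := (ha' M' _).1 h1
        rcases List.mem_cons.1 hφ with rfl | hφ
        · rw [hψt, qf_iff]; exact h4
        · exact hab M' y h3 h2 φ hφ hmem
      · obtain ⟨b', hb'⟩ := (QC0.andorQ n).2 b t
        refine ⟨a, b', ha, fun h => ?_, fun M' _ y h1 h2 φ hφ hmem => ?_⟩
        · rcases (hb' M _).1 h with h | h
          · exact hb h
          · exact ht h
        · rw [hb'] at h2
          push Not at h2
          rcases List.mem_cons.1 hφ with rfl | hφ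
          · rw [hψt, Formula.realize_not, qf_iff]; exact h2.2
          · exact hab M' y h1 h2.1 φ hφ hmem
    · refine ⟨a, b, ha, hb, fun M' _ y h1 h2 φ hφ hmem => ?_⟩
      rcases List.mem_cons.1 hφ with rfl | hφ
      · exact absurd hmem hψ
      · exact hab M' y h1 h2 φ hφ hmem

theorem ext_B (d : ℕ) (l : List (LA.Formula ℕ)) : ∃ τ, Bd x n k N r κ d τ ∧
    ∀ (M' : Type) [LA.Structure M'] (y : ℕ → M'), ¬ Q N τ (tr k y) →
      ∀ φ ∈ l, φ ∈ GB x n k N r κ d → φ.Realize y := by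
  induction l with
  | nil =>
    obtain ⟨b, hb⟩ := QC_false N
    exact ⟨b, Bd_false x n k N r κ d b (fun M' _ y h => (hb M' _).1 h),
      fun M' _ y _ φ hφ => absurd hφ List.not_mem_nil⟩
  | cons ψ l ih =>
    obtain ⟨τ, hτ, hall⟩ := ih
    by_cases hψ : ψ ∈ GB x n k N r κ d
    · obtain ⟨τ', hτ', hψt⟩ := hψ
      obtain ⟨τ'', hor⟩ := (QC0.andorQ N).2 τ τ'
      refine ⟨τ'', Bd_or x n k N r κ d τ τ' τ'' hτ hτ' (fun M' _ y h => (hor M' _).1 h),
        fun M' _ y h φ hφ hmem => ?_⟩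
      rw [hor] at h
      push Not at h
      rcases List.mem_cons.1 hφ with rfl | hφ
      · rw [hψt, Formula.realize_not, qf_iff]; exact h.2
      · exact hall M' y h.1 φ hφ hmem
    · refine ⟨τ, hτ, fun M' _ y h φ hφ hmem => ?_⟩
      rcases List.mem_cons.1 hφ with rfl | hφ
      · exact absurd hmem hψ
      · exact hall M' y h φ hφ hmem

end

/-- the true level `N` facts of `z` -/
def GT {M : Type} [LA.Structure M] (k N : ℕ) (z : ℕ → M) : Set (LA.Formula ℕ) :=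
  {φ | ∃ τ, Q N τ (tr k z) ∧ φ = qf k N τ}

theorem GT_iff {M : Type} [LA.Structure M] (k N : ℕ) (z : ℕ → M) (M' : Type) [LA.Structure M']
    (y : ℕ → M') : (∀ φ ∈ GT k N z, φ.Realize y) ↔ TI N k z y := by
  constructor
  · intro h τ hτ
    have := h _ ⟨τ, hτ, rfl⟩
    rwa [qf_iff] at this
  · rintro h φ ⟨τ, hτ, rfl⟩
    rw [qf_iff]
    exact h τ hτ

theorem ext_T {M : Type} [LA.Structure M] (k N : ℕ) (z : ℕ → M) (l : List (LA.Formula ℕ)) :
    ∃ τ, Q N τ (tr k z) ∧ ∀ (M' : Type) [LA.Structure M'] (y : ℕ → M'), Q N τ (tr k y) →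
      ∀ φ ∈ l, φ ∈ GT k N z → φ.Realize y := by
  induction l with
  | nil =>
    obtain ⟨a, ha⟩ := Game.QC_true N
    exact ⟨a, (ha M _).2 trivial, fun M' _ y _ φ hφ => absurd hφ List.not_mem_nil⟩
  | cons ψ l ih =>
    obtain ⟨τ, hτ, hall⟩ := ih
    by_cases hψ : ψ ∈ GT k N z
    · obtain ⟨τ', hτ', hψt⟩ := hψ
      obtain ⟨τ'', hand⟩ := (QC0.andorQ N).1 τ τ'
      refine ⟨τ'', (hand M _).2 ⟨hτ, hτ'⟩, fun M' _ y h φ hφ hmem => ?_⟩
      rw [hand] at h
      rcases List.mem_cons.1 hφ with rfl | hφ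
      · rw [hψt, qf_iff]; exact h.2
      · exact hall M' y h.1 φ hφ hmem
    · refine ⟨τ, hτ, fun M' _ y h φ hφ hmem => ?_⟩
      rcases List.mem_cons.1 hφ with rfl | hφ
      · exact absurd hmem hψ
      · exact hall M' y h φ hφ hmem

section
variable {M : Type} [LA.Structure M] (x : ℕ → M) (n k N r : ℕ) (κ : ℕ → LA.Sentence)

/-- states of the construction of the chain -/
structure SS (i : ℕ) (c : Cnd) : Prop where
  pa : c.M ⊨ PA
  sat : Satu c.M
  te : TE n k x c.x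
  fal : ¬ c.M ⊨ κ i
  nb : ∀ τ, Bd x n k N r κ (r - i) τ → ¬ Q N τ (tr k c.x)

theorem chain_start (hC : S_CPT) (M0 : Type) [LA.Structure M0] (hPA : M0 ⊨ PA) (y0 : ℕ → M0)
    (hTE : TE n k x y0) (hf : ¬ M0 ⊨ κ 0) (hb : ∀ τ, Bd x n k N r κ r τ → ¬ Q N τ (tr k y0)) :
    ∃ c : Cnd, SS x n k N r κ 0 c := by
  obtain ⟨M1, _, y1, hPA1, hS1, hall⟩ := cpt_set hC
    (Gn x n k ∪ ({∼(sf (κ 0))} ∪ GB x n k N r κ r)) (fun l hl => by
      refine ⟨M0, _, y0, hPA, fun φ hφ => ?_⟩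
      rcases hl φ hφ with h | h | h
      · exact (Gn_iff x n k M0 y0).2 hTE φ h
      · rw [Set.mem_singleton_iff] at h
        rw [h, Formula.realize_not, sf_iff]
        exact hf
      · exact (GB_iff x n k N r κ r M0 y0).2 hb φ h)
  refine ⟨⟨M1, _, y1, k, N⟩, hPA1, hS1, ?_, ?_, ?_⟩
  · exact (Gn_iff x n k M1 y1).1 fun φ h => hall φ (Or.inl h)
  · have := hall (∼(sf (κ 0))) (Or.inr (Or.inl rfl))
    rwa [Formula.realize_not, sf_iff] at this
  · exact (GB_iff x n k N r κ r M1 y1).1 fun φ h => hall φ (Or.inr (Or.inr h))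

theorem chain_step (hC : S_CPT) (i : ℕ) (hi : i < r) (c : Cnd) (hc : SS x n k N r κ i c) :
    ∃ c' : Cnd, SS x n k N r κ (i + 1) c' ∧ c'.M ⊨ κ i ∧ TI N k c.x c'.x := by
  obtain ⟨d, hd⟩ : ∃ d, r - i = d + 1 := ⟨r - i - 1, by omega⟩
  have hd1 : r - (d + 1) = i := by omega
  have hd2 : r - d = i + 1 := by omega
  have hd3 : r - (i + 1) = d := by omega
  obtain ⟨M1, _, y1, hPA1, hS1, hall⟩ := cpt_set hC
    (Gn x n k ∪ (GT k N c.x ∪ ({sf (κ i), ∼(sf (κ (i + 1)))} ∪ GB x n k N r κ d)))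
    (fun l hl => by
      obtain ⟨τ, hτ, hτ'⟩ := ext_T k N c.x l
      have hnb : ¬ Bd x n k N r κ (d + 1) τ := fun h => by
        have := hc.nb τ
        rw [hd] at this
        exact this h hτ
      unfold Bd at hnb
      push Not at hnb
      obtain ⟨M', _, hPA', y, hTE, hQ, h1, h2, h3⟩ := hnb
      rw [hd1] at h1
      rw [hd2] at h2
      refine ⟨M', _, y, hPA', fun φ hφ => ?_⟩
      rcases hl φ hφ with h | h | h | h
      · exact (Gn_iff x n k M' y).2 hTE φ h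
      · exact hτ' M' y hQ φ hφ h
      · rcases h with h | h
        · rw [h, sf_iff]; exact h1
        · rw [Set.mem_singleton_iff] at h
          rw [h, Formula.realize_not, sf_iff]; exact h2
      · exact (GB_iff x n k N r κ d M' y).2 h3 φ h)
  refine ⟨⟨M1, _, y1, k, N⟩, ⟨hPA1, hS1, ?_, ?_, ?_⟩, ?_, ?_⟩
  · exact (Gn_iff x n k M1 y1).1 fun φ h => hall φ (Or.inl h)
  · have := hall (∼(sf (κ (i + 1)))) (Or.inr (Or.inr (Or.inl (Or.inr rfl))))
    rwa [Formula.realize_not, sf_iff] at this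
  · rw [hd3]
    exact (GB_iff x n k N r κ d M1 y1).1 fun φ h => hall φ (Or.inr (Or.inr (Or.inr h)))
  · have := hall (sf (κ i)) (Or.inr (Or.inr (Or.inl (Or.inl rfl))))
    rwa [sf_iff] at this
  · exact (GT_iff k N c.x M1 y1).1 fun φ h => hall φ (Or.inr (Or.inl h))

theorem chain_last (hC : S_CPT) (c : Cnd) (hc : SS x n k N r κ r c) :
    ∃ c' : Cnd, c'.M ⊨ PA ∧ Satu c'.M ∧ TE n k x c'.x ∧ c'.M ⊨ κ r ∧ TI N k c.x c'.x := by
  obtain ⟨M1, _, y1, hPA1, hS1, hall⟩ := cpt_set hC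
    (Gn x n k ∪ (GT k N c.x ∪ {sf (κ r)}))
    (fun l hl => by
      obtain ⟨τ, hτ, hτ'⟩ := ext_T k N c.x l
      have hnb : ¬ Bd x n k N r κ 0 τ := fun h => by
        have := hc.nb τ
        rw [Nat.sub_self] at this
        exact this h hτ
      unfold Bd at hnb
      push Not at hnb
      obtain ⟨M', _, hPA', y, hTE, hQ, h1⟩ := hnb
      refine ⟨M', _, y, hPA', fun φ hφ => ?_⟩
      rcases hl φ hφ with h | h | h
      · exact (Gn_iff x n k M' y).2 hTE φ h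
      · exact hτ' M' y hQ φ hφ h
      · rw [Set.mem_singleton_iff] at h
        rw [h, sf_iff]; exact h1)
  refine ⟨⟨M1, _, y1, k, N⟩, hPA1, hS1, ?_, ?_, ?_⟩
  · exact (Gn_iff x n k M1 y1).1 fun φ h => hall φ (Or.inl h)
  · have := hall (sf (κ r)) (Or.inr (Or.inr rfl))
    rwa [sf_iff] at this
  · exact (GT_iff k N c.x M1 y1).1 fun φ h => hall φ (Or.inr (Or.inl h))

theorem chain_build (hC : S_CPT) (c0 : Cnd) (hc0 : SS x n k N r κ 0 c0) (i : ℕ) (hi : i ≤ r) :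
    ∃ q : ℕ → Cnd, (∀ j ≤ i, SS x n k N r κ j (q j)) ∧
      ∀ j < i, (q (j + 1)).M ⊨ κ j ∧ TI N k (q j).x (q (j + 1)).x := by
  classical
  induction i with
  | zero =>
    refine ⟨fun _ => c0, fun j hj => ?_, fun j hj => absurd hj (by omega)⟩
    obtain rfl : j = 0 := by omega
    exact hc0
  | succ i ih =>
    obtain ⟨q, hq1, hq2⟩ := ih (by omega)
    obtain ⟨c', hc1, hc2, hc3⟩ := chain_step x n k N r κ hC i (by omega) (q i) (hq1 i le_rfl)
    have e1 : ∀ j ≤ i, Function.update q (i + 1) c' j = q j :=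
      fun j hj => Function.update_of_ne (by omega) _ _
    have e2 : Function.update q (i + 1) c' (i + 1) = c' := Function.update_self _ _ _
    refine ⟨Function.update q (i + 1) c', fun j hj => ?_, fun j hj => ?_⟩
    · rcases Nat.lt_or_ge i j with h | h
      · obtain rfl : j = i + 1 := by omega
        rw [e2]
        exact hc1
      · rw [e1 j h]
        exact hq1 j h
    · rcases Nat.lt_or_ge j i with h | h
      · rw [e1 j (by omega), e1 (j + 1) (by omega)]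
        exact hq2 j h
      · obtain rfl : j = i := by omega
        rw [e1 j le_rfl, e2]
        exact ⟨hc2, hc3⟩

theorem chain_all (hC : S_CPT) (c0 : Cnd) (hc0 : SS x n k N r κ 0 c0) :
    ChainEx x n k N r κ := by
  classical
  obtain ⟨q, hq1, hq2⟩ := chain_build x n k N r κ hC c0 hc0 r le_rfl
  obtain ⟨c', h1, h2, h3, h4, h5⟩ := chain_last x n k N r κ hC (q r) (hq1 r le_rfl)
  have e1 : ∀ j ≤ r, Function.update q (r + 1) c' j = q j :=
    fun j hj => Function.update_of_ne (by omega) _ _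
  have e2 : Function.update q (r + 1) c' (r + 1) = c' := Function.update_self _ _ _
  refine ⟨Function.update q (r + 1) c', fun j hj => ?_, fun j hj => ?_⟩
  · rcases Nat.lt_or_ge r j with h | h
    · obtain rfl : j = r + 1 := by omega
      rw [e2]
      exact ⟨h1, h2, h3⟩
    · rw [e1 j h]
      exact ⟨(hq1 j h).pa, (hq1 j h).sat, (hq1 j h).te⟩
  · rcases Nat.lt_or_ge j r with h | h
    · rw [e1 j hj, e1 (j + 1) (by omega)]
      exact ⟨(hq1 j hj).fal, hq2 j h⟩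
    · obtain rfl : j = r := by omega
      rw [e1 j le_rfl, e2]
      exact ⟨(hq1 j le_rfl).fal, h4, h5⟩

/-! ### The entailments -/

theorem ent_start (hC : S_CPT)
    (hB : ∀ (M0 : Type) [LA.Structure M0], M0 ⊨ PA → ∀ y0 : ℕ → M0, TE n k x y0 →
      ¬ M0 ⊨ κ 0 → ∃ τ, Bd x n k N r κ r τ ∧ Q N τ (tr k y0)) :
    ∃ a b τ, Q n a (tr k x) ∧ ¬ Q n b (tr k x) ∧ Bd x n k N r κ r τ ∧
      ∀ (M' : Type) [LA.Structure M'], M' ⊨ PA → ∀ y : ℕ → M', Q n a (tr k y) →
        ¬ Q n b (tr k y) → M' ⊨ κ 0 ∨ Q N τ (tr k y) := by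
  by_contra hcon
  push Not at hcon
  obtain ⟨M1, _, y1, hPA1, -, hall⟩ := cpt_set hC
    (Gn x n k ∪ ({∼(sf (κ 0))} ∪ GB x n k N r κ r)) (fun l hl => by
      obtain ⟨a, b, ha, hb, hab⟩ := ext_n x n k l
      obtain ⟨τ, hτ, hτ'⟩ := ext_B x n k N r κ r l
      obtain ⟨M', _, hPA', y, h1, h2, h3, h4⟩ := hcon a b τ ha hb hτ
      refine ⟨M', _, y, hPA', fun φ hφ => ?_⟩
      rcases hl φ hφ with h | h | h
      · exact hab M' y h1 h2 φ hφ h
      · rw [Set.mem_singleton_iff] at h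
        rw [h, Formula.realize_not, sf_iff]
        exact h3
      · exact hτ' M' y h4 φ hφ h)
  have h1 := (Gn_iff x n k M1 y1).1 fun φ h => hall φ (Or.inl h)
  have h2 := hall (∼(sf (κ 0))) (Or.inr (Or.inl rfl))
  rw [Formula.realize_not, sf_iff] at h2
  have h3 := (GB_iff x n k N r κ r M1 y1).1 fun φ h => hall φ (Or.inr (Or.inr h))
  obtain ⟨τ, hτ, hQ⟩ := hB M1 hPA1 y1 h1 h2
  exact h3 τ hτ hQ

theorem ent_step (hC : S_CPT) (d τ : ℕ) (hτ0 : Bd x n k N r κ (d + 1) τ) :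
    ∃ a b τ', Q n a (tr k x) ∧ ¬ Q n b (tr k x) ∧ Bd x n k N r κ d τ' ∧
      ∀ (M' : Type) [LA.Structure M'], M' ⊨ PA → ∀ y : ℕ → M', Q n a (tr k y) →
        ¬ Q n b (tr k y) → Q N τ (tr k y) → M' ⊨ κ (r - (d + 1)) →
          M' ⊨ κ (r - d) ∨ Q N τ' (tr k y) := by
  by_contra hcon
  push Not at hcon
  obtain ⟨M1, _, y1, hPA1, -, hall⟩ := cpt_set hC
    (Gn x n k ∪ ({qf k N τ, sf (κ (r - (d + 1))), ∼(sf (κ (r - d)))} ∪ GB x n k N r κ d))
    (fun l hl => by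
      obtain ⟨a, b, ha, hb, hab⟩ := ext_n x n k l
      obtain ⟨τ', hτ, hτ'⟩ := ext_B x n k N r κ d l
      obtain ⟨M', _, hPA', y, h1, h2, h3, h4, h5, h6⟩ := hcon a b τ' ha hb hτ
      refine ⟨M', _, y, hPA', fun φ hφ => ?_⟩
      rcases hl φ hφ with h | h | h
      · exact hab M' y h1 h2 φ hφ h
      · rcases h with h | h | h
        · rw [h, qf_iff]; exact h3
        · rw [h, sf_iff]; exact h4
        · rw [Set.mem_singleton_iff] at h
          rw [h, Formula.realize_not, sf_iff]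
          exact h5
      · exact hτ' M' y h6 φ hφ h)
  have h1 := (Gn_iff x n k M1 y1).1 fun φ h => hall φ (Or.inl h)
  have h2 := hall (qf k N τ) (Or.inr (Or.inl (Or.inl rfl)))
  have h3 := hall (sf (κ (r - (d + 1)))) (Or.inr (Or.inl (Or.inr (Or.inl rfl))))
  have h4 := hall (∼(sf (κ (r - d)))) (Or.inr (Or.inl (Or.inr (Or.inr rfl))))
  rw [qf_iff] at h2
  rw [sf_iff] at h3
  rw [Formula.realize_not, sf_iff] at h4
  have h5 := (GB_iff x n k N r κ d M1 y1).1 fun φ h => hall φ (Or.inr (Or.inr h))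
  rcases hτ0 M1 hPA1 y1 h1 h2 h3 with h6 | ⟨τ', hτ', hQ⟩
  · exact h4 h6
  · exact h5 τ' hτ' hQ

theorem ent_last (hC : S_CPT) (τ : ℕ) (hτ0 : Bd x n k N r κ 0 τ) :
    ∃ a b, Q n a (tr k x) ∧ ¬ Q n b (tr k x) ∧
      ∀ (M' : Type) [LA.Structure M'], M' ⊨ PA → ∀ y : ℕ → M', Q n a (tr k y) →
        ¬ Q n b (tr k y) → Q N τ (tr k y) → ¬ M' ⊨ κ r := by
  by_contra hcon
  push Not at hcon
  obtain ⟨M1, _, y1, hPA1, -, hall⟩ := cpt_set hC
    (Gn x n k ∪ {qf k N τ, sf (κ r)})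
    (fun l hl => by
      obtain ⟨a, b, ha, hb, hab⟩ := ext_n x n k l
      obtain ⟨M', _, hPA', y, h1, h2, h3, h4⟩ := hcon a b ha hb
      refine ⟨M', _, y, hPA', fun φ hφ => ?_⟩
      rcases hl φ hφ with h | h | h
      · exact hab M' y h1 h2 φ hφ h
      · rw [h, qf_iff]; exact h3
      · rw [Set.mem_singleton_iff] at h
        rw [h, sf_iff]; exact h4)
  have h1 := (Gn_iff x n k M1 y1).1 fun φ h => hall φ (Or.inl h)
  have h2 := hall (qf k N τ) (Or.inr (Or.inl rfl))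
  have h3 := hall (sf (κ r)) (Or.inr (Or.inr rfl))
  rw [qf_iff] at h2
  rw [sf_iff] at h3
  exact hτ0 M1 hPA1 y1 h1 h2 h3

theorem ent_build (hC : S_CPT)
    (hB : ∀ (M0 : Type) [LA.Structure M0], M0 ⊨ PA → ∀ y0 : ℕ → M0, TE n k x y0 →
      ¬ M0 ⊨ κ 0 → ∃ τ, Bd x n k N r κ r τ ∧ Q N τ (tr k y0)) (i : ℕ) (hi : i ≤ r) :
    ∃ (f : ℕ → ℕ) (a b : ℕ), Q n a (tr k x) ∧ ¬ Q n b (tr k x) ∧
      Bd x n k N r κ (r - i) (f i) ∧
      ∀ (M' : Type) [LA.Structure M'], M' ⊨ PA → ∀ y : ℕ → M', Q n a (tr k y) →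
        ¬ Q n b (tr k y) → (M' ⊨ κ 0 ∨ Q N (f 0) (tr k y)) ∧
          ∀ j < i, Q N (f j) (tr k y) → M' ⊨ κ j → M' ⊨ κ (j + 1) ∨ Q N (f (j + 1)) (tr k y) := by
  classical
  induction i with
  | zero =>
    obtain ⟨a, b, τ, ha, hb, hτ, hall⟩ := ent_start x n k N r κ hC hB
    exact ⟨fun _ => τ, a, b, ha, hb, hτ, fun M' _ hPA y h1 h2 =>
      ⟨hall M' hPA y h1 h2, fun j hj => absurd hj (by omega)⟩⟩
  | succ i ih =>
    obtain ⟨f, a, b, ha, hb, hf, hall⟩ := ih (by omega)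
    obtain ⟨d, hd⟩ : ∃ d, r - i = d + 1 := ⟨r - i - 1, by omega⟩
    have hd1 : r - (d + 1) = i := by omega
    have hd2 : r - d = i + 1 := by omega
    have hd3 : r - (i + 1) = d := by omega
    rw [hd] at hf
    obtain ⟨a', b', τ', ha', hb', hτ', hall'⟩ := ent_step x n k N r κ hC d (f i) hf
    rw [hd1, hd2] at hall'
    obtain ⟨a'', ha''⟩ := (QC0.andorQ n).1 a a'
    obtain ⟨b'', hb''⟩ := (QC0.andorQ n).2 b b'
    have e1 : ∀ j ≤ i, Function.update f (i + 1) τ' j = f j :=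
      fun j hj => Function.update_of_ne (by omega) _ _
    have e2 : Function.update f (i + 1) τ' (i + 1) = τ' := Function.update_self _ _ _
    refine ⟨Function.update f (i + 1) τ', a'', b'', (ha'' M _).2 ⟨ha, ha'⟩, fun h => ?_, ?_,
      fun M' _ hPA y h1 h2 => ?_⟩
    · rcases (hb'' M _).1 h with h | h
      · exact hb h
      · exact hb' h
    · rw [e2, hd3]
      exact hτ'
    · obtain ⟨h3, h4⟩ := (ha'' M' _).1 h1
      rw [hb''] at h2
      push Not at h2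
      obtain ⟨h5, h6⟩ := hall M' hPA y h3 h2.1
      rw [e1 0 (by omega)]
      refine ⟨h5, fun j hj => ?_⟩
      rcases Nat.lt_or_ge j i with h | h
      · rw [e1 j (by omega), e1 (j + 1) (by omega)]
        exact h6 j h
      · obtain rfl : j = i := by omega
        rw [e1 j le_rfl, e2]
        exact hall' M' hPA y h4 h2.2

theorem code_list (r : ℕ) : ∀ f : ℕ → ℕ, ∃ z : ℕ, ∀ i ≤ r,
    ((fun z : ℕ => z.unpair.2)^[i] z).unpair.1 = f i := by
  induction r with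
  | zero =>
    intro f
    refine ⟨Nat.pair (f 0) 0, fun i hi => ?_⟩
    obtain rfl : i = 0 := by omega
    simp
  | succ r ih =>
    intro f
    obtain ⟨z, hz⟩ := ih fun i => f (i + 1)
    refine ⟨Nat.pair (f 0) z, fun i hi => ?_⟩
    cases i with
    | zero => simp
    | succ i =>
      rw [Function.iterate_succ_apply]
      simp only [Nat.unpair_pair]
      exact hz i (by omega)

end

theorem of_cpt (hC : S_CPT) : S_CCOMP := by
  intro M _ hPA x n k N r κ hk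
  by_cases hA : ∃ (M0 : Type) (_ : LA.Structure M0) (y0 : ℕ → M0), M0 ⊨ PA ∧ TE n k x y0 ∧
      (¬ M0 ⊨ κ 0) ∧ ∀ τ, Bd x n k N r κ r τ → ¬ Q N τ (tr k y0)
  · left
    obtain ⟨M0, _, y0, hPA0, hTE, hf, hb⟩ := hA
    obtain ⟨c, hc⟩ := chain_start x n k N r κ hC M0 hPA0 y0 hTE hf hb
    exact chain_all x n k N r κ hC c hc
  · right
    obtain ⟨f, a, b, ha, hb, hf, hall⟩ := ent_build x n k N r κ hC (by
      intro M0 _ hPA0 y0 hTE hfal
      by_contra hcon
      push Not at hcon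
      exact hA ⟨M0, _, y0, hPA0, hTE, hfal, hcon⟩) r le_rfl
    rw [Nat.sub_self] at hf
    obtain ⟨a', b', ha', hb', hall'⟩ := ent_last x n k N r κ hC (f r) hf
    obtain ⟨a'', ha''⟩ := (QC0.andorQ n).1 a a'
    obtain ⟨b'', hb''⟩ := (QC0.andorQ n).2 b b'
    obtain ⟨z, hz⟩ := code_list r f
    have ht1 : th1 (Nat.pair a'' (Nat.pair b'' z)) = a'' := by simp [th1]
    have ht2 : th2 (Nat.pair a'' (Nat.pair b'' z)) = b'' := by simp [th2]
    have htau : ∀ i ≤ r, tau i (Nat.pair a'' (Nat.pair b'' z)) = f i := by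
      intro i hi
      unfold tau
      simp only [Nat.unpair_pair]
      exact hz i hi
    refine ⟨Nat.pair a'' (Nat.pair b'' z), ?_, fun M' _ hPA' y hTh => ?_⟩
    · unfold Th
      rw [ht1, ht2, ha'', hb'']
      refine ⟨⟨ha, ha'⟩, ?_⟩
      push Not
      exact ⟨hb, hb'⟩
    · unfold Th at hTh
      rw [ht1, ht2, ha'', hb''] at hTh
      push Not at hTh
      obtain ⟨⟨h1, h2⟩, h3, h4⟩ := hTh
      obtain ⟨h5, h6⟩ := hall M' hPA' y h1 h3
      unfold Dsp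
      refine ⟨?_, fun i hi => ?_, ?_⟩
      · rw [htau 0 (Nat.zero_le _)]
        exact h5
      · rw [htau i hi.le, htau (i + 1) hi]
        exact h6 i hi
      · rw [htau r le_rfl]
        rintro ⟨h7, h8⟩
        exact hall' M' hPA' y h2 h4 h7 h8

end Pool.Agent.W921.SF.CComp
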