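import Pool.Agent.W921.SF.Stm
import Pool.Agent.W511.LowB.Low

/-!
Solovay families: effective compactness of Cantor space.
-/

set_option autoImplicit false

open FirstOrder FirstOrder.Language Pool.Agent.Helper227.EN

namespace Pool.Agent.W921.SF.Can

open Pool.Agent.Helper578.JD Pool.Agent.Helper578.JD.Oracle Pool.Agent.Helper578.JD.Defs
open Pool.Agent.H623R3.JC Pool.Agent.W921.SF Pool.Agent.W511.LowB

theorem task : S_CAN := by
  intro F hF
  have h : REPred fun a : ℕ × ℕ => ∃ cs : List Info, (∀ c ∈ cs, F a c) ∧ ∃ N, Fin0 cs N := by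
    refine RE.ex (p := fun (a : ℕ × ℕ) (cs : List Info) => (∀ c ∈ cs, F a c) ∧ ∃ N, Fin0 cs N)
      (RE.and ?_ ?_)
    · refine RE.all_mem (p := fun (q : (ℕ × ℕ) × List Info) (c : Info) => F q.1 c)
        (l := fun q => q.2) ?_ (by fun_prop)
      exact RE.comp hF (f := fun q : ((ℕ × ℕ) × List Info) × Info => (q.1.1, q.2)) (by fun_prop)
    · refine RE.ex (p := fun (q : (ℕ × ℕ) × List Info) (N : ℕ) => Fin0 q.2 N) ?_
      exact RE.comp fin0_re (f := fun q : ((ℕ × ℕ) × List Info) × ℕ => (q.1.2, q.2)) (by fun_prop)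
  refine h.of_eq fun a => ?_
  constructor
  · rintro ⟨cs, h1, h2⟩ ⟨Z, hZ⟩
    obtain ⟨c, hc, h3⟩ := (fin0_iff cs).1 h2 Z
    exact hZ c (h1 c hc) h3
  · intro h1
    have h2 : ∀ A : Set ℕ, ∃ c, F a c ∧ Ok A c := by
      intro A
      by_contra h3
      push Not at h3
      exact h1 ⟨A, h3⟩
    obtain ⟨cs, h3, h4⟩ := compactness (F a) h2
    exact ⟨cs, h3, (fin0_iff cs).2 h4⟩

end Pool.Agent.W921.SF.Can
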