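import Pool.Agent.W921.SF.Stm

/-!
Solovay families: the chain lemma.
-/

set_option autoImplicit false

open FirstOrder FirstOrder.Language Pool.Agent.Helper227.EN

namespace Pool.Agent.W921.SF.Chain

open Pool.Agent.Helper578.JD Pool.Agent.Helper578.JD.Oracle Pool.Agent.Helper578.JD.Defs
open Pool.Agent.H623R3.JC Pool.Agent.W921.SF

theorem task (h1 : S_KAP) (h2 : S_DRE) (h3 : S_CCOMP) (h4 : S_SENT) : S_CHAIN := by
  intro M _ hPA hSat x n k hn hk
  obtain ⟨N0, hN0⟩ := h1 M hPA hSat n k hn hk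
  refine ⟨max N0 (n + 1), lt_of_lt_of_le (Nat.lt_succ_self n) (le_max_right _ _), fun r => ?_⟩
  set N := max N0 (n + 1) with hN
  obtain ⟨K, hK, hKe⟩ := hN0 N (le_max_left _ _)
  obtain ⟨e, he⟩ := recursion (β := ℕ) (P := fun e p => ∀ (M : Type) [LA.Structure M], M ⊨ PA →
    ∀ x : ℕ → M, Th n k p x → Dsp N k r p (fun i => (K i).Realize fun _ => nv M e) x)
    (h2 K N n k r hk)
  choose κ hκ1 hκ2 using fun i => h4 true N (K i) (hK i) e
  refine ⟨κ, hκ1, ?_⟩
  rcases h3 M hPA x n k N r κ hk with h5 | ⟨p, hp, hent⟩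
  · exact h5
  exfalso
  have hWe : ∀ p : ℕ, W e p ↔ ∀ (M : Type) [LA.Structure M], M ⊨ PA →
      ∀ x : ℕ → M, Th n k p x → Dsp N k r p (fun i => (K i).Realize fun _ => nv M e) x := he
  have hWp : W e p := by
    rw [hWe]
    intro M' _ hPA' y hy
    have h6 := hent M' hPA' y hy
    have h7 : (fun i => M' ⊨ κ i) = fun i => (K i).Realize fun _ => nv M' e := by
      funext i
      exact propext (hκ2 i M')
    rw [h7] at h6
    exact h6
  obtain ⟨p2, y, hW2, hTh2, hiff⟩ := hKe e ⟨p, hWp, x, hp⟩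
  obtain ⟨h8, h9, h10⟩ := (hWe p2).1 hW2 M hPA y hTh2
  have h11 : ∀ i, i ≤ r → ((K i).Realize (fun _ => nv M e) ∧ Q N (tau i p2) (tr k y)) := by
    intro i
    induction i with
    | zero =>
      intro _
      rcases h8 with h | h
      · exact ⟨h, (hiff 0).1 h⟩
      · exact ⟨(hiff 0).2 h, h⟩
    | succ i ih =>
      intro hi
      obtain ⟨ha, hb⟩ := ih (by omega)
      rcases h9 i (by omega) hb ha with h | h
      · exact ⟨h, (hiff (i + 1)).1 h⟩
      · exact ⟨(hiff (i + 1)).2 h, h⟩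
  obtain ⟨ha, hb⟩ := h11 r le_rfl
  exact h10 ⟨hb, ha⟩

end Pool.Agent.W921.SF.Chain
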