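import Pool.Agent.Helper227.ENJ.Defs
import Pool.Agent.Helper578.JD.Core

/-!
Solovay families whose functions change value boundedly often: definitions.

Part 1: the arithmetical hierarchy of formulas, Gödel numberings, indices, Solovay families.
Part 2: coded formulas and the block normal form.
Part 3: saturation, the back-and-forth game, forced facts about the jumps, conditions.
-/

set_option autoImplicit false

open FirstOrder FirstOrder.Language Pool.Agent.Helper227.EN

namespace Pool.Agent.W921.SF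

open Pool.Agent.Helper578.JD Pool.Agent.Helper578.JD.Oracle Pool.Agent.Helper578.JD.Defs

/-! ## Part 1 -/

section hier
variable {α : Type}

/-- Bounded formulas (`Δ₀`): all quantifiers are bounded by terms. -/
inductive D0 : {n : ℕ} → LA.BoundedFormula α n → Prop
  | falsum {n : ℕ} : D0 (BoundedFormula.falsum : LA.BoundedFormula α n)
  | equal {n : ℕ} (t s : LA.Term (α ⊕ Fin n)) : D0 (BoundedFormula.equal t s)
  | lt {n : ℕ} (t s : LA.Term (α ⊕ Fin n)) : D0 (flt t s)
  | imp {n : ℕ} {φ ψ : LA.BoundedFormula α n} : D0 φ → D0 ψ → D0 (φ.imp ψ)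
  | ball {n : ℕ} (t : LA.Term (α ⊕ Fin n)) {φ : LA.BoundedFormula α (n + 1)} : D0 φ →
      D0 ((flt (bv (Fin.last n)) (t.relabel (Sum.map id Fin.castSucc))).imp φ).all

/-- The arithmetical hierarchy of formulas: `Hier true m` is `Σ_m` and `Hier false m` is `Π_m`.
`Σ_0 = Π_0 = Δ_0`; the class `Σ_(m+1)` contains `Σ_m` and `Π_m` and is closed under `∃`, the class
`Π_(m+1)` contains `Σ_m` and `Π_m` and is closed under `∀`. -/
inductive Hier : Bool → ℕ → {n : ℕ} → LA.BoundedFormula α n → Prop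
  | d0 {b : Bool} {m n : ℕ} {φ : LA.BoundedFormula α n} : D0 φ → Hier b m φ
  | up {b b' : Bool} {m n : ℕ} {φ : LA.BoundedFormula α n} : Hier b m φ → Hier b' (m + 1) φ
  | ex {m n : ℕ} {φ : LA.BoundedFormula α (n + 1)} : Hier true (m + 1) φ →
      Hier true (m + 1) φ.ex
  | all {m n : ℕ} {φ : LA.BoundedFormula α (n + 1)} : Hier false (m + 1) φ →
      Hier false (m + 1) φ.all

/-- a rank: the number of nested quantifiers, plus one for atomic formulas (with terms) -/
def rk : {n : ℕ} → LA.BoundedFormula α n → ℕ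
  | _, .falsum => 0
  | _, .equal _ _ => 1
  | _, .rel _ _ => 1
  | _, .imp φ ψ => max (rk φ) (rk ψ)
  | _, .all φ => rk φ + 1

end hier

/-- The atomic diagram of a structure with universe `ℕ`, as a set of numbers. -/
def DS (A : LA.Structure ℕ) : Set ℕ := {p | diag A p = true}

/-- The sentence `φ` is true in the structure `A` with universe `ℕ`. -/
def TrueIn (A : LA.Structure ℕ) (φ : LA.Sentence) : Prop :=
  @Sentence.Realize LA ℕ A φ

/-- The (codes of the) `Σ_n` sentences true in `A`, for the Gödel numbering `gn`. -/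
def Tn (gn : LA.Sentence → ℕ) (A : LA.Structure ℕ) (n : ℕ) : Set ℕ :=
  {u | ∃ φ : LA.Sentence, Hier true n φ ∧ TrueIn A φ ∧ gn φ = u}

/-- The number `e` is an index of the set `Y` as a set computable in `X`: the `e`-th c.e. operator,
applied to `X`, enumerates the graph of the characteristic function of `Y`. -/
def IsIdx (e : ℕ) (X Y : Set ℕ) : Prop :=
  ∀ u b : ℕ, (∃ c : Info, Ok X c ∧ W e (Encodable.encode (c, (u, b)))) ↔ chiN Y u = b

/-- The functions `t n` (`n ≥ 1`) are `Δ⁰_n(X)`, uniformly in `n`: a c.e. operator, applied to `n`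
and to the `(n-1)`-st jump of `X`, enumerates the graph of `t n`. -/
def UDelta (X : Set ℕ) (t : ℕ → ℕ → ℕ) : Prop :=
  ∃ r : ℕ, ∀ n s v : ℕ, t (n + 1) s = v ↔
    ∃ c : Info, Ok (jump^[n] X) c ∧ W r (Encodable.encode (n + 1, (c, (s, v))))

/-- Solovay families for the theory of `A`, relative to (the atomic diagram of) `A`; only the levels
`n ≥ 1` are used. -/
structure IsSolovay (gn : LA.Sentence → ℕ) (A : LA.Structure ℕ) (t : ℕ → ℕ → ℕ) : Prop where
  delta : UDelta (DS A) t
  lim : ∀ n ≥ 1, ∃ e, (∃ s0, ∀ s ≥ s0, t n s = e) ∧ IsIdx e (DS A) (Tn gn A n)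
  sub : ∀ n ≥ 1, ∀ s, ∃ Y ⊆ Tn gn A n, IsIdx (t n s) (DS A) Y

/-- The function `t` changes value at most `r` times. -/
def Chg (t : ℕ → ℕ) (r : ℕ) : Prop :=
  ∀ F : Finset ℕ, (∀ s ∈ F, t (s + 1) ≠ t s) → F.card ≤ r

/-! ## Part 2 -/

section codes
variable {M : Type} [LA.Structure M]

/-- the value of a numeral -/
def nv (M : Type) [LA.Structure M] (j : ℕ) : M :=
  (num j : LA.Term Empty).realize (default : Empty → M)

theorem unpair_snd_lt {c : ℕ} (h : ¬ c.unpair.1 = 0) : c.unpair.2 < c := by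
  have h1 : Nat.pair c.unpair.1 c.unpair.2 = c := Nat.pair_unpair c
  generalize c.unpair.1 = a at *
  generalize c.unpair.2 = b at *
  rw [← h1]
  unfold Nat.pair
  split_ifs with h2
  · have h3 : b ≤ b * b := Nat.le_mul_self b
    omega
  · have h3 : a ≤ a * a := Nat.le_mul_self a
    omega

/-- Coded formulas with variables `0, 1, 2, …`: `⟨0, p⟩` is the atomic formula with code `p` (see
`Dg`), `⟨1, ⟨a, b⟩⟩` is `¬ (a ∧ b)` and `⟨v + 2, a⟩` is `∀ x_v, a`. -/
def Sat (c : ℕ) (x : ℕ → M) : Prop :=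
  if h0 : c.unpair.1 = 0 then Dg x c.unpair.2 = true
  else if c.unpair.1 = 1 then ¬ (Sat c.unpair.2.unpair.1 x ∧ Sat c.unpair.2.unpair.2 x)
  else ∀ y : M, Sat c.unpair.2 (Function.update x (c.unpair.1 - 2) y)
termination_by c
decreasing_by
  · exact lt_of_le_of_lt (Nat.unpair_left_le _) (unpair_snd_lt h0)
  · exact lt_of_le_of_lt (Nat.unpair_right_le _) (unpair_snd_lt h0)
  · exact unpair_snd_lt h0

/-- atomic codes -/
def cAt (p : ℕ) : ℕ := Nat.pair 0 p
/-- `¬ (a ∧ b)` -/
def cNand (a b : ℕ) : ℕ := Nat.pair 1 (Nat.pair a b)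
/-- `∀ x_v, a` -/
def cAll (v a : ℕ) : ℕ := Nat.pair (v + 2) a

theorem Sat_cAt (p : ℕ) (x : ℕ → M) : Sat (cAt p) x ↔ Dg x p = true := by
  unfold Sat; simp [cAt]

theorem Sat_cNand (a b : ℕ) (x : ℕ → M) : Sat (cNand a b) x ↔ ¬ (Sat a x ∧ Sat b x) := by
  conv_lhs => unfold Sat
  simp [cNand]

theorem Sat_cAll (v a : ℕ) (x : ℕ → M) :
    Sat (cAll v a) x ↔ ∀ y : M, Sat a (Function.update x v y) := by
  conv_lhs => unfold Sat
  simp [cAll]

/-- merge two sequences -/
def mrg (x y : ℕ → M) : ℕ → M := fun i => if i % 2 = 0 then x (i / 2) else y (i / 2)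

/-- Disjunctive normal forms in the atomic facts: `p = ⟨a, ⟨c, ⟨L, B⟩⟩⟩` says that there is a clause
`u < L` such that all literals `e < B` of the clause (those with `1 + (⟨u, e⟩ + 1) c ∣ a`) are true;
the literal `2 d + 1` says that the atomic fact `d` is true and `2 d` that it is false. -/
def DN (p : ℕ) (x : ℕ → M) : Prop :=
  ∃ u < p.unpair.2.unpair.2.unpair.1, ∀ e < p.unpair.2.unpair.2.unpair.2,
    (1 + (Nat.pair u e + 1) * p.unpair.2.unpair.1 ∣ p.unpair.1) → (Dg x (e / 2) = true ↔ e % 2 = 1)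

/-- The block normal form: level `0` are the disjunctive normal forms, and level `m + 1` says
`∃ y, ¬ (p at level m for x, y)` (quantification over sequences). -/
def Q : ℕ → ℕ → (ℕ → M) → Prop
  | 0, p, x => DN p x
  | m + 1, p, x => ∃ y : ℕ → M, ¬ Q m p (mrg x y)

/-- only the first `k` entries matter -/
def tr (k : ℕ) (x : ℕ → M) : ℕ → M := fun i => if i < k then x i else x 0

end codes

/-- uniform predicates of sequences given by one level `m` code -/
def QC (m : ℕ) (R : ∀ (M : Type) [LA.Structure M], (ℕ → M) → Prop) : Prop :=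
  ∃ p, ∀ (M : Type) [LA.Structure M] (x : ℕ → M), Q m p x ↔ R M x

/-- every level `N` fact about the first `k` entries of `x` is true of the first `k` entries of
`x'` -/
def TI {M M' : Type} [LA.Structure M] [LA.Structure M'] (N k : ℕ) (x : ℕ → M) (x' : ℕ → M') :
    Prop := ∀ p, Q N p (tr k x) → Q N p (tr k x')

/-- the same level `N` facts are true of the first `k` entries of `x` and of `x'` -/
def TE {M M' : Type} [LA.Structure M] [LA.Structure M'] (N k : ℕ) (x : ℕ → M) (x' : ℕ → M') :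
    Prop := ∀ p, Q N p (tr k x) ↔ Q N p (tr k x')

/-- first component of a code: a positive level `n` fact -/
def th1 (p : ℕ) : ℕ := p.unpair.1
/-- second component of a code: a negative level `n` fact -/
def th2 (p : ℕ) : ℕ := p.unpair.2.unpair.1
/-- the further components of a code: level `N` facts -/
def tau (i p : ℕ) : ℕ := ((fun z : ℕ => z.unpair.2)^[i] p.unpair.2.unpair.2).unpair.1

/-- the condition on `x` given by the first two components of `p` -/
def Th {M : Type} [LA.Structure M] (n k p : ℕ) (x : ℕ → M) : Prop :=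
  Q n (th1 p) (tr k x) ∧ ¬ Q n (th2 p) (tr k x)

/-- the implications between the level `N` facts and the truth values `κ i` -/
def Dsp {M : Type} [LA.Structure M] (N k r p : ℕ) (κ : ℕ → Prop) (x : ℕ → M) : Prop :=
  (κ 0 ∨ Q N (tau 0 p) (tr k x)) ∧
  (∀ i < r, Q N (tau i p) (tr k x) → κ i → κ (i + 1) ∨ Q N (tau (i + 1) p) (tr k x)) ∧
  ¬ (Q N (tau r p) (tr k x) ∧ κ r)

/-! ## Part 3 -/

/-- Saturation for countably many formulas in countably many variables over finitely many
parameters. -/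
def Satu (M : Type) [LA.Structure M] : Prop :=
  ∀ (x : ℕ → M) (k : ℕ) (Δ : ℕ → LA.Formula ℕ),
    (∀ s : ℕ, ∃ y : ℕ → M, (∀ i < k, y i = x i) ∧ ∀ j < s, (Δ j).Realize y) →
    ∃ y : ℕ → M, (∀ i < k, y i = x i) ∧ ∀ j, (Δ j).Realize y

/-- the first `k` entries are distinct -/
def InjB {M : Type} (k : ℕ) (x : ℕ → M) : Prop := ∀ i < k, ∀ j < k, x i = x j → i = j

/-- the back-and-forth game with `m` rounds; in each round one player extends the tuple by finitely
many elements -/
def G {M M' : Type} [LA.Structure M] [LA.Structure M'] : ℕ → ℕ → (ℕ → M) → (ℕ → M') → Prop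
  | 0, k, x, x' => ∀ t i j l, i < k → j < k → l < k → Dg x (cd t i j l) = Dg x' (cd t i j l)
  | m + 1, k, x, x' =>
      (∀ y : ℕ → M, (∀ i < k, y i = x i) → ∀ k' ≥ k,
        ∃ y' : ℕ → M', (∀ i < k, y' i = x' i) ∧ G m k' y y') ∧
      (∀ y' : ℕ → M', (∀ i < k, y' i = x' i) → ∀ k' ≥ k,
        ∃ y : ℕ → M, (∀ i < k, y i = x i) ∧ G m k' y y')

/-- one half of a round of the game -/
def Inc {M M' : Type} [LA.Structure M] [LA.Structure M'] (m k : ℕ) (x : ℕ → M) (x' : ℕ → M') :
    Prop :=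
  ∀ y : ℕ → M, (∀ i < k, y i = x i) → ∀ k' ≥ k,
    ∃ y' : ℕ → M', (∀ i < k, y' i = x' i) ∧ G m k' y y'

/-- Facts about the `m`-th jump of the atomic diagram forced by the first `k` entries of `x`:
`Fc m x k e true` says that `e` is forced to be in the `m`-th jump and `Fc m x k e false` that it is
forced to be outside. -/
def Fc {M : Type} [LA.Structure M] : ℕ → (ℕ → M) → ℕ → ℕ → Bool → Prop
  | 0, x, k, e, b => e < k ∧ Dg x e = b
  | m + 1, x, k, e, true => ∃ c : Info, W e (Encodable.encode c) ∧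
      (∀ a ∈ c.1, Fc m x k a true) ∧ ∀ a ∈ c.2, Fc m x k a false
  | m + 1, x, k, e, false => ∀ y : ℕ → M, (∀ i < k, y i = x i) → ∀ k' ≥ k, InjB k' y →
      ¬ ∃ c : Info, W e (Encodable.encode c) ∧
        (∀ a ∈ c.1, Fc m y k' a true) ∧ ∀ a ∈ c.2, Fc m y k' a false

/-- conditions -/
structure Cnd : Type 1 where
  M : Type
  str : LA.Structure M
  x : ℕ → M
  k : ℕ
  n : ℕ

attribute [instance] Cnd.str

/-- good conditions -/
structure Cnd.Good (q : Cnd) : Prop where
  pa : q.M ⊨ PA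
  sat : Satu q.M
  inj : InjB q.k q.x
  k1 : 1 ≤ q.k
  n1 : 1 ≤ q.n

/-- the condition `q'` extends the condition `q` -/
structure Cnd.Ext (q q' : Cnd) : Prop where
  k : q.k ≤ q'.k
  n : q.n ≤ q'.n
  g : G q.n q.k q.x q'.x

/-- The structure `A` with universe `ℕ` is a limit of a sequence of conditions which contains
`q`. -/
structure Lim (A : LA.Structure ℕ) (q : Cnd) : Prop where
  pos : ∀ m ≤ q.n, ∀ e, Fc m q.x q.k e true → e ∈ jump^[m] (DS A)
  neg : ∀ m ≤ q.n, ∀ e, Fc m q.x q.k e false → e ∉ jump^[m] (DS A)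
  cov : ∀ m ≤ q.n, ∀ e ∈ jump^[m] (DS A), ∃ y : ℕ → q.M, (∀ i < q.k, y i = q.x i) ∧
    ∃ k' ≥ q.k, InjB k' y ∧ Fc m y k' e true
  sen : ∀ φ : LA.Sentence, rk φ ≤ q.n → (TrueIn A φ ↔ q.M ⊨ φ)
  fml : ∀ φ : LA.Formula ℕ, rk φ ≤ q.n → (∀ i ∈ φ.freeVarFinset, i < q.k) →
    (@Formula.Realize LA ℕ A ℕ φ (id : ℕ → ℕ) ↔ φ.Realize q.x)

end Pool.Agent.W921.SF
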