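import Pool.Agent.W921.SF.Stm
import Pool.Agent.Helper227.EN.Alg

/-!
Solovay families: properties of the game and of the forced facts.
-/

set_option autoImplicit false

open FirstOrder FirstOrder.Language Pool.Agent.Helper227.EN

namespace Pool.Agent.W921.SF.GC

open Pool.Agent.Helper578.JD Pool.Agent.Helper578.JD.Oracle Pool.Agent.Helper578.JD.Defs
open Pool.Agent.H623R3.JC Pool.Agent.W921.SF

open Classical in
/-- atomic facts in terms of the values -/
noncomputable def DV {M : Type} [LA.Structure M] (c : ℕ) (a b d : M) : Bool :=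
  if c = 0 then decide (Structure.funMap (L := LA) AF.add ![a, b] = d)
  else if c = 1 then decide (Structure.funMap (L := LA) AF.mul ![a, b] = d)
  else if c = 2 then decide (Structure.RelMap (L := LA) AR.lt ![a, b])
  else if c = 3 then decide (Structure.funMap (L := LA) AF.zero ![] = a)
  else if c = 4 then decide (Structure.funMap (L := LA) AF.one ![] = a)
  else false

theorem Dg_eq {M : Type} [LA.Structure M] (x : ℕ → M) (e : ℕ) :
    Dg x e = DV e.unpair.1 (x e.unpair.2.unpair.1) (x e.unpair.2.unpair.2.unpair.1)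
      (x e.unpair.2.unpair.2.unpair.2) := rfl

theorem Dg_cd0 {M : Type} [LA.Structure M] (x : ℕ → M) (t i j l : ℕ) :
    Dg x (cd t i j l) = DV t (x i) (x j) (x l) := by
  rw [Dg_eq]
  simp only [cd, Nat.unpair_pair]

theorem Dg_cd {M : Type} [LA.Structure M] (x y : ℕ → M) (t i j l i' j' l' : ℕ)
    (h1 : x i = y i') (h2 : x j = y j') (h3 : x l = y l') :
    Dg x (cd t i j l) = Dg y (cd t i' j' l') := by
  rw [Dg_cd0, Dg_cd0, h1, h2, h3]

theorem cd_eta (e : ℕ) : cd e.unpair.1 e.unpair.2.unpair.1 e.unpair.2.unpair.2.unpair.1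
    e.unpair.2.unpair.2.unpair.2 = e := by
  simp [cd]

theorem idx1 (e : ℕ) : e.unpair.2.unpair.1 ≤ e :=
  le_trans (Nat.unpair_left_le _) (Nat.unpair_right_le _)

theorem idx2 (e : ℕ) : e.unpair.2.unpair.2.unpair.1 ≤ e :=
  le_trans (Nat.unpair_left_le _) (le_trans (Nat.unpair_right_le _) (Nat.unpair_right_le _))

theorem idx3 (e : ℕ) : e.unpair.2.unpair.2.unpair.2 ≤ e :=
  le_trans (Nat.unpair_right_le _) (le_trans (Nat.unpair_right_le _) (Nat.unpair_right_le _))

theorem Dg_loc {M : Type} [LA.Structure M] (x y : ℕ → M) (e : ℕ) (h : ∀ i ≤ e, x i = y i) :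
    Dg x e = Dg y e := by
  rw [← cd_eta e]
  exact Dg_cd x y _ _ _ _ _ _ _ (h _ (idx1 e)) (h _ (idx2 e)) (h _ (idx3 e))

section
variable {M M' M'' : Type} [LA.Structure M] [LA.Structure M'] [LA.Structure M'']

theorem G_loc (m : ℕ) : ∀ (k : ℕ) (x y : ℕ → M) (x' y' : ℕ → M'), (∀ i < k, x i = y i) →
    (∀ i < k, x' i = y' i) → G m k x x' → G m k y y' := by
  cases m with
  | zero =>
    intro k x y x' y' h h' hG t i j l hi hj hl
    rw [← Dg_cd x y t i j l i j l (h i hi) (h j hj) (h l hl), hG t i j l hi hj hl,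
      Dg_cd x' y' t i j l i j l (h' i hi) (h' j hj) (h' l hl)]
  | succ m =>
    intro k x y x' y' h h' hG
    refine ⟨fun z hz k' hk' => ?_, fun z' hz' k' hk' => ?_⟩
    · obtain ⟨w, hw, hG'⟩ := hG.1 z (fun i hi => (hz i hi).trans (h i hi).symm) k' hk'
      exact ⟨w, fun i hi => (hw i hi).trans (h' i hi), hG'⟩
    · obtain ⟨w, hw, hG'⟩ := hG.2 z' (fun i hi => (hz' i hi).trans (h' i hi).symm) k' hk'
      exact ⟨w, fun i hi => (hw i hi).trans (h i hi), hG'⟩

theorem G_refl (m : ℕ) : ∀ (k : ℕ) (x : ℕ → M), G m k x x := by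
  induction m with
  | zero => intro k x t i j l _ _ _; rfl
  | succ m ih =>
    intro k x
    exact ⟨fun y hy k' _ => ⟨y, hy, ih k' y⟩, fun y hy k' _ => ⟨y, hy, ih k' y⟩⟩

theorem G_symm (m : ℕ) : ∀ (k : ℕ) (x : ℕ → M) (x' : ℕ → M'), G m k x x' → G m k x' x := by
  induction m with
  | zero => intro k x x' h t i j l hi hj hl; exact (h t i j l hi hj hl).symm
  | succ m ih =>
    intro k x x' h
    refine ⟨fun y hy k' hk' => ?_, fun y hy k' hk' => ?_⟩
    · obtain ⟨w, hw, hG⟩ := h.2 y hy k' hk'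
      exact ⟨w, hw, ih k' w y hG⟩
    · obtain ⟨w, hw, hG⟩ := h.1 y hy k' hk'
      exact ⟨w, hw, ih k' y w hG⟩

theorem G_trans (m : ℕ) : ∀ (k : ℕ) (x : ℕ → M) (x' : ℕ → M') (x'' : ℕ → M''), G m k x x' →
    G m k x' x'' → G m k x x'' := by
  induction m with
  | zero =>
    intro k x x' x'' h h' t i j l hi hj hl
    rw [h t i j l hi hj hl, h' t i j l hi hj hl]
  | succ m ih =>
    intro k x x' x'' h h'
    refine ⟨fun y hy k' hk' => ?_, fun y hy k' hk' => ?_⟩
    · obtain ⟨w, hw, hG⟩ := h.1 y hy k' hk'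
      obtain ⟨z, hz, hG'⟩ := h'.1 w hw k' hk'
      exact ⟨z, hz, ih k' y w z hG hG'⟩
    · obtain ⟨w, hw, hG⟩ := h'.2 y hy k' hk'
      obtain ⟨z, hz, hG'⟩ := h.2 w hw k' hk'
      exact ⟨z, hz, ih k' z w y hG' hG⟩

theorem G_ren (m : ℕ) : ∀ (k k' : ℕ) (x : ℕ → M) (x' : ℕ → M') (ρ : ℕ → ℕ),
    (∀ i < k', ρ i < k) → G m k x x' → G m k' (fun i => x (ρ i)) fun i => x' (ρ i) := by
  induction m with
  | zero =>
    intro k k' x x' ρ hρ h t i j l hi hj hl
    have e1 := Dg_cd (fun i => x (ρ i)) x t i j l (ρ i) (ρ j) (ρ l) rfl rfl rfl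
    have e2 := Dg_cd (fun i => x' (ρ i)) x' t i j l (ρ i) (ρ j) (ρ l) rfl rfl rfl
    rw [e1, e2]
    exact h t _ _ _ (hρ i hi) (hρ j hj) (hρ l hl)
  | succ m ih =>
    have half : ∀ (N N' : Type) [LA.Structure N] [LA.Structure N'] (ihh : ∀ (k k' : ℕ)
        (x : ℕ → N) (x' : ℕ → N') (ρ : ℕ → ℕ), (∀ i < k', ρ i < k) → G m k x x' →
        G m k' (fun i => x (ρ i)) fun i => x' (ρ i)) (k k' : ℕ) (x : ℕ → N) (x' : ℕ → N')
        (ρ : ℕ → ℕ), (∀ i < k', ρ i < k) → Inc m k x x' →
        Inc m k' (fun i => x (ρ i)) fun i => x' (ρ i) := by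
      intro N N' _ _ ihh k k' x x' ρ hρ h w hw l hl
      obtain ⟨u', hu', hG⟩ := h (fun i => if i < k then x i else w (i - k))
        (fun _ hi => by simp [hi]) (k + l) (Nat.le_add_right _ _)
      refine ⟨fun i => u' (if i < k' then ρ i else k + i), fun i hi => ?_, ?_⟩
      · simp only [hi, if_true]
        exact hu' _ (hρ i hi)
      · have h1 := ihh (k + l) l _ u' (fun i => if i < k' then ρ i else k + i) (fun i hi => by
          by_cases h2 : i < k'
          · simp only [h2, if_true]; have := hρ i h2; omega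
          · simp only [h2, if_false]; omega) hG
        refine G_loc m l _ _ _ _ (fun i hi => ?_) (fun _ _ => rfl) h1
        by_cases h2 : i < k'
        · simp only [h2, if_true, hρ i h2]
          exact (hw i h2).symm
        · simp only [h2, if_false]
          have h3 : ¬ (k + i < k) := by omega
          simp [h3]
    intro k k' x x' ρ hρ h
    refine ⟨half M M' ih k k' x x' ρ hρ h.1, ?_⟩
    have h2 := half M' M (fun k k' x x' ρ hρ hG => G_symm m k' _ _
      (ih k k' x' x ρ hρ (G_symm m k x x' hG))) k k' x' x ρ hρ (fun y hy k' hk' => by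
        obtain ⟨w, hw, hG⟩ := h.2 y hy k' hk'
        exact ⟨w, hw, G_symm m k' w y hG⟩)
    intro y hy k'' hk''
    obtain ⟨w, hw, hG⟩ := h2 y hy k'' hk''
    exact ⟨w, hw, G_symm m k'' y w hG⟩

theorem G_mono1 (m k k' : ℕ) (x : ℕ → M) (x' : ℕ → M') (hk : k' ≤ k) (h : G m k x x') :
    G m k' x x' :=
  G_ren m k k' x x' (fun i => i) (fun i hi => lt_of_lt_of_le hi hk) h

theorem G_mono2 (m k : ℕ) (x : ℕ → M) (x' : ℕ → M') (h : G (m + 1) k x x') : G m k x x' := by
  obtain ⟨w, hw, hG⟩ := h.1 x (fun _ _ => rfl) k le_rfl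
  exact G_loc m k x x w x' (fun _ _ => rfl) hw hG

theorem G_mono (m m' k k' : ℕ) (x : ℕ → M) (x' : ℕ → M') (hm : m' ≤ m) (hk : k' ≤ k)
    (h : G m k x x') : G m' k' x x' := by
  apply G_mono1 m' k k' x x' hk
  obtain ⟨d, rfl⟩ := Nat.exists_eq_add_of_le hm
  clear hm
  induction d with
  | zero => exact h
  | succ d ih => exact ih (G_mono2 _ k x x' h)

end

section pa
variable {M : Type} [LA.Structure M]

theorem lt_irrefl' (h : M ⊨ PA) (x : M) : ¬ Structure.RelMap (L := LA) AR.lt ![x, x] := by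
  haveI : Nonempty M := ⟨x⟩
  have h1 : M ⊨ PAminus := h.mono Set.subset_union_left
  exact (ea_ax M h1).ir x

theorem lt_total' (h : M ⊨ PA) (x y : M) : Structure.RelMap (L := LA) AR.lt ![x, y] ∨ x = y ∨
    Structure.RelMap (L := LA) AR.lt ![y, x] := by
  haveI : Nonempty M := ⟨x⟩
  have h1 : M ⊨ PAminus := h.mono Set.subset_union_left
  exact (ea_ax M h1).tot x y

end pa

theorem Dg_lt {M : Type} [LA.Structure M] (x : ℕ → M) (i j : ℕ) :
    Dg x (cd 2 i j i) = true ↔ Structure.RelMap (L := LA) AR.lt ![x i, x j] := by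
  rw [Dg_cd0]
  simp [DV]

theorem gcal : S_GCAL where
  refl := fun M _ m k x => G_refl m k x
  symm := fun M M' _ _ m k x x' h => G_symm m k x x' h
  trans := fun M M' M'' _ _ _ m k x x' x'' h h' => G_trans m k x x' x'' h h'
  loc := fun M M' _ _ m k x y x' y' h h' hG => G_loc m k x y x' y' h h' hG
  ren := fun M M' _ _ m k k' x x' ρ hρ h => G_ren m k k' x x' ρ hρ h
  mono := fun M M' _ _ m m' k k' x x' hm hk h => G_mono m m' k k' x x' hm hk h
  inj := by
    intro M M' _ _ hM hM' m k x x' h hinj i hi j hj hij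
    by_contra hne
    have h0 : G 0 k x x' := G_mono m 0 k k x x' (Nat.zero_le _) le_rfl h
    have hx : x i ≠ x j := fun he => hne (hinj i hi j hj he)
    rcases lt_total' hM (x i) (x j) with h1 | h1 | h1
    · have h2 := (Dg_lt x i j).2 h1
      rw [h0 2 i j i hi hj hi] at h2
      have h3 := (Dg_lt x' i j).1 h2
      rw [hij] at h3
      exact lt_irrefl' hM' _ h3
    · exact hx h1
    · have h2 := (Dg_lt x j i).2 h1
      rw [h0 2 j i j hj hi hj] at h2
      have h3 := (Dg_lt x' j i).1 h2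
      rw [hij] at h3
      exact lt_irrefl' hM' _ h3

section fc

theorem Fc_inv (m : ℕ) : ∀ (M M' : Type) [LA.Structure M] [LA.Structure M'], M ⊨ PA → M' ⊨ PA →
    ∀ (k : ℕ) (x : ℕ → M) (x' : ℕ → M'), G m k x x' → ∀ e b, Fc m x k e b → Fc m x' k e b := by
  induction m with
  | zero =>
    intro M M' _ _ _ _ k x x' h e b hF
    obtain ⟨h1, h2⟩ := hF
    refine ⟨h1, ?_⟩
    rw [← h2]
    have h3 := h e.unpair.1 e.unpair.2.unpair.1 e.unpair.2.unpair.2.unpair.1
      e.unpair.2.unpair.2.unpair.2 (lt_of_le_of_lt (idx1 e) h1) (lt_of_le_of_lt (idx2 e) h1)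
      (lt_of_le_of_lt (idx3 e) h1)
    rw [cd_eta] at h3
    exact h3.symm
  | succ m ih =>
    intro M M' _ _ hM hM' k x x' h e b hF
    cases b with
    | true =>
      obtain ⟨c, hc, h1, h2⟩ := hF
      have h' := G_mono2 m k x x' h
      exact ⟨c, hc, fun a ha => ih M M' hM hM' k x x' h' a true (h1 a ha),
        fun a ha => ih M M' hM hM' k x x' h' a false (h2 a ha)⟩
    | false =>
      intro y' hy' k' hk' hinj hex
      obtain ⟨c, hc, h1, h2⟩ := hex
      obtain ⟨y, hy, hG⟩ := h.2 y' hy' k' hk'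
      have hG' := G_symm m k' y y' hG
      refine hF y hy k' hk' (gcal.inj M' M hM' hM m k' y' y hG' hinj) ⟨c, hc, ?_, ?_⟩
      · exact fun a ha => ih M' M hM' hM k' y' y hG' a true (h1 a ha)
      · exact fun a ha => ih M' M hM' hM k' y' y hG' a false (h2 a ha)

theorem Fc_mono {M : Type} [LA.Structure M] (m : ℕ) : ∀ (k k' : ℕ) (x y : ℕ → M),
    (∀ i < k, y i = x i) → k ≤ k' → ∀ e b, Fc m x k e b → Fc m y k' e b := by
  induction m with
  | zero =>
    intro k k' x y hy hk e b hF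
    obtain ⟨h1, h2⟩ := hF
    refine ⟨lt_of_lt_of_le h1 hk, ?_⟩
    rw [← h2]
    exact Dg_loc y x e fun i hi => hy i (lt_of_le_of_lt hi h1)
  | succ m ih =>
    intro k k' x y hy hk e b hF
    cases b with
    | true =>
      obtain ⟨c, hc, h1, h2⟩ := hF
      exact ⟨c, hc, fun a ha => ih k k' x y hy hk a true (h1 a ha),
        fun a ha => ih k k' x y hy hk a false (h2 a ha)⟩
    | false =>
      intro z hz k'' hk'' hinj
      exact hF z (fun i hi => (hz i (lt_of_lt_of_le hi hk)).trans (hy i hi)) k''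
        (le_trans hk hk'') hinj

theorem fcal : S_FCAL where
  inv := fun M M' _ _ hM hM' m k x x' h e b =>
    ⟨fun hF => Fc_inv m M M' hM hM' k x x' h e b hF,
      fun hF => Fc_inv m M' M hM' hM k x' x (G_symm m k x x' h) e b hF⟩
  inv1 := by
    intro M M' _ _ hM hM' m k x x' h e
    constructor
    · rintro ⟨c, hc, h1, h2⟩
      exact ⟨c, hc, fun a ha => Fc_inv m M M' hM hM' k x x' h a true (h1 a ha),
        fun a ha => Fc_inv m M M' hM hM' k x x' h a false (h2 a ha)⟩
    · rintro ⟨c, hc, h1, h2⟩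
      have h' := G_symm m k x x' h
      exact ⟨c, hc, fun a ha => Fc_inv m M' M hM' hM k x' x h' a true (h1 a ha),
        fun a ha => Fc_inv m M' M hM' hM k x' x h' a false (h2 a ha)⟩
  mono := fun M _ m k k' x y hy hk e b hF => Fc_mono m k k' x y hy hk e b hF
  con := by
    intro M _ m k x hinj e
    rintro ⟨h1, h2⟩
    cases m with
    | zero =>
      have h3 := h1.2
      rw [h2.2] at h3
      exact Bool.false_ne_true h3
    | succ m => exact h2 x (fun _ _ => rfl) k le_rfl hinj h1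

end fc

end Pool.Agent.W921.SF.GC
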