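import Pool.Agent.W921.SF.QF

/-!
Solovay families: saturation and the game.
-/

set_option autoImplicit false

open FirstOrder FirstOrder.Language Pool.Agent.Helper227.EN

namespace Pool.Agent.W921.SF.Game

open Pool.Agent.Helper578.JD Pool.Agent.Helper578.JD.Oracle Pool.Agent.Helper578.JD.Defs
open Pool.Agent.H623R3.JC Pool.Agent.W921.SF

theorem tr_eq {M : Type} (k : ℕ) (x : ℕ → M) : tr k x = fun i => x (if i < k then i else 0) := by
  funext i
  unfold tr
  by_cases h : i < k
  · rw [if_pos h, if_pos h]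
  · rw [if_neg h, if_neg h]

theorem QC_true (m : ℕ) : QC m fun _ _ _ => True := by
  induction m with
  | zero => exact QC0.qcal.bits 0 (fun _ => True) fun _ _ _ => Iff.rfl
  | succ m ih => exact QC0.qcal.up m _ ih

/-- finitely many prescribed facts -/
def Cs (m k' s : ℕ) (b : ℕ → Prop) (M : Type) [LA.Structure M] (z : ℕ → M) : Prop :=
  ∀ j < s, (Q m j (tr k' z) ↔ b j)

theorem QC_Cs (m k' s : ℕ) (b : ℕ → Prop) : QC (m + 1) (Cs m k' s b) := by
  classical
  induction s with
  | zero =>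
    obtain ⟨p, hp⟩ := QC_true (m + 1)
    refine ⟨p, fun M _ x => (hp M x).trans ?_⟩
    unfold Cs
    simp
  | succ s ih =>
    have h0 : QC m fun M _ x => Q m s (tr k' x) := by
      obtain ⟨p, hp⟩ := QC0.qcal.ren m (fun M _ x => Q m s x) (fun i => if i < k' then i else 0)
        ⟨s, fun _ _ _ => Iff.rfl⟩
      refine ⟨p, fun M _ x => (hp M x).trans ?_⟩
      show (Q m s fun i => x (if i < k' then i else 0)) ↔ Q m s (tr k' x)
      rw [tr_eq]
    have h1 : QC (m + 1) fun M _ x => (Q m s (tr k' x) ↔ b s) := by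
      by_cases hb : b s
      · obtain ⟨p, hp⟩ := QC0.qcal.up m _ h0
        refine ⟨p, fun M _ x => (hp M x).trans ?_⟩
        simp [hb]
      · obtain ⟨p, hp⟩ := QC0.qcal.not m _ h0
        refine ⟨p, fun M _ x => (hp M x).trans ?_⟩
        simp [hb]
    obtain ⟨p, hp⟩ := QC0.qcal.and (m + 1) _ _ ih h1
    refine ⟨p, fun M _ x => (hp M x).trans ?_⟩
    unfold Cs
    constructor
    · rintro ⟨h2, h3⟩ j hj
      rcases Nat.lt_succ_iff_lt_or_eq.1 hj with h4 | rfl
      · exact h2 j h4
      · exact h3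
    · intro h2
      exact ⟨fun j hj => h2 j (by omega), h2 s (by omega)⟩

/-- the first `k` entries of `z` followed by entries of `w` -/
def gl {M : Type} (k : ℕ) (z w : ℕ → M) : ℕ → M := fun i => if i < k then z i else w i

theorem QC_Rs (m k k' s : ℕ) (b : ℕ → Prop) :
    QC (m + 1) fun M _ z => ∃ w : ℕ → M, Cs m k' s b M (gl k z w) := by
  have h1 := QC0.qcal.ren (m + 1) _ (fun i => if i < k then 2 * i else 2 * i + 1)
    (QC_Cs m k' s b)
  obtain ⟨p, hp⟩ := QC0.qcal.ex m _ h1
  refine ⟨p, fun M _ x => (hp M x).trans ?_⟩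
  refine exists_congr fun w => ?_
  have h2 : (fun i => mrg x w (if i < k then 2 * i else 2 * i + 1)) = gl k x w := by
    funext i
    unfold gl
    by_cases h : i < k
    · rw [if_pos h, if_pos h, QC0.mrg_even]
    · rw [if_neg h, if_neg h, QC0.mrg_odd]
  rw [h2]

theorem step (m : ℕ) (M M' : Type) [LA.Structure M] [LA.Structure M']
    (hsat : Satu M') (hG : ∀ (k : ℕ) (y : ℕ → M) (y' : ℕ → M'), 1 ≤ k → TE m k y y' → G m k y y')
    (k : ℕ) (x : ℕ → M) (x' : ℕ → M') (hk : 1 ≤ k) (h : TI (m + 1) k x x') : Inc m k x x' := by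
  classical
  intro y hy k' hk'
  choose φ hφ using QF.fml m
  let b : ℕ → Prop := fun j => Q m j (tr k' y)
  let ψ : ℕ → LA.Formula ℕ := fun j => (φ j).relabel fun i => if i < k' then i else 0
  have hψ : ∀ (N : Type) [LA.Structure N] (j : ℕ) (z : ℕ → N),
      (ψ j).Realize z ↔ Q m j (tr k' z) := by
    intro N _ j z
    show ((φ j).relabel fun i => if i < k' then i else 0).Realize z ↔ _
    rw [Formula.realize_relabel, hφ, tr_eq]
    rfl
  let Δ : ℕ → LA.Formula ℕ := fun j => if b j then ψ j else ∼(ψ j)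
  have hΔ : ∀ (N : Type) [LA.Structure N] (j : ℕ) (z : ℕ → N),
      (Δ j).Realize z ↔ (Q m j (tr k' z) ↔ b j) := by
    intro N _ j z
    show (if b j then ψ j else ∼(ψ j)).Realize z ↔ _
    by_cases hb : b j
    · rw [if_pos hb, hψ]
      simp [hb]
    · rw [if_neg hb, Formula.realize_not, hψ]
      simp [hb]
  obtain ⟨y', hy', hall⟩ := hsat x' k Δ (by
    intro s
    obtain ⟨p, hp⟩ := QC_Rs m k k' s b
    have h1 : Q (m + 1) p (tr k x) := by
      rw [hp]
      refine ⟨y, ?_⟩
      have h2 : gl k (tr k x) y = y := by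
        funext i
        unfold gl tr
        by_cases hi : i < k
        · rw [if_pos hi, if_pos hi, hy i hi]
        · rw [if_neg hi]
      rw [h2]
      intro j _
      exact Iff.rfl
    have h3 := h p h1
    rw [hp] at h3
    obtain ⟨w, hw⟩ := h3
    refine ⟨gl k (tr k x') w, fun i hi => ?_, fun j hj => ?_⟩
    · unfold gl tr
      rw [if_pos hi, if_pos hi]
    · rw [hΔ]
      exact hw j hj)
  refine ⟨y', hy', hG k' y y' (le_trans hk hk') fun p => ?_⟩
  have h4 := (hΔ M' p y').1 (hall p)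
  exact h4.symm

theorem te_g (m : ℕ) : ∀ (M M' : Type) [LA.Structure M] [LA.Structure M'], Satu M → Satu M' →
    ∀ (k : ℕ) (x : ℕ → M) (x' : ℕ → M'), 1 ≤ k → TE m k x x' → G m k x x' := by
  induction m with
  | zero =>
    intro M M' _ _ _ _ k x x' hk h t i j l hi hj hl
    obtain ⟨p, hp⟩ := QC0.qcal.bits (cd t i j l + 1) (fun s => s (cd t i j l) = true)
      (fun s s' h => by rw [h _ (Nat.lt_succ_self _)])
    have h1 := h p
    rw [hp, hp] at h1
    change Dg (tr k x) (cd t i j l) = true ↔ Dg (tr k x') (cd t i j l) = true at h1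
    rw [GC.Dg_cd (tr k x) x t i j l i j l (by simp [tr, hi]) (by simp [tr, hj])
      (by simp [tr, hl]), GC.Dg_cd (tr k x') x' t i j l i j l (by simp [tr, hi])
      (by simp [tr, hj]) (by simp [tr, hl])] at h1
    exact Bool.eq_iff_iff.2 h1
  | succ m ih =>
    intro M M' _ _ hs hs' k x x' hk h
    refine ⟨step m M M' hs' (fun k y y' hk hT => ih M M' hs hs' k y y' hk hT) k x x' hk
      (fun p => (h p).1), ?_⟩
    have h1 := step m M' M hs (fun k y y' hk hT => ih M' M hs' hs k y y' hk hT) k x' x hk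
      (fun p => (h p).2)
    intro y' hy' k' hk'
    obtain ⟨y, hy, hG⟩ := h1 y' hy' k' hk'
    exact ⟨y, hy, GC.G_symm m k' y' y hG⟩

theorem task : S_GAME := by
  intro M M' _ _ _ _ hs hs' m k x x' hk
  exact ⟨te_g m M M' hs hs' k x x' hk, step m M M' hs'
    (fun k y y' hk hT => te_g m M M' hs hs' k y y' hk hT) k x x' hk⟩

end Pool.Agent.W921.SF.Game
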