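import Pool.Agent.W921.SF.Sent

/-!
Solovay families: closure properties of the arithmetical hierarchy.
-/

set_option autoImplicit false

open FirstOrder FirstOrder.Language Pool.Agent.Helper227.EN

namespace Pool.Agent.W921.SF.HC

open Pool.Agent.Helper578.JD Pool.Agent.Helper578.JD.Oracle Pool.Agent.Helper578.JD.Defs
open Pool.Agent.H623R3.JC Pool.Agent.W921.SF

section ren
variable {α β : Type}

/-- extension of a renaming to one more bound variable -/
def upr {n n' : ℕ} (ρ : α ⊕ Fin n → β ⊕ Fin n') : α ⊕ Fin (n + 1) → β ⊕ Fin (n' + 1) :=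
  Sum.elim (fun a => Sum.map id Fin.castSucc (ρ (Sum.inl a)))
    (fun i => Fin.lastCases (motive := fun _ => β ⊕ Fin (n' + 1)) (Sum.inr (Fin.last n'))
      (fun j => Sum.map id Fin.castSucc (ρ (Sum.inr j))) i)

theorem upr_last {n n' : ℕ} (ρ : α ⊕ Fin n → β ⊕ Fin n') :
    upr ρ (Sum.inr (Fin.last n)) = Sum.inr (Fin.last n') := by
  simp [upr]

theorem upr_cast {n n' : ℕ} (ρ : α ⊕ Fin n → β ⊕ Fin n') :
    upr ρ ∘ Sum.map id Fin.castSucc = Sum.map id Fin.castSucc ∘ ρ := by
  funext a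
  rcases a with a | i
  · simp [upr]
  · simp [upr]

/-- renaming of variables -/
def ren : {n : ℕ} → LA.BoundedFormula α n → {n' : ℕ} → (α ⊕ Fin n → β ⊕ Fin n') →
    LA.BoundedFormula β n'
  | _, .falsum, _, _ => .falsum
  | _, .equal t s, _, ρ => .equal (t.relabel ρ) (s.relabel ρ)
  | _, .rel R ts, _, ρ => .rel R fun i => (ts i).relabel ρ
  | _, .imp φ ψ, _, ρ => .imp (ren φ ρ) (ren ψ ρ)
  | _, .all φ, _, ρ => .all (ren φ (upr ρ))

theorem realize_ren {M : Type} [LA.Structure M] {n : ℕ} (φ : LA.BoundedFormula α n) :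
    ∀ {n' : ℕ} (ρ : α ⊕ Fin n → β ⊕ Fin n') (v : β → M) (xs : Fin n' → M),
      (ren φ ρ).Realize v xs ↔ φ.Realize (fun a => Sum.elim v xs (ρ (Sum.inl a)))
        (fun i => Sum.elim v xs (ρ (Sum.inr i))) := by
  have key : ∀ {n n' : ℕ} (ρ : α ⊕ Fin n → β ⊕ Fin n') (v : β → M) (xs : Fin n' → M),
      Sum.elim v xs ∘ ρ = Sum.elim (fun a => Sum.elim v xs (ρ (Sum.inl a)))
        (fun i => Sum.elim v xs (ρ (Sum.inr i))) := by
    intro n n' ρ v xs
    funext a
    rcases a with a | i <;> rfl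
  induction φ with
  | falsum => intro n' ρ v xs; rfl
  | equal t s =>
    intro n' ρ v xs
    show (t.relabel ρ).realize (Sum.elim v xs) = (s.relabel ρ).realize (Sum.elim v xs) ↔ _
    rw [Term.realize_relabel, Term.realize_relabel, key]
    rfl
  | rel R ts =>
    intro n' ρ v xs
    show Structure.RelMap R (fun i => ((ts i).relabel ρ).realize (Sum.elim v xs)) ↔ _
    simp only [Term.realize_relabel, key]
    rfl
  | imp φ ψ ih1 ih2 =>
    intro n' ρ v xs
    show ((ren φ ρ).Realize v xs → (ren ψ ρ).Realize v xs) ↔ _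
    rw [ih1, ih2]
    rfl
  | @all n φ ih =>
    intro n' ρ v xs
    show (∀ y, (ren φ (upr ρ)).Realize v (Fin.snoc xs y)) ↔ ∀ y, φ.Realize _ (Fin.snoc _ y)
    refine forall_congr' fun y => ?_
    rw [ih]
    have h1 : ∀ b : β ⊕ Fin n', Sum.elim v (Fin.snoc xs y : Fin (n' + 1) → M)
        (Sum.map id Fin.castSucc b) = Sum.elim v xs b := by
      intro b
      rcases b with b | i <;> simp
    have h2 : (fun a => Sum.elim v (Fin.snoc xs y : Fin (n' + 1) → M) (upr ρ (Sum.inl a))) =
        fun a => Sum.elim v xs (ρ (Sum.inl a)) := by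
      funext a
      exact h1 _
    have h3 : (fun i => Sum.elim v (Fin.snoc xs y : Fin (n' + 1) → M) (upr ρ (Sum.inr i))) =
        Fin.snoc (fun i => Sum.elim v xs (ρ (Sum.inr i))) y := by
      funext i
      refine Fin.lastCases ?_ (fun j => ?_) i
      · rw [upr_last]; simp
      · have h4 : upr ρ (Sum.inr (Fin.castSucc j)) = Sum.map id Fin.castSucc (ρ (Sum.inr j)) := by
          simp [upr]
        rw [h4, h1]; simp
    rw [h2, h3]

theorem ren_flt {n n' : ℕ} (ρ : α ⊕ Fin n → β ⊕ Fin n') (t s : LA.Term (α ⊕ Fin n)) :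
    ren (flt t s) ρ = flt (t.relabel ρ) (s.relabel ρ) := by
  have : (fun i => (![t, s] i).relabel ρ) = ![t.relabel ρ, s.relabel ρ] := by
    funext i
    fin_cases i <;> rfl
  exact congrArg (BoundedFormula.rel (L := LA) AR.lt) this

theorem D0_ren {n : ℕ} {φ : LA.BoundedFormula α n} (h : D0 φ) :
    ∀ {n' : ℕ} (ρ : α ⊕ Fin n → β ⊕ Fin n'), D0 (ren φ ρ) := by
  induction h with
  | falsum => intro n' ρ; exact D0.falsum
  | equal t s => intro n' ρ; exact D0.equal _ _
  | lt t s => intro n' ρ; rw [ren_flt]; exact D0.lt _ _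
  | imp _ _ ih1 ih2 => intro n' ρ; exact D0.imp (ih1 ρ) (ih2 ρ)
  | @ball n t φ _ ih =>
    intro n' ρ
    have h2 : ren (flt (bv (Fin.last n)) (t.relabel (Sum.map id Fin.castSucc))) (upr ρ) =
        flt (bv (Fin.last n')) ((t.relabel ρ).relabel (Sum.map id Fin.castSucc)) := by
      rw [ren_flt, Term.relabel_relabel, Term.relabel_relabel, upr_cast]
      show flt (Term.var (upr ρ (Sum.inr (Fin.last n)))) _ = _
      rw [upr_last]
    have h1 : ren ((flt (bv (Fin.last n)) (t.relabel (Sum.map id Fin.castSucc))).imp φ).all ρ =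
        ((flt (bv (Fin.last n')) ((t.relabel ρ).relabel (Sum.map id Fin.castSucc))).imp
          (ren φ (upr ρ))).all := by
      rw [← h2]
      rfl
    rw [h1]
    exact D0.ball _ (ih _)

theorem Hier_ren {b : Bool} {m n : ℕ} {φ : LA.BoundedFormula α n} (h : Hier b m φ) :
    ∀ {n' : ℕ} (ρ : α ⊕ Fin n → β ⊕ Fin n'), Hier b m (ren φ ρ) := by
  induction h with
  | d0 h => intro n' ρ; exact Hier.d0 (D0_ren h ρ)
  | up _ ih => intro n' ρ; exact Hier.up (ih ρ)
  | ex _ ih => intro n' ρ; exact Hier.ex (ih _)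
  | all _ ih => intro n' ρ; exact Hier.all (ih _)

/-- a dummy bound variable -/
def lft {n : ℕ} (φ : LA.BoundedFormula α n) : LA.BoundedFormula α (n + 1) :=
  ren φ (Sum.map id Fin.castSucc)

theorem realize_lft {M : Type} [LA.Structure M] {n : ℕ} (φ : LA.BoundedFormula α n) (v : α → M)
    (xs : Fin n → M) (y : M) : (lft φ).Realize v (Fin.snoc xs y) ↔ φ.Realize v xs := by
  unfold lft
  rw [realize_ren]
  have h1 : (fun i : Fin n => Sum.elim v (Fin.snoc xs y : Fin (n + 1) → M)
      ((Sum.map id Fin.castSucc : α ⊕ Fin n → α ⊕ Fin (n + 1)) (Sum.inr i))) = xs := by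
    funext i
    simp
  rw [h1]
  rfl

end ren

/-! ### Quantifier blocks -/

section blocks
variable {α : Type}

/-- `∃` or `∀` -/
def qn {n : ℕ} (b : Bool) (φ : LA.BoundedFormula α (n + 1)) : LA.BoundedFormula α n :=
  if b then φ.ex else φ.all

theorem Hier.q {b : Bool} {m n : ℕ} {φ : LA.BoundedFormula α (n + 1)} (h : Hier b (m + 1) φ) :
    Hier b (m + 1) (qn b φ) := by
  cases b with
  | true => exact Hier.ex h
  | false => exact Hier.all h

/-- blocks of quantifiers of the kind `b` -/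
inductive Bl (b : Bool) (N : ℕ) : {n : ℕ} → LA.BoundedFormula α n → Prop
  | base {n : ℕ} {φ : LA.BoundedFormula α n} : Hier (!b) N φ → Bl b N φ
  | q {n : ℕ} {φ : LA.BoundedFormula α (n + 1)} : Bl b N φ → Bl b N (qn b φ)

theorem Bl.up {b : Bool} {N n : ℕ} {φ : LA.BoundedFormula α n} (h : Bl b N φ) :
    Bl b (N + 1) φ := by
  induction h with
  | base h => exact Bl.base (Hier.up h)
  | q _ ih => exact Bl.q ih

theorem Bl.hier {b : Bool} {N n : ℕ} {φ : LA.BoundedFormula α n} (h : Bl b N φ) :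
    Hier b (N + 1) φ := by
  induction h with
  | base h => exact Hier.up h
  | q _ ih => exact Hier.q ih

theorem hier_zero {b : Bool} {m n : ℕ} {φ : LA.BoundedFormula α n} (h : Hier b m φ) (hm : m = 0) :
    D0 φ := by
  cases h with
  | d0 h => exact h
  | up h => omega
  | ex h => omega
  | all h => omega

theorem bl_of (N : ℕ) : ∀ {b : Bool} {n : ℕ} {φ : LA.BoundedFormula α n}, Hier b (N + 1) φ →
    Bl b N φ := by
  induction N with
  | zero =>
    intro b n φ h
    generalize hm : 0 + 1 = m at h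
    induction h with
    | d0 h => exact Bl.base (Hier.d0 h)
    | @up b b' m n φ h _ =>
      have : m = 0 := by omega
      exact Bl.base (Hier.d0 (hier_zero h this))
    | ex _ ih => exact Bl.q (b := true) (ih hm)
    | all _ ih => exact Bl.q (b := false) (ih hm)
  | succ N ihN =>
    intro b n φ h
    generalize hm : N + 1 + 1 = m at h
    induction h with
    | d0 h => exact Bl.base (Hier.d0 h)
    | @up b b' m n φ h _ =>
      have : m = N + 1 := by omega
      subst this
      by_cases hb : b = b'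
      · subst hb
        exact (ihN h).up
      · have : b = !b' := by
          cases b <;> cases b' <;> simp_all
        subst this
        exact Bl.base h
    | ex _ ih => exact Bl.q (b := true) (ih hm)
    | all _ ih => exact Bl.q (b := false) (ih hm)

/-- equivalence in the structure `M` -/
def Eqv (M : Type) [LA.Structure M] {n : ℕ} (φ ψ : LA.BoundedFormula α n) : Prop :=
  ∀ (v : α → M) (xs : Fin n → M), φ.Realize v xs ↔ ψ.Realize v xs

variable (M : Type) [LA.Structure M]

theorem bl_and (N : ℕ) (b : Bool) (hN : ∀ {n : ℕ} {φ ψ : LA.BoundedFormula α n}, Hier (!b) N φ →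
    Hier (!b) N ψ → ∃ χ : LA.BoundedFormula α n, Hier (!b) N χ ∧ Eqv M χ (φ ⊓ ψ)) [Nonempty M]
    {n : ℕ} {φ : LA.BoundedFormula α n} (h1 : Bl b N φ) :
    ∀ {ψ : LA.BoundedFormula α n}, Bl b N ψ →
      ∃ χ : LA.BoundedFormula α n, Hier b (N + 1) χ ∧ Eqv M χ (φ ⊓ ψ) := by
  induction h1 with
  | @base n φ h1 =>
    intro ψ h2
    induction h2 with
    | base h2 =>
      obtain ⟨χ, h3, h4⟩ := hN h1 h2
      exact ⟨χ, Hier.up h3, h4⟩
    | @q n ψ _ ih =>
      obtain ⟨χ, h3, h4⟩ := ih (φ := lft φ) (Hier_ren h1 _ : Hier (!b) N (lft φ))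
      refine ⟨qn b χ, Hier.q h3, fun v xs => ?_⟩
      have h5 : ∀ y, χ.Realize v (Fin.snoc xs y) ↔ φ.Realize v xs ∧ ψ.Realize v (Fin.snoc xs y) := by
        intro y
        rw [h4, BoundedFormula.realize_inf, realize_lft]
      cases b with
      | true =>
        show χ.ex.Realize v xs ↔ (φ ⊓ ψ.ex).Realize v xs
        rw [BoundedFormula.realize_inf, BoundedFormula.realize_ex, BoundedFormula.realize_ex]
        simp only [h5]
        exact exists_and_left
      | false =>
        show χ.all.Realize v xs ↔ (φ ⊓ ψ.all).Realize v xs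
        rw [BoundedFormula.realize_inf, BoundedFormula.realize_all, BoundedFormula.realize_all]
        simp only [h5]
        exact forall_and_left _ _
  | @q n φ h1 ih =>
    intro ψ h2
    have h2' : Bl b N (lft ψ) := by
      have h6 : ∀ {n : ℕ} {ψ : LA.BoundedFormula α n}, Bl b N ψ → ∀ {n' : ℕ}
          (ρ : α ⊕ Fin n → α ⊕ Fin n'), Bl b N (ren ψ ρ) := by
        intro n ψ h
        induction h with
        | base h => intro n' ρ; exact Bl.base (Hier_ren h ρ)
        | q _ ih =>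
          intro n' ρ
          cases b with
          | true => exact Bl.q (b := true) (ih (upr ρ))
          | false => exact Bl.q (b := false) (ih (upr ρ))
      exact h6 h2 _
    obtain ⟨χ, h3, h4⟩ := ih h2'
    refine ⟨qn b χ, Hier.q h3, fun v xs => ?_⟩
    have h5 : ∀ y, χ.Realize v (Fin.snoc xs y) ↔ φ.Realize v (Fin.snoc xs y) ∧ ψ.Realize v xs := by
      intro y
      rw [h4, BoundedFormula.realize_inf, realize_lft]
    cases b with
    | true =>
      show χ.ex.Realize v xs ↔ (φ.ex ⊓ ψ).Realize v xs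
      rw [BoundedFormula.realize_inf, BoundedFormula.realize_ex, BoundedFormula.realize_ex]
      simp only [h5]
      exact exists_and_right
    | false =>
      show χ.all.Realize v xs ↔ (φ.all ⊓ ψ).Realize v xs
      rw [BoundedFormula.realize_inf, BoundedFormula.realize_all, BoundedFormula.realize_all]
      simp only [h5]
      exact forall_and_right _ _

theorem and_bd [Nonempty M] (N : ℕ) : ∀ (b : Bool) {n : ℕ} {φ ψ : LA.BoundedFormula α n},
    Hier b N φ → Hier b N ψ → ∃ χ : LA.BoundedFormula α n, Hier b N χ ∧ Eqv M χ (φ ⊓ ψ) := by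
  induction N with
  | zero =>
    intro b n φ ψ h1 h2
    exact ⟨φ ⊓ ψ, Hier.d0 (D0.imp (D0.imp (hier_zero h1 rfl) (D0.imp (hier_zero h2 rfl) D0.falsum))
      D0.falsum), fun v xs => Iff.rfl⟩
  | succ N ih =>
    intro b n φ ψ h1 h2
    exact bl_and M N b (fun h3 h4 => ih (!b) h3 h4) (bl_of N h1) (bl_of N h2)

theorem not_bd {b : Bool} {N n : ℕ} {φ : LA.BoundedFormula α n} (h : Hier b N φ) :
    ∃ χ : LA.BoundedFormula α n, Hier (!b) N χ ∧ Eqv M χ (∼φ) := by
  induction h with
  | d0 h => exact ⟨_, Hier.d0 (D0.imp h D0.falsum), fun v xs => Iff.rfl⟩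
  | up _ ih =>
    obtain ⟨χ, h1, h2⟩ := ih
    exact ⟨χ, Hier.up h1, h2⟩
  | ex _ ih =>
    obtain ⟨χ, h1, h2⟩ := ih
    refine ⟨χ.all, Hier.all h1, fun v xs => ?_⟩
    rw [BoundedFormula.realize_all, BoundedFormula.realize_not, BoundedFormula.realize_ex,
      not_exists]
    exact forall_congr' fun y => (h2 v _).trans BoundedFormula.realize_not
  | all _ ih =>
    obtain ⟨χ, h1, h2⟩ := ih
    refine ⟨χ.ex, Hier.ex h1, fun v xs => ?_⟩
    rw [BoundedFormula.realize_ex, BoundedFormula.realize_not, BoundedFormula.realize_all,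
      not_forall]
    exact exists_congr fun y => (h2 v _).trans BoundedFormula.realize_not

theorem up_le {b b' : Bool} {N N' n : ℕ} {φ : LA.BoundedFormula α n} (h : Hier b N φ)
    (hN : N < N') : Hier b' N' φ := by
  induction N', hN using Nat.le_induction generalizing b' with
  | base => exact Hier.up h
  | succ N' _ ih => exact Hier.up (ih (b' := b'))

theorem any_bd [Nonempty M] {n : ℕ} (φ : LA.BoundedFormula α n) : ∃ K, ∀ N ≥ K, ∀ b,
    ∃ χ : LA.BoundedFormula α n, Hier b N χ ∧ Eqv M χ φ := by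
  induction φ with
  | falsum => exact ⟨0, fun N _ b => ⟨_, Hier.d0 D0.falsum, fun v xs => Iff.rfl⟩⟩
  | equal t s => exact ⟨0, fun N _ b => ⟨_, Hier.d0 (D0.equal t s), fun v xs => Iff.rfl⟩⟩
  | rel R ts =>
    cases R with
    | lt =>
      refine ⟨0, fun N _ b => ⟨_, Hier.d0 (D0.lt (ts 0) (ts 1)), fun v xs => ?_⟩⟩
      have h1 : ts = ![ts 0, ts 1] := by
        funext i
        fin_cases i <;> rfl
      show _ ↔ (BoundedFormula.rel AR.lt ts).Realize v xs
      rw [h1]
      rfl
  | imp φ ψ ih1 ih2 =>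
    obtain ⟨K1, ih1⟩ := ih1
    obtain ⟨K2, ih2⟩ := ih2
    refine ⟨max K1 K2, fun N hN b => ?_⟩
    obtain ⟨φ', h1, h1'⟩ := ih1 N (le_trans (le_max_left _ _) hN) (!b)
    obtain ⟨ψ', h2, h2'⟩ := ih2 N (le_trans (le_max_right _ _) hN) b
    obtain ⟨ψ2, h3, h3'⟩ := not_bd M h2
    obtain ⟨χ, h4, h4'⟩ := and_bd M N (!b) h1 h3
    obtain ⟨χ', h5, h5'⟩ := not_bd M h4
    rw [Bool.not_not] at h5
    refine ⟨χ', h5, fun v xs => ?_⟩
    rw [h5', BoundedFormula.realize_not, h4', BoundedFormula.realize_inf, h1', h3',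
      BoundedFormula.realize_not, h2', BoundedFormula.realize_imp]
    tauto
  | all φ ih =>
    obtain ⟨K, ih⟩ := ih
    refine ⟨K + 2, fun N hN b => ?_⟩
    obtain ⟨χ, h1, h2⟩ := ih (K + 1) (by omega) false
    refine ⟨χ.all, up_le (Hier.all h1) (by omega), fun v xs => ?_⟩
    rw [BoundedFormula.realize_all, BoundedFormula.realize_all]
    exact forall_congr' fun y => h2 v _

end blocks

/-- turn the free variable `v` into the bound variable -/
def bnd (v : ℕ) : ℕ ⊕ Fin 0 → ℕ ⊕ Fin 1 :=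
  Sum.elim (fun i => if i = v then Sum.inr 0 else Sum.inl i) (fun i => i.elim0)

theorem realize_bnd {M : Type} [LA.Structure M] (φ : LA.Formula ℕ) (v : ℕ) (x : ℕ → M)
    (xs : Fin 0 → M) (y : M) :
    (ren φ (bnd v)).Realize x (Fin.snoc xs y : Fin 1 → M) ↔ φ.Realize (Function.update x v y) := by
  rw [realize_ren]
  have h1 : (fun a => Sum.elim x (Fin.snoc xs y : Fin 1 → M) (bnd v (Sum.inl a))) =
      Function.update x v y := by
    funext a
    by_cases h : a = v
    · subst h
      simp [bnd, Fin.snoc]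
    · simp [bnd, h]
  rw [h1]
  unfold Formula.Realize
  exact iff_of_eq (congrArg _ (Subsingleton.elim _ _))

theorem task : S_HCAL := by
  intro M _ hM
  refine ⟨?_, ?_, ?_, ?_, ?_⟩
  · rintro N R S ⟨φ, h1, h2⟩ ⟨ψ, h3, h4⟩
    obtain ⟨χ, h5, h6⟩ := and_bd M N true h1 h3
    refine ⟨χ, h5, fun x => ?_⟩
    have h7 := h6 x default
    rw [BoundedFormula.realize_inf] at h7
    show _ ↔ R x ∧ S x
    rw [← h2 x, ← h4 x]
    exact h7
  · rintro b N R ⟨φ, h1, h2⟩
    obtain ⟨χ, h5, h6⟩ := not_bd M h1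
    refine ⟨χ, h5, fun x => ?_⟩
    have h7 := h6 x default
    rw [BoundedFormula.realize_not] at h7
    show _ ↔ ¬ R x
    rw [← h2 x]
    exact h7
  · rintro N R v ⟨φ, h1, h2⟩
    refine ⟨(ren φ (bnd v)).ex, Hier.ex (Hier_ren h1 _), fun x => ?_⟩
    unfold Formula.Realize
    rw [BoundedFormula.realize_ex]
    exact exists_congr fun y => (realize_bnd φ v x default y).trans (h2 _)
  · rintro R ⟨φ, h1⟩
    obtain ⟨K, hK⟩ := any_bd M φ
    refine ⟨K, fun N hN b => ?_⟩
    obtain ⟨χ, h2, h3⟩ := hK N hN b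
    exact ⟨χ, h2, fun x => (h3 x default).trans (h1 x)⟩
  · rintro b N R f ⟨φ, h1, h2⟩
    refine ⟨BoundedFormula.subst φ f, Sent.Hier_subst f h1, fun x => ?_⟩
    refine Iff.trans ?_ (h2 _)
    unfold Formula.Realize
    exact BoundedFormula.realize_subst

end Pool.Agent.W921.SF.HC
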