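import Pool.Agent.W921.SF.Main

/-!
Solovay families: the initial condition.
-/

set_option autoImplicit false

open FirstOrder FirstOrder.Language Pool.Agent.Helper227.EN

namespace Pool.Agent.W921.SF.Init

open Pool.Agent.Helper578.JD Pool.Agent.Helper578.JD.Oracle Pool.Agent.Helper578.JD.Defs
open Pool.Agent.H623R3.JC Pool.Agent.W921.SF

/-- the language elements in the standard model -/
theorem std_z : @Structure.funMap LA ℕ stdStr 0 AF.zero ![] = 0 := rfl
theorem std_o : @Structure.funMap LA ℕ stdStr 0 AF.one ![] = 1 := rfl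
theorem std_add (x y : ℕ) : @Structure.funMap LA ℕ stdStr 2 AF.add ![x, y] = x + y := rfl
theorem std_mul (x y : ℕ) : @Structure.funMap LA ℕ stdStr 2 AF.mul ![x, y] = x * y := rfl
theorem std_lt (x y : ℕ) : @Structure.RelMap LA ℕ stdStr 2 AR.lt ![x, y] ↔ x < y := Iff.rfl

theorem std_minus : @FirstOrder.Language.Theory.Model LA ℕ stdStr PAminus := by
  let _ := stdStr
  simp only [PAminus, axAddAssoc, axAddComm, axMulAssoc, axMulComm, axDistrib, axAddZero, axMulZero, axMulOne, axLtTrans, axLtIrrefl, axLtTotal, axAddLt, axMulLt, axDiff, axZeroLtOne, axDiscrete, axNonneg, Theory.model_iff, Set.mem_insert_iff, Set.mem_singleton_iff,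
    forall_eq_or_imp, forall_eq, Sentence.Realize, Formula.Realize, BoundedFormula.realize_all,
    BoundedFormula.realize_bdEqual, BoundedFormula.realize_imp, BoundedFormula.realize_not,
    BoundedFormula.realize_sup, BoundedFormula.realize_ex, ea_t0, ea_t1, ea_tadd, ea_tmul, ea_flt,
    Term.realize_var, Sum.elim_inr, std_z, std_o, std_add, std_mul, std_lt]
  refine ⟨?_, ?_, ?_, ?_, ?_, ?_, ?_, ?_, ?_, ?_, ?_, ?_, ?_, ?_, ?_, ?_, ?_⟩
  · intro x y w; exact add_assoc x y w
  · intro x y; exact add_comm x y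
  · intro x y w; exact mul_assoc x y w
  · intro x y; exact mul_comm x y
  · intro x y w; exact mul_add x y w
  · intro x; exact add_zero x
  · intro x; exact mul_zero x
  · intro x; exact mul_one x
  · intro x y w h1 h2; exact lt_trans h1 h2
  · intro x; exact lt_irrefl x
  · intro x y; exact lt_trichotomy x y
  · intro x y w h; exact Nat.add_lt_add_right h w
  · intro x y w h1 h2; exact Nat.mul_lt_mul_of_pos_right h2 h1
  · intro x y h; exact ⟨y - x, Nat.add_sub_cancel' (le_of_lt h)⟩
  · exact Nat.zero_lt_one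
  · intro x h; rcases Nat.lt_or_ge 1 x with h1 | h1
    · exact Or.inl h1
    · exact Or.inr (by
        have h2 : 0 < x := h
        show (1 : ℕ) = x
        omega)
  · intro x; rcases Nat.eq_zero_or_pos x with h1 | h1
    · exact Or.inr h1.symm
    · exact Or.inl h1

theorem std_pa : @FirstOrder.Language.Theory.Model LA ℕ stdStr PA := by
  let _ := stdStr
  rw [Theory.model_iff]
  rintro φ (h | ⟨n, φ, rfl⟩)
  · exact std_minus.realize_of_mem φ h
  · rw [realize_indAx φ 0 1 rfl rfl]
    intro y h0 h1 x
    induction x with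
    | zero => exact h0
    | succ x ih => exact h1 x ih

theorem of_cpt (hC : S_CPT) : S_INIT := by
  obtain ⟨M, str, x, hpa, hsat, hx⟩ := hC Main.big (fun s => by
    refine ⟨ℕ, stdStr, fun _ => s, std_pa, fun j hj => ?_⟩
    let _ := stdStr
    rw [Main.big_realize, Main.nv_std]
    exact hj)
  refine ⟨⟨M, str, x, 1, 1⟩, ⟨hpa, hsat, ?_, le_rfl, le_rfl⟩, fun j => ?_⟩
  · intro i hi j hj _
    have h1 : i < 1 := hi
    have h2 : j < 1 := hj
    omega
  · exact (Main.big_realize x j).1 (hx j)

end Pool.Agent.W921.SF.Init
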