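import Pool.Agent.W921.SF.GC

/-!
Solovay families: the jumps of the limit structure.
-/

set_option autoImplicit false

open FirstOrder FirstOrder.Language Pool.Agent.Helper227.EN

namespace Pool.Agent.W921.SF.LimB

open Pool.Agent.Helper578.JD Pool.Agent.Helper578.JD.Oracle Pool.Agent.Helper578.JD.Defs
open Pool.Agent.H623R3.JC Pool.Agent.W921.SF

variable {q : ℕ → Cnd}

theorem ext_le (hq : GenSeq q) {j i : ℕ} (h : j ≤ i) :
    (q j).k ≤ (q i).k ∧ (q j).n ≤ (q i).n ∧ G (q j).n (q j).k (q j).x (q i).x := by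
  obtain ⟨d, rfl⟩ := Nat.exists_eq_add_of_le h
  clear h
  induction d with
  | zero => exact ⟨le_rfl, le_rfl, GC.G_refl _ _ _⟩
  | succ d ih =>
    obtain ⟨h1, h2, h3⟩ := ih
    have h4 := hq.ext (j + d)
    refine ⟨le_trans h1 h4.k, le_trans h2 h4.n, ?_⟩
    exact GC.G_trans _ _ _ _ _ h3 (GC.G_mono _ _ _ _ _ _ h2 h1 h4.g)

theorem fc_up (hq : GenSeq q) {j i m : ℕ} (h : j ≤ i) (hm : m ≤ (q j).n) (e : ℕ) (b : Bool)
    (hF : Fc m (q j).x (q j).k e b) : Fc m (q i).x (q i).k e b := by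
  obtain ⟨h1, h2, h3⟩ := ext_le hq h
  have h4 := GC.Fc_inv m (q j).M (q i).M (hq.good j).pa (hq.good i).pa (q j).k (q j).x (q i).x
    (GC.G_mono _ _ _ _ _ _ hm le_rfl h3) e b hF
  exact GC.Fc_mono m (q j).k (q i).k (q i).x (q i).x (fun _ _ => rfl) h1 e b h4

theorem exists_big (hq : GenSeq q) (a b j0 : ℕ) : ∃ j ≥ j0, a ≤ (q j).k ∧ b ≤ (q j).n := by
  obtain ⟨j1, h1⟩ := hq.kk a
  obtain ⟨j2, h2⟩ := hq.nn b
  refine ⟨max j0 (max j1 j2), le_max_left _ _, ?_, ?_⟩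
  · exact le_trans h1 (ext_le hq (le_trans (le_max_left _ _) (le_max_right _ _))).1
  · exact le_trans h2 (ext_le hq (le_trans (le_max_right _ _) (le_max_right _ _))).2.1

/-- finitely many facts are forced at a common stage -/
theorem common (hq : GenSeq q) (m : ℕ) (b : Bool) (l : List ℕ)
    (h : ∀ a ∈ l, ∃ j, m ≤ (q j).n ∧ Fc m (q j).x (q j).k a b) :
    ∃ j0, ∀ j ≥ j0, ∀ a ∈ l, Fc m (q j).x (q j).k a b := by
  induction l with
  | nil => exact ⟨0, fun j _ a ha => absurd ha List.not_mem_nil⟩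
  | cons a l ih =>
    obtain ⟨j1, h1⟩ := ih fun a' ha' => h a' (List.mem_cons_of_mem _ ha')
    obtain ⟨j2, h2, h3⟩ := h a List.mem_cons_self
    refine ⟨max j1 j2, fun j hj a' ha' => ?_⟩
    rcases List.mem_cons.1 ha' with rfl | ha'
    · exact fc_up hq (le_trans (le_max_right _ _) hj) h2 _ _ h3
    · exact h1 j (le_trans (le_max_left _ _) hj) a' ha'

theorem truth (hq : GenSeq q) (A : LA.Structure ℕ)
    (hA : ∀ p, p ∈ DS A ↔ ∃ j, p < (q j).k ∧ Dg (q j).x p = true) (m : ℕ) :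
    ∀ e, (e ∈ jump^[m] (DS A) ↔ ∃ j, m ≤ (q j).n ∧ Fc m (q j).x (q j).k e true) ∧
      (e ∉ jump^[m] (DS A) ↔ ∃ j, m ≤ (q j).n ∧ Fc m (q j).x (q j).k e false) := by
  induction m with
  | zero =>
    intro e
    have hp : e ∈ DS A ↔ ∃ j, 0 ≤ (q j).n ∧ Fc 0 (q j).x (q j).k e true := by
      rw [hA]
      exact exists_congr fun j => ⟨fun h => ⟨Nat.zero_le _, h⟩, fun h => h.2⟩
    refine ⟨hp, ?_⟩
    constructor
    · intro hne
      obtain ⟨j, -, hj, -⟩ := exists_big hq (e + 1) 0 0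
      refine ⟨j, Nat.zero_le _, hj, ?_⟩
      by_contra hcon
      exact hne (hp.2 ⟨j, Nat.zero_le _, hj, by simpa using hcon⟩)
    · rintro ⟨j, -, hF⟩ hmem
      obtain ⟨i, -, hF'⟩ := hp.1 hmem
      have h1 := fc_up hq (le_max_left j i) (Nat.zero_le _) e false hF
      have h2 := fc_up hq (le_max_right j i) (Nat.zero_le _) e true hF'
      exact GC.fcal.con _ 0 _ _ (hq.good (max j i)).inj e ⟨h2, h1⟩
  | succ m ih =>
    intro e
    have hp : e ∈ jump^[m + 1] (DS A) ↔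
        ∃ j, m + 1 ≤ (q j).n ∧ Fc (m + 1) (q j).x (q j).k e true := by
      rw [Function.iterate_succ_apply']
      constructor
      · rintro ⟨c, hc, hW⟩
        obtain ⟨j1, h1⟩ := common hq m true c.1 fun a ha => (ih a).1.1 (hc.1 a ha)
        obtain ⟨j2, h2⟩ := common hq m false c.2 fun a ha => (ih a).2.1 (hc.2 a ha)
        obtain ⟨j, hj, -, hn⟩ := exists_big hq 0 (m + 1) (max j1 j2)
        exact ⟨j, hn, c, hW, h1 j (le_trans (le_max_left _ _) hj),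
          h2 j (le_trans (le_max_right _ _) hj)⟩
      · rintro ⟨j, hn, c, hW, h1, h2⟩
        refine ⟨c, ⟨fun a ha => ?_, fun a ha => ?_⟩, hW⟩
        · exact (ih a).1.2 ⟨j, by omega, h1 a ha⟩
        · exact (ih a).2.2 ⟨j, by omega, h2 a ha⟩
    refine ⟨hp, ?_⟩
    constructor
    · intro hne
      obtain ⟨j, hn, h | h⟩ := hq.dec (m + 1) e
      · exact absurd (hp.2 ⟨j, hn, h⟩) hne
      · exact ⟨j, hn, h⟩
    · rintro ⟨j, hn, hF⟩ hmem
      obtain ⟨i, hi, hF'⟩ := hp.1 hmem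
      have h1 := fc_up hq (le_max_left j i) hn e false hF
      have h2 := fc_up hq (le_max_right j i) hi e true hF'
      exact GC.fcal.con _ (m + 1) _ _ (hq.good (max j i)).inj e ⟨h2, h1⟩

theorem task : S_LIMB := by
  intro q hq A hA j
  refine ⟨fun m hm e hF => ((truth hq A hA m e).1).2 ⟨j, hm, hF⟩,
    fun m hm e hF => ((truth hq A hA m e).2).2 ⟨j, hm, hF⟩, fun m hm e he => ?_⟩
  obtain ⟨i0, hi0, hF0⟩ := ((truth hq A hA m e).1).1 he
  have hF := fc_up hq (le_max_left i0 j) hi0 e true hF0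
  obtain ⟨h1, h2, h3⟩ := ext_le hq (le_max_right i0 j)
  set i := max i0 j with hi
  obtain ⟨n', hn'⟩ : ∃ n', (q j).n = n' + 1 := ⟨(q j).n - 1, by have := (hq.good j).n1; omega⟩
  rw [hn'] at h3 hm
  obtain ⟨y, hy, hG⟩ := h3.2 (q i).x (fun _ _ => rfl) (q i).k h1
  refine ⟨y, hy, (q i).k, h1, ?_, ?_⟩
  · exact GC.gcal.inj _ _ (hq.good i).pa (hq.good j).pa n' _ _ _ (GC.G_symm _ _ _ _ hG)
      (hq.good i).inj
  · cases m with
    | zero =>
      exact (GC.fcal.inv _ _ (hq.good j).pa (hq.good i).pa 0 _ y (q i).x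
        (GC.G_mono _ _ _ _ _ _ (Nat.zero_le _) le_rfl hG) e true).2 hF
    | succ m =>
      exact (GC.fcal.inv1 _ _ (hq.good j).pa (hq.good i).pa m _ y (q i).x
        (GC.G_mono _ _ _ _ _ _ (by omega) le_rfl hG) e).2 hF

end Pool.Agent.W921.SF.LimB
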