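import Pool.Agent.W921.SF.Stm
import Pool.Agent.W930.SFD.Inv
import Pool.Agent.W930.SFD.Dens

/-!
The limit structure of a generic sequence of conditions: truth.
-/

set_option autoImplicit false

open FirstOrder FirstOrder.Language Pool.Agent.Helper227.EN

namespace Pool.Agent.W921.SF.LimT

open Pool.Agent.W921.SF Pool.Agent.W930.SFD
open Filter

section seq
variable {q : ℕ → Cnd}

theorem gseq (h1 : GCal) (hq : GenSeq q) {j i : ℕ} (hji : j ≤ i) :
    (q j).k ≤ (q i).k ∧ (q j).n ≤ (q i).n ∧ G (q j).n (q j).k (q j).x (q i).x := by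
  induction i, hji using Nat.le_induction with
  | base => exact ⟨le_rfl, le_rfl, h1.refl _ _ _ _⟩
  | succ i hi ih =>
    obtain ⟨a, b, c⟩ := ih
    have e := hq.ext i
    refine ⟨a.trans e.k, b.trans e.n, ?_⟩
    exact h1.trans _ _ _ _ _ _ _ _ c (h1.mono _ _ _ _ _ _ _ _ b a e.g)

theorem pers (h1 : GCal) (hq : GenSeq q) {α : Type} (ρ : α → ℕ) {n : ℕ}
    (ψ : LA.BoundedFormula α n) (τ : Fin n → ℕ) {j i : ℕ} (hr : rk ψ ≤ (q j).n)
    (hρ : ∀ a, ρ a < (q j).k) (hτ : ∀ a, τ a < (q j).k) (hji : j ≤ i) :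
    ψ.Realize (fun a => (q j).x (ρ a)) (fun a => (q j).x (τ a)) ↔
      ψ.Realize (fun a => (q i).x (ρ a)) fun a => (q i).x (τ a) :=
  inv_bf h1 ρ ψ (q j).n (q j).k τ hr hρ hτ _ _ (hq.good j).pa (hq.good i).pa _ _
    (gseq h1 hq hji).2.2

theorem ev_k (h1 : GCal) (hq : GenSeq q) (a : ℕ) : ∀ᶠ j in atTop, a ≤ (q j).k := by
  obtain ⟨j, hj⟩ := hq.kk a
  filter_upwards [eventually_ge_atTop j] with i hi
  exact hj.trans (gseq h1 hq hi).1

theorem ev_n (h1 : GCal) (hq : GenSeq q) (a : ℕ) : ∀ᶠ j in atTop, a ≤ (q j).n := by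
  obtain ⟨j, hj⟩ := hq.nn a
  filter_upwards [eventually_ge_atTop j] with i hi
  exact hj.trans (gseq h1 hq hi).2.1

/-- the truth value of a formula is eventually constant -/
theorem dec (h1 : GCal) (hq : GenSeq q) {α : Type} (ρ : α → ℕ) (hρ : ∃ B, ∀ a, ρ a < B) {n : ℕ}
    (ψ : LA.BoundedFormula α n) (τ : Fin n → ℕ) :
    (∀ᶠ j in atTop, ψ.Realize (fun a => (q j).x (ρ a)) (fun a => (q j).x (τ a))) ∨
      ∀ᶠ j in atTop, ¬ ψ.Realize (fun a => (q j).x (ρ a)) fun a => (q j).x (τ a) := by
  obtain ⟨B, hB⟩ := hρ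
  obtain ⟨C, hC⟩ : ∃ C, ∀ i, τ i < C :=
    ⟨Finset.univ.sup τ + 1, fun i => Nat.lt_succ_of_le (Finset.le_sup (Finset.mem_univ i))⟩
  obtain ⟨j, h2, h3, h4⟩ :=
    ((ev_k h1 hq B).and ((ev_k h1 hq C).and (ev_n h1 hq (rk ψ)))).exists
  have h5 : ∀ i ≥ j, _ := fun i hi => pers h1 hq ρ ψ τ h4 (fun a => (hB a).trans_le h2)
    (fun a => (hC a).trans_le h3) hi
  by_cases h6 : ψ.Realize (fun a => (q j).x (ρ a)) fun a => (q j).x (τ a)
  · left
    filter_upwards [eventually_ge_atTop j] with i hi
    exact (h5 i hi).1 h6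
  · right
    filter_upwards [eventually_ge_atTop j] with i hi
    exact fun h => h6 ((h5 i hi).2 h)

/-- persistence for the first element -/
theorem cs_pers (h1 : GCal) (hq : GenSeq q) (h2 : S_INV) (φ : LA.Formula ℕ) {j i u : ℕ}
    (hr : rk φ ≤ (q j).n) (hf : ∀ l ∈ φ.freeVarFinset, l ≤ (q j).k) (hu : u < (q j).k)
    (hji : j ≤ i) : φ.Realize (cs ((q j).x u) (q j).x) ↔ φ.Realize (cs ((q i).x u) (q i).x) := by
  have h3 := h1.ren _ _ _ _ ((q j).k + 1) _ _ (fun l => Nat.casesOn l u fun l => l) (by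
    intro l hl
    cases l with
    | zero => exact hu
    | succ l => exact Nat.lt_of_succ_lt_succ hl) (gseq h1 hq hji).2.2
  have h4 := h2 φ (q j).n ((q j).k + 1) hr (fun l hl => Nat.lt_succ_of_le (hf l hl)) _ _
    (hq.good j).pa (hq.good i).pa _ _ h3
  have e : ∀ {M : Type} (x : ℕ → M),
      (fun l => x ((fun l => Nat.casesOn l u fun l => l : ℕ → ℕ) l)) = cs (x u) x := by
    intro M x
    funext l
    cases l <;> rfl
  rw [e, e] at h4
  exact h4

theorem cs_ex (h1 : GCal) (hq : GenSeq q) (h2 : S_INV) (φ : LA.Formula ℕ) {j i : ℕ}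
    (hr : rk φ + 1 ≤ (q j).n) (hf : ∀ l ∈ φ.freeVarFinset, l ≤ (q j).k)
    (hji : j ≤ i) (h : ∃ y, φ.Realize (cs y (q i).x)) : ∃ y, φ.Realize (cs y (q j).x) := by
  obtain ⟨y, hy⟩ := h
  have h3 : G (rk φ + 1) (q j).k (q j).x (q i).x :=
    h1.mono _ _ _ _ _ _ _ _ hr le_rfl (gseq h1 hq hji).2.2
  have hup : ∀ l < (q j).k, Function.update (q i).x (q j).k y l = (q i).x l := fun l hl =>
    Function.update_of_ne (ne_of_lt hl) _ _
  obtain ⟨z, hz, hg⟩ := h3.2 (Function.update (q i).x (q j).k y) hup ((q j).k + 1) (Nat.le_succ _)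
  have h4 := h1.ren _ _ _ _ ((q j).k + 1) _ _ (fun l => Nat.casesOn l (q j).k fun l => l) (by
    intro l hl
    cases l with
    | zero => exact Nat.lt_succ_self _
    | succ l => exact (Nat.lt_of_succ_lt_succ hl).trans (Nat.lt_succ_self _)) hg
  have h5 := h2 φ (rk φ) ((q j).k + 1) le_rfl (fun l hl => Nat.lt_succ_of_le (hf l hl)) _ _
    (hq.good j).pa (hq.good i).pa _ _ h4
  refine ⟨z (q j).k, ?_⟩
  have e1 : φ.Realize (cs (z (q j).k) (q j).x) ↔ φ.Realize (fun l => z ((fun l =>
      Nat.casesOn l (q j).k fun l => l : ℕ → ℕ) l)) := by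
    refine realize_congr φ _ _ fun l hl => ?_
    have := hf l hl
    cases l with
    | zero => rfl
    | succ l => exact (hz l (by omega)).symm
  have e2 : φ.Realize (cs y (q i).x) ↔ φ.Realize (fun l => Function.update (q i).x (q j).k y
      ((fun l => Nat.casesOn l (q j).k fun l => l : ℕ → ℕ) l)) := by
    refine realize_congr φ _ _ fun l hl => ?_
    have := hf l hl
    cases l with
    | zero =>
      show y = Function.update (q i).x (q j).k y (q j).k
      rw [Function.update_self]
    | succ l => exact (hup l (by omega)).symm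
  exact e1.2 (h5.2 (e2.1 hy))

/-- Henkin witnesses -/
theorem henkin (h1 : GCal) (hq : GenSeq q) (h2 : S_INV) (φ : LA.Formula ℕ)
    (h : ∀ᶠ j in atTop, ∃ y, φ.Realize (cs y (q j).x)) :
    ∃ u, ∀ᶠ j in atTop, φ.Realize (cs ((q j).x u) (q j).x) := by
  obtain ⟨j, hj1, hj2, hj3⟩ := hq.hen φ
  obtain ⟨i, hi, hi2⟩ := (h.and (eventually_ge_atTop j)).exists
  obtain ⟨u, hu, hu2⟩ := hj3 (cs_ex h1 hq h2 φ hj1 hj2 hi2 hi)
  refine ⟨u, ?_⟩
  filter_upwards [eventually_ge_atTop j] with l hl
  exact (cs_pers h1 hq h2 φ (by omega) hj2 hu hl).1 hu2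

/-- the entries are distinct -/
theorem ev_inj (h1 : GCal) (hq : GenSeq q) {u v : ℕ} (h : ∃ᶠ j in atTop, (q j).x u = (q j).x v) :
    u = v := by
  obtain ⟨j, hj, hj2⟩ := (h.and_eventually (ev_k h1 hq (max u v + 1))).exists
  exact (hq.good j).inj u (by omega) v (by omega) hj

end seq

open Classical in
/-- the limit structure -/
@[reducible] noncomputable def limStr (q : ℕ → Cnd) : LA.Structure ℕ where
  funMap := fun {_} f v => if h : ∃ u, ∀ᶠ j in atTop,
    Structure.funMap f (fun i => (q j).x (v i)) = (q j).x u then h.choose else 0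
  RelMap := fun {_} r v => ∀ᶠ j in atTop, Structure.RelMap r fun i => (q j).x (v i)

section lim
variable {q : ℕ → Cnd}

theorem fA (h1 : GCal) (hq : GenSeq q) (h2 : S_INV) {k : ℕ} (f : LA.Functions k) (v : Fin k → ℕ)
    (u : ℕ) : (limStr q).funMap f v = u ↔
      ∀ᶠ j in atTop, Structure.funMap f (fun i => (q j).x (v i)) = (q j).x u := by
  have hex : ∃ u, ∀ᶠ j in atTop, Structure.funMap f (fun i => (q j).x (v i)) = (q j).x u := by
    obtain ⟨u, hu⟩ := henkin h1 hq h2
      ((Term.func f fun i => Term.var (v i + 1)).equal (Term.var 0)) (Eventually.of_forall fun j =>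
        ⟨Structure.funMap f (fun i => (q j).x (v i)), by
          rw [Formula.realize_equal]; rfl⟩)
    refine ⟨u, hu.mono fun j hj => ?_⟩
    rw [Formula.realize_equal] at hj
    exact hj
  have hc := hex.choose_spec
  have e : (limStr q).funMap f v = hex.choose := dif_pos hex
  constructor
  · rintro rfl
    rw [e]
    exact hc
  · intro h
    rw [e]
    exact ev_inj h1 hq ((hc.and h).mono fun j hj => hj.1.symm.trans hj.2).frequently

theorem term_lim (h1 : GCal) (hq : GenSeq q) (h2 : S_INV) {α : Type} (ρ : α → ℕ) (t : LA.Term α) :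
    ∀ᶠ j in atTop, t.realize (fun a => (q j).x (ρ a)) =
      (q j).x (@Term.realize LA ℕ (limStr q) α ρ t) := by
  induction t with
  | var a => exact Eventually.of_forall fun j => rfl
  | @func k f ts ih =>
    have h3 : ∀ᶠ j in atTop, ∀ i, (ts i).realize (fun a => (q j).x (ρ a)) =
        (q j).x (@Term.realize LA ℕ (limStr q) α ρ (ts i)) := eventually_all.2 ih
    have h4 := (fA h1 hq h2 f (fun i => @Term.realize LA ℕ (limStr q) α ρ (ts i)) _).1 rfl
    filter_upwards [h3, h4] with j hj hj2
    rw [Term.realize]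
    have e : (fun i => (ts i).realize fun a => (q j).x (ρ a)) =
        fun i => (q j).x (@Term.realize LA ℕ (limStr q) α ρ (ts i)) := funext hj
    rw [e]
    exact hj2

/-- the truth lemma -/
theorem truth (h1 : GCal) (hq : GenSeq q) (h2 : S_INV) {α : Type} (ρ : α → ℕ)
    (hρ : ∃ B, ∀ a, ρ a < B) {n : ℕ} (ψ : LA.BoundedFormula α n) : ∀ τ : Fin n → ℕ,
    (@BoundedFormula.Realize LA ℕ (limStr q) α n ψ ρ τ ↔
      ∀ᶠ j in atTop, ψ.Realize (fun a => (q j).x (ρ a)) fun a => (q j).x (τ a)) := by
  have hel : ∀ (n : ℕ) (τ : Fin n → ℕ) (j : ℕ),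
      (Sum.elim (fun a => (q j).x (ρ a)) fun i : Fin n => (q j).x (τ i)) =
      fun a => (q j).x (Sum.elim ρ τ a) := by
    intro n τ j
    funext a
    cases a <;> rfl
  induction ψ with
  | falsum =>
    intro τ
    show False ↔ ∀ᶠ j in atTop, False
    rw [eventually_const]
  | @equal n t t' =>
    intro τ
    have ht := term_lim h1 hq h2 (Sum.elim ρ τ) t
    have ht' := term_lim h1 hq h2 (Sum.elim ρ τ) t'
    have e : ∀ j, (BoundedFormula.equal t t').Realize (fun a => (q j).x (ρ a))
        (fun a => (q j).x (τ a)) ↔ t.realize (fun a => (q j).x (Sum.elim ρ τ a)) =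
          t'.realize (fun a => (q j).x (Sum.elim ρ τ a)) := by
      intro j
      rw [BoundedFormula.Realize, hel]
    simp only [e]
    show @Term.realize LA ℕ (limStr q) _ (Sum.elim ρ τ) t =
      @Term.realize LA ℕ (limStr q) _ (Sum.elim ρ τ) t' ↔ _
    constructor
    · intro h
      filter_upwards [ht, ht'] with j hj hj'
      rw [hj, hj', h]
    · intro h
      exact ev_inj h1 hq ((ht.and (ht'.and h)).mono fun j hj =>
        hj.1.symm.trans (hj.2.2.trans hj.2.1)).frequently
  | @rel n l R ts =>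
    intro τ
    have ht : ∀ᶠ j in atTop, ∀ i, (ts i).realize (fun a => (q j).x (Sum.elim ρ τ a)) =
        (q j).x (@Term.realize LA ℕ (limStr q) _ (Sum.elim ρ τ) (ts i)) :=
      eventually_all.2 fun i => term_lim h1 hq h2 (Sum.elim ρ τ) (ts i)
    have e : ∀ j, (BoundedFormula.rel R ts).Realize (fun a => (q j).x (ρ a))
        (fun a => (q j).x (τ a)) ↔ Structure.RelMap R
          (fun i => (ts i).realize (fun a => (q j).x (Sum.elim ρ τ a))) := by
      intro j
      rw [BoundedFormula.Realize, hel]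
    simp only [e]
    show (∀ᶠ j in atTop, Structure.RelMap R
      fun i => (q j).x (@Term.realize LA ℕ (limStr q) _ (Sum.elim ρ τ) (ts i))) ↔ _
    refine eventually_congr (ht.mono fun j hj => ?_)
    have e2 : (fun i => (ts i).realize (fun a => (q j).x (Sum.elim ρ τ a))) =
        fun i => (q j).x (@Term.realize LA ℕ (limStr q) _ (Sum.elim ρ τ) (ts i)) := funext hj
    rw [e2]
  | @imp n φ ψ ihφ ihψ =>
    intro τ
    show (@BoundedFormula.Realize LA ℕ (limStr q) α n φ ρ τ →
      @BoundedFormula.Realize LA ℕ (limStr q) α n ψ ρ τ) ↔ _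
    rw [ihφ τ, ihψ τ]
    simp only [BoundedFormula.realize_imp]
    constructor
    · intro h
      rcases dec h1 hq ρ hρ φ τ with h3 | h3
      · exact (h h3).mono fun j hj _ => hj
      · exact h3.mono fun j hj h => absurd h hj
    · intro h h3
      filter_upwards [h, h3] with j hj hj'
      exact hj hj'
  | @all n φ ih =>
    intro τ
    show (∀ y : ℕ, @BoundedFormula.Realize LA ℕ (limStr q) α (n + 1) φ ρ (Fin.snoc τ y)) ↔ _
    simp only [ih, BoundedFormula.realize_all]
    have hsn : ∀ (y j : ℕ), (fun a => (q j).x ((Fin.snoc τ y : Fin (n + 1) → ℕ) a)) =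
        (Fin.snoc (fun a => (q j).x (τ a)) ((q j).x y) : Fin (n + 1) → (q j).M) := by
      intro y j
      funext i
      refine Fin.lastCases ?_ (fun l => ?_) i
      · rw [Fin.snoc_last, Fin.snoc_last]
      · rw [Fin.snoc_castSucc, Fin.snoc_castSucc]
    simp only [hsn]
    constructor
    · intro h
      rcases dec h1 hq ρ hρ φ.all τ with h3 | h3
      · simpa only [BoundedFormula.realize_all] using h3
      · exfalso
        let φ' : LA.Formula ℕ := (φ.not.toFormula).relabel
          (Sum.elim (fun a => ρ a + 1) (Fin.snoc (fun i => τ i + 1) 0 : Fin (n + 1) → ℕ))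
        have hφ' : ∀ (j : ℕ) (y : (q j).M), φ'.Realize (cs y (q j).x) ↔
            ¬ φ.Realize (fun a => (q j).x (ρ a)) (Fin.snoc (fun a => (q j).x (τ a)) y) := by
          intro j y
          show ((φ.not.toFormula).relabel _ : LA.Formula ℕ).Realize (cs y (q j).x) ↔ _
          rw [Formula.realize_relabel, BoundedFormula.realize_toFormula,
            BoundedFormula.realize_not]
          have e1 : (cs y (q j).x ∘ Sum.elim (fun a => ρ a + 1)
              (Fin.snoc (fun i => τ i + 1) 0 : Fin (n + 1) → ℕ)) ∘ Sum.inl =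
              fun a => (q j).x (ρ a) := by
            funext a
            rfl
          have e2 : (cs y (q j).x ∘ Sum.elim (fun a => ρ a + 1)
              (Fin.snoc (fun i => τ i + 1) 0 : Fin (n + 1) → ℕ)) ∘ Sum.inr =
              (Fin.snoc (fun a => (q j).x (τ a)) y : Fin (n + 1) → (q j).M) := by
            funext i
            refine Fin.lastCases ?_ (fun l => ?_) i
            · rw [Fin.snoc_last]
              show cs y (q j).x ((Fin.snoc (fun i => τ i + 1) 0 : Fin (n + 1) → ℕ) (Fin.last n)) = y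
              rw [Fin.snoc_last]
              rfl
            · rw [Fin.snoc_castSucc]
              show cs y (q j).x ((Fin.snoc (fun i => τ i + 1) 0 : Fin (n + 1) → ℕ)
                (Fin.castSucc l)) = _
              rw [Fin.snoc_castSucc]
              rfl
          rw [e1, e2]
        obtain ⟨u, hu⟩ := henkin h1 hq h2 φ' (h3.mono fun j hj => by
          rw [BoundedFormula.realize_all, not_forall] at hj
          obtain ⟨y, hy⟩ := hj
          exact ⟨y, (hφ' j y).2 hy⟩)
        obtain ⟨j, hj1, hj2⟩ := (hu.and (h u)).exists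
        exact (hφ' j _).1 hj1 hj2
    · intro h y
      exact h.mono fun j hj => hj _

theorem taskLIMA (h1 : S_GCAL) (h2 : S_INV) : S_LIMA := by
  intro q hq
  have hG : GCal := h1
  -- atomic facts
  have hev : ∀ p, (∀ᶠ j in atTop, Dg (q j).x p = true) ↔
      ∃ j, p < (q j).k ∧ Dg (q j).x p = true := by
    intro p
    constructor
    · intro h
      obtain ⟨j, hj, hj2⟩ := (h.and (ev_k hG hq (p + 1))).exists
      exact ⟨j, hj2, hj⟩
    · rintro ⟨j, hj, hj2⟩
      filter_upwards [eventually_ge_atTop j] with i hi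
      have h3 : G 0 (q j).k (q j).x (q i).x :=
        hG.mono _ _ _ _ _ _ _ _ (Nat.zero_le _) le_rfl (gseq hG hq hi).2.2
      have e2 : p.unpair.2 ≤ p := Nat.unpair_right_le p
      have ei : p.unpair.2.unpair.1 ≤ p := (Nat.unpair_left_le _).trans e2
      have e3 : p.unpair.2.unpair.2 ≤ p := (Nat.unpair_right_le _).trans e2
      have ej : p.unpair.2.unpair.2.unpair.1 ≤ p := (Nat.unpair_left_le _).trans e3
      have el : p.unpair.2.unpair.2.unpair.2 ≤ p := (Nat.unpair_right_le _).trans e3
      have h4 := h3 p.unpair.1 p.unpair.2.unpair.1 p.unpair.2.unpair.2.unpair.1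
        p.unpair.2.unpair.2.unpair.2 (by omega) (by omega) (by omega)
      have h5 : cd p.unpair.1 p.unpair.2.unpair.1 p.unpair.2.unpair.2.unpair.1
          p.unpair.2.unpair.2.unpair.2 = p := by
        unfold cd; rw [Nat.pair_unpair, Nat.pair_unpair, Nat.pair_unpair]
      rw [h5] at h4
      rw [← h4]
      exact hj2
  refine ⟨limStr q, ?_, ?_⟩
  · intro p
    rw [← hev]
    show @Dg ℕ (limStr q) id p = true ↔ _
    have hgen : ∀ c i j l : ℕ, p = cd c i j l → (@Dg ℕ (limStr q) id p = true ↔
        ∀ᶠ j in atTop, Dg (q j).x p = true) := by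
      rintro c i j l rfl
      have v2 : ∀ j' : ℕ, (fun a => (q j').x ((![i, j] : Fin 2 → ℕ) a)) =
          ![(q j').x i, (q j').x j] := by
        intro j'; funext a; fin_cases a <;> rfl
      have v0 : ∀ j' : ℕ, (fun a => (q j').x ((![] : Fin 0 → ℕ) a)) = ![] := by
        intro j'; exact Subsingleton.elim _ _
      by_cases h0 : c = 0
      · subst h0
        have h3 := fA hG hq h2 (AF.add : LA.Functions 2) ![i, j] l
        simp only [v2] at h3
        simp only [Dg, cd, Nat.unpair_pair, if_true, decide_eq_true_eq, id_eq]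
        exact h3
      by_cases h1' : c = 1
      · subst h1'
        have h3 := fA hG hq h2 (AF.mul : LA.Functions 2) ![i, j] l
        simp only [v2] at h3
        simp only [Dg, cd, Nat.unpair_pair, if_true, decide_eq_true_eq, id_eq, one_ne_zero,
          if_false]
        exact h3
      by_cases h2' : c = 2
      · subst h2'
        simp only [Dg, cd, Nat.unpair_pair, if_true, decide_eq_true_eq, id_eq,
          if_false, OfNat.ofNat_ne_zero, OfNat.ofNat_ne_one]
        show (∀ᶠ j' in atTop, Structure.RelMap (L := LA) (AR.lt : LA.Relations 2)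
          fun a => (q j').x ((![i, j] : Fin 2 → ℕ) a)) ↔ _
        simp only [v2]
      by_cases h3' : c = 3
      · subst h3'
        have h3 := fA hG hq h2 (AF.zero : LA.Functions 0) ![] i
        simp only [v0] at h3
        simp only [Dg, cd, Nat.unpair_pair, if_true, decide_eq_true_eq, id_eq,
          if_false, OfNat.ofNat_ne_zero, OfNat.ofNat_ne_one, Nat.reduceEqDiff]
        exact h3
      by_cases h4' : c = 4
      · subst h4'
        have h3 := fA hG hq h2 (AF.one : LA.Functions 0) ![] i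
        simp only [v0] at h3
        simp only [Dg, cd, Nat.unpair_pair, if_true, decide_eq_true_eq, id_eq,
          if_false, OfNat.ofNat_ne_zero, OfNat.ofNat_ne_one, Nat.reduceEqDiff]
        exact h3
      simp [Dg, cd, h0, h1', h2', h3', h4']
      exact fun x => ⟨x, le_rfl⟩
    exact hgen p.unpair.1 p.unpair.2.unpair.1 p.unpair.2.unpair.2.unpair.1
      p.unpair.2.unpair.2.unpair.2
      (by unfold cd; rw [Nat.pair_unpair, Nat.pair_unpair, Nat.pair_unpair])
  · intro j
    have hpe : ∀ {α : Type} (ρ : α → ℕ) (ψ : LA.BoundedFormula α 0) (τ : Fin 0 → ℕ),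
        rk ψ ≤ (q j).n → (∀ a, ρ a < (q j).k) →
        (@BoundedFormula.Realize LA ℕ (limStr q) α 0 ψ ρ τ ↔
          ψ.Realize (fun a => (q j).x (ρ a)) fun a => (q j).x (τ a)) := by
      intro α ρ ψ τ hr hρ
      rw [truth hG hq h2 ρ ⟨_, hρ⟩ ψ τ]
      have h3 : ∀ i ≥ j, _ := fun i hi => pers hG hq ρ ψ τ hr hρ (fun a => a.elim0) hi
      constructor
      · intro h
        obtain ⟨i, hi, hi2⟩ := (h.and (eventually_ge_atTop j)).exists
        exact (h3 i hi2).2 hi
      · intro h
        filter_upwards [eventually_ge_atTop j] with i hi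
        exact (h3 i hi).1 h
    constructor
    · intro φ hr
      have h3 := hpe (fun a : Empty => a.elim) φ default hr (fun a => a.elim)
      have e1 : (fun a : Empty => (a.elim : ℕ)) = default := Subsingleton.elim _ _
      have e2 : (fun a : Empty => (q j).x (a.elim : ℕ)) = default := Subsingleton.elim _ _
      have e3 : (fun a : Fin 0 => (q j).x ((default : Fin 0 → ℕ) a)) = default :=
        Subsingleton.elim _ _
      rw [e1, e2, e3] at h3
      unfold TrueIn Sentence.Realize Formula.Realize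
      refine Iff.trans (iff_of_eq ?_) (h3.trans (iff_of_eq ?_))
      · exact congrArg₂ (fun a b => @BoundedFormula.Realize LA ℕ (limStr q) Empty 0 φ a b)
          (Subsingleton.elim _ _) (Subsingleton.elim _ _)
      · exact congrArg₂ (fun a b => @BoundedFormula.Realize LA (q j).M _ Empty 0 φ a b)
          (Subsingleton.elim _ _) (Subsingleton.elim _ _)
    · intro φ hr hf
      have h3 := hpe (fun a : φ.freeVarFinset => (a : ℕ)) (φ.restrictFreeVar fun a => a) default
        (by rw [rk_restrict]; exact hr) (fun a => hf a.1 a.2)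
      have e3 : (fun a : Fin 0 => (q j).x ((default : Fin 0 → ℕ) a)) = default :=
        Subsingleton.elim _ _
      rw [e3] at h3
      have h4 := @BoundedFormula.realize_restrictFreeVar LA ℕ (limStr q) ℕ φ.freeVarFinset _ 0 φ
        (fun a => a) (fun a => (a : ℕ)) default (id : ℕ → ℕ) (fun _ => rfl)
      have h5 := BoundedFormula.realize_restrictFreeVar (M := (q j).M) (φ := φ)
        (f := fun a : φ.freeVarFinset => a) (v := fun a : φ.freeVarFinset => (q j).x (a : ℕ))
        (xs := (default : Fin 0 → (q j).M)) (q j).x (fun _ => rfl)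
      have h6 := (h4.symm.trans h3).trans h5
      unfold Formula.Realize
      refine Iff.trans (iff_of_eq ?_) (h6.trans (iff_of_eq ?_))
      · exact congrArg (fun b => @BoundedFormula.Realize LA ℕ (limStr q) ℕ 0 φ id b)
          (Subsingleton.elim _ _)
      · exact congrArg (fun b => @BoundedFormula.Realize LA (q j).M _ ℕ 0 φ (q j).x b)
          (Subsingleton.elim _ _)

end lim

end Pool.Agent.W921.SF.LimT
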