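import Pool.Agent.W921.SF.QC0

/-!
Solovay families: the block normal form is given by formulas.
-/

set_option autoImplicit false

open FirstOrder FirstOrder.Language Pool.Agent.Helper227.EN

namespace Pool.Agent.W921.SF.QF

open Pool.Agent.Helper578.JD Pool.Agent.Helper578.JD.Oracle Pool.Agent.Helper578.JD.Defs
open Pool.Agent.H623R3.JC Pool.Agent.W921.SF

theorem supp (m p : ℕ) : ∃ S : ℕ, ∀ (M : Type) [LA.Structure M] (x y : ℕ → M),
    (∀ i < S, x i = y i) → (Q m p x ↔ Q m p y) := by
  induction m with
  | zero =>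
    refine ⟨p + 1, fun M _ x y h => ?_⟩
    show QC0.DB p (Dg x) ↔ QC0.DB p (Dg y)
    refine QC0.DB_loc p _ _ fun t ht => GC.Dg_loc x y t fun i hi => h i (by omega)
  | succ m ih =>
    obtain ⟨S, hS⟩ := ih
    refine ⟨S, fun M _ x y h => ?_⟩
    refine exists_congr fun z => not_congr (hS M _ _ fun i hi => ?_)
    unfold mrg
    by_cases h2 : i % 2 = 0
    · rw [if_pos h2, if_pos h2]
      exact h _ (by omega)
    · rw [if_neg h2, if_neg h2]

/-- formulas for atomic facts -/
theorem atom_fml (t : ℕ) : ∃ φ : LA.Formula ℕ, ∀ (M : Type) [LA.Structure M] (x : ℕ → M),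
    φ.Realize x ↔ Dg x t = true := by
  let v : ℕ → LA.Term (ℕ ⊕ Fin 0) := fun i => Term.var (Sum.inl i)
  by_cases h0 : t.unpair.1 = 0
  · refine ⟨(tadd (v t.unpair.2.unpair.1) (v t.unpair.2.unpair.2.unpair.1)) ='
      (v t.unpair.2.unpair.2.unpair.2), fun M _ x => ?_⟩
    rw [GC.Dg_eq, h0]
    simp only [GC.DV, if_true, decide_eq_true_eq]
    show _ ↔ _
    rw [Formula.Realize, BoundedFormula.realize_bdEqual, ea_tadd]
    rfl
  by_cases h1 : t.unpair.1 = 1
  · refine ⟨(tmul (v t.unpair.2.unpair.1) (v t.unpair.2.unpair.2.unpair.1)) ='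
      (v t.unpair.2.unpair.2.unpair.2), fun M _ x => ?_⟩
    rw [GC.Dg_eq, h1]
    simp only [GC.DV, if_true, decide_eq_true_eq, one_ne_zero, if_false]
    rw [Formula.Realize, BoundedFormula.realize_bdEqual, ea_tmul]
    rfl
  by_cases h2 : t.unpair.1 = 2
  · refine ⟨flt (v t.unpair.2.unpair.1) (v t.unpair.2.unpair.2.unpair.1), fun M _ x => ?_⟩
    rw [GC.Dg_eq, h2]
    simp only [GC.DV, decide_eq_true_eq]
    norm_num
    rw [Formula.Realize, ea_flt]
    rfl
  by_cases h3 : t.unpair.1 = 3
  · refine ⟨t0 =' (v t.unpair.2.unpair.1), fun M _ x => ?_⟩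
    rw [GC.Dg_eq, h3]
    simp only [GC.DV, decide_eq_true_eq]
    norm_num
    rw [Formula.Realize, BoundedFormula.realize_bdEqual, ea_t0]
    rfl
  by_cases h4 : t.unpair.1 = 4
  · refine ⟨t1 =' (v t.unpair.2.unpair.1), fun M _ x => ?_⟩
    rw [GC.Dg_eq, h4]
    simp only [GC.DV, decide_eq_true_eq]
    norm_num
    rw [Formula.Realize, BoundedFormula.realize_bdEqual, ea_t1]
    rfl
  · refine ⟨⊥, fun M _ x => ?_⟩
    rw [GC.Dg_eq]
    simp [GC.DV, h0, h1, h2, h3, h4]

/-- formulas for finite conditions on the atomic bits -/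
theorem bits_fml (B : ℕ) : ∀ g : (ℕ → Bool) → Prop,
    (∀ s s', (∀ t < B, s t = s' t) → (g s ↔ g s')) →
    ∃ φ : LA.Formula ℕ, ∀ (M : Type) [LA.Structure M] (x : ℕ → M), φ.Realize x ↔ g (Dg x) := by
  induction B with
  | zero =>
    intro g hg
    by_cases h : g fun _ => true
    · refine ⟨⊤, fun M _ x => ?_⟩
      rw [hg (Dg x) (fun _ => true) fun t ht => absurd ht (by omega)]
      simp [h]
    · refine ⟨⊥, fun M _ x => ?_⟩
      rw [hg (Dg x) (fun _ => true) fun t ht => absurd ht (by omega)]
      simp [h]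
  | succ B ih =>
    intro g hg
    obtain ⟨φ1, h1⟩ := ih (fun s => g (Function.update s B true)) (fun s s' h => by
      refine hg _ _ fun t ht => ?_
      by_cases h2 : t = B
      · subst h2; simp
      · rw [Function.update_of_ne h2, Function.update_of_ne h2]
        exact h t (by omega))
    obtain ⟨φ2, h2⟩ := ih (fun s => g (Function.update s B false)) (fun s s' h => by
      refine hg _ _ fun t ht => ?_
      by_cases h2 : t = B
      · subst h2; simp
      · rw [Function.update_of_ne h2, Function.update_of_ne h2]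
        exact h t (by omega))
    obtain ⟨α, hα⟩ := atom_fml B
    refine ⟨(α ⊓ φ1) ⊔ (∼α ⊓ φ2), fun M _ x => ?_⟩
    rw [Formula.realize_sup, Formula.realize_inf, Formula.realize_inf, Formula.realize_not,
      hα, h1, h2]
    cases hb : Dg x B with
    | true =>
      have : Function.update (Dg x) B true = Dg x := by
        funext t
        by_cases h3 : t = B
        · subst h3; rw [Function.update_self, hb]
        · rw [Function.update_of_ne h3]
      rw [this]
      simp
    | false =>
      have : Function.update (Dg x) B false = Dg x := by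
        funext t
        by_cases h3 : t = B
        · subst h3; rw [Function.update_self, hb]
        · rw [Function.update_of_ne h3]
      rw [this]
      simp

theorem fml (m : ℕ) : ∀ p, ∃ φ : LA.Formula ℕ, ∀ (M : Type) [LA.Structure M] (x : ℕ → M),
    φ.Realize x ↔ Q m p x := by
  induction m with
  | zero =>
    intro p
    exact bits_fml (p + 1) (QC0.DB p) fun s s' h => QC0.DB_loc p s s' h
  | succ m ih =>
    intro p
    obtain ⟨φ, hφ⟩ := ih p
    obtain ⟨S, hS⟩ := supp m p
    refine ⟨Formula.iExs (Fin S) (∼(φ.relabel fun i => if i % 2 = 0 then Sum.inl (i / 2) else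
      if h : i / 2 < S then Sum.inr (⟨i / 2, h⟩ : Fin S) else Sum.inl 0)), fun M _ x => ?_⟩
    rw [Formula.realize_iExs]
    constructor
    · rintro ⟨y, hy⟩
      rw [Formula.realize_not, Formula.realize_relabel, hφ] at hy
      refine ⟨fun i => if h : i < S then y ⟨i, h⟩ else x 0, fun hq => hy ?_⟩
      refine (hS M _ _ fun i hi => ?_).1 hq
      unfold mrg
      by_cases h : i % 2 = 0
      · rw [if_pos h]
        simp only [Function.comp, h, if_true, Sum.elim_inl]
      · rw [if_neg h]
        have h3 : i / 2 < S := by omega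
        simp only [Function.comp, h, if_false, h3, dif_pos, Sum.elim_inr]
    · rintro ⟨y, hy⟩
      refine ⟨fun i => y i, ?_⟩
      rw [Formula.realize_not, Formula.realize_relabel, hφ]
      refine fun hq => hy ((hS M _ _ fun i hi => ?_).2 hq)
      unfold mrg
      by_cases h : i % 2 = 0
      · rw [if_pos h]
        simp only [Function.comp, h, if_true, Sum.elim_inl]
      · rw [if_neg h]
        have h3 : i / 2 < S := by omega
        simp only [Function.comp, h, if_false, h3, dif_pos, Sum.elim_inr]

theorem task : S_QF := fun m p => ⟨supp m p, fml m p⟩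

end Pool.Agent.W921.SF.QF
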