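import Pool.Agent.W921.SF.Stm
import Pool.Agent.Helper227.EN.Alg

/-!
Solovay families: substitution of terms in formulas of the hierarchy.
-/

set_option autoImplicit false

open FirstOrder FirstOrder.Language Pool.Agent.Helper227.EN

namespace Pool.Agent.W921.SF.Sent

open Pool.Agent.Helper578.JD Pool.Agent.Helper578.JD.Oracle Pool.Agent.Helper578.JD.Defs
open Pool.Agent.H623R3.JC Pool.Agent.W921.SF

section
variable {α β : Type}

/-- the substitution for terms with `n` bound variables -/
def sg (f : α → LA.Term β) (n : ℕ) : α ⊕ Fin n → LA.Term (β ⊕ Fin n) :=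
  Sum.elim (Term.relabel Sum.inl ∘ f) (Term.var ∘ Sum.inr)

theorem subst_flt (f : α → LA.Term β) {n : ℕ} (t s : LA.Term (α ⊕ Fin n)) :
    (flt t s).subst f = flt (t.subst (sg f n)) (s.subst (sg f n)) := by
  have : (fun i => (![t, s] i).subst (sg f n)) = ![t.subst (sg f n), s.subst (sg f n)] := by
    funext i
    fin_cases i <;> rfl
  exact congrArg (BoundedFormula.rel (L := LA) AR.lt) this

theorem subst_lift (f : α → LA.Term β) {n : ℕ} (t : LA.Term (α ⊕ Fin n)) :
    (t.relabel (Sum.map id Fin.castSucc)).subst (sg f (n + 1)) =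
      (t.subst (sg f n)).relabel (Sum.map id Fin.castSucc) := by
  induction t with
  | var a =>
    rcases a with a | i
    · simp only [Term.relabel, Sum.map_inl, id, Term.subst, sg, Sum.elim_inl, Function.comp,
        Term.relabel_relabel]
      congr 1
    · simp only [Term.relabel, Sum.map_inr, Term.subst, sg, Sum.elim_inr, Function.comp]
  | func g ts ih =>
    simp only [Term.relabel, Term.subst]
    congr 1
    funext i
    exact ih i

theorem D0_subst (f : α → LA.Term β) {n : ℕ} {φ : LA.BoundedFormula α n} (h : D0 φ) :
    D0 (φ.subst f) := by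
  induction h with
  | falsum => exact D0.falsum
  | equal t s => exact D0.equal _ _
  | lt t s =>
    rw [subst_flt]
    exact D0.lt _ _
  | imp _ _ ih1 ih2 => exact D0.imp ih1 ih2
  | @ball n t φ _ ih =>
    have h1 : BoundedFormula.subst
        ((flt (bv (Fin.last n)) (t.relabel (Sum.map id Fin.castSucc))).imp φ).all f =
        ((flt (bv (Fin.last n)) ((t.subst (sg f n)).relabel (Sum.map id Fin.castSucc))).imp
          (φ.subst f)).all := by
      rw [← subst_lift]
      have h2 := subst_flt f (bv (Fin.last n)) (t.relabel (Sum.map id Fin.castSucc))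
      exact congrArg (fun ψ => BoundedFormula.all (BoundedFormula.imp ψ (φ.subst f))) h2
    rw [h1]
    exact D0.ball _ ih

theorem Hier_subst (f : α → LA.Term β) {b : Bool} {m n : ℕ} {φ : LA.BoundedFormula α n}
    (h : Hier b m φ) : Hier b m (φ.subst f) := by
  induction h with
  | d0 h => exact Hier.d0 (D0_subst f h)
  | up _ ih => exact Hier.up ih
  | ex _ ih => exact Hier.ex ih
  | all _ ih => exact Hier.all ih

end

theorem task : S_SENT := by
  intro b N φ hφ e
  refine ⟨BoundedFormula.subst φ fun _ => (num e : LA.Term Empty), Hier_subst _ hφ,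
    fun M _ => ?_⟩
  show BoundedFormula.Realize (BoundedFormula.subst φ fun _ => (num e : LA.Term Empty)) default
    default ↔ _
  rw [BoundedFormula.realize_subst]
  have : (fun _ : ℕ => (num e : LA.Term Empty).realize (default : Empty → M)) =
    fun _ => nv M e := rfl
  rw [this]
  rfl

end Pool.Agent.W921.SF.Sent
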