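import Pool.Agent.W921.SF.Stm

/-!
Solovay families: the main step.
-/

set_option autoImplicit false

open FirstOrder FirstOrder.Language Pool.Agent.Helper227.EN

namespace Pool.Agent.W921.SF.Step

open Pool.Agent.Helper578.JD Pool.Agent.Helper578.JD.Oracle Pool.Agent.Helper578.JD.Defs
open Pool.Agent.H623R3.JC Pool.Agent.W921.SF

theorem not_chg {t : ℕ → ℕ} {S V : ℕ → ℕ} {R : ℕ} (h1 : ∀ j ≤ R + 1, t (S j) = V j)
    (h2 : ∀ j ≤ R, S j < S (j + 1) ∧ V j ≠ V (j + 1)) : ¬ Chg t R := by
  intro hc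
  have key : ∀ j ≤ R, ∃ s, S j ≤ s ∧ s < S (j + 1) ∧ t (s + 1) ≠ t s := by
    intro j hj
    by_contra hcon
    push Not at hcon
    have hconst : ∀ d, S j + d ≤ S (j + 1) → t (S j + d) = t (S j) := by
      intro d
      induction d with
      | zero => intro _; rfl
      | succ d ih =>
        intro hd
        rw [← ih (by omega)]
        exact hcon (S j + d) (by omega) (by omega)
    obtain ⟨h3, h4⟩ := h2 j hj
    have h5 := hconst (S (j + 1) - S j) (by omega)
    rw [show S j + (S (j + 1) - S j) = S (j + 1) by omega, h1 (j + 1) (by omega),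
      h1 j (by omega)] at h5
    exact h4 h5.symm
  choose! c hc1 hc2 hc3 using key
  have hmono : ∀ i j, i < j → j ≤ R → c i < c j := by
    intro i j hij hj
    have : ∀ d, i + d + 1 ≤ R → c i < c (i + d + 1) := by
      intro d
      induction d with
      | zero =>
        intro hd
        exact lt_of_lt_of_le (hc2 i (by omega)) (hc1 (i + 1) (by omega))
      | succ d ih =>
        intro hd
        have h6 := ih (by omega)
        have h7 := hc2 (i + d + 1) (by omega)
        have h8 := hc1 (i + d + 1 + 1) (by omega)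
        have h9 : c (i + d + 1) < c (i + d + 1 + 1) := lt_of_lt_of_le h7 h8
        have h10 : i + (d + 1) + 1 = i + d + 1 + 1 := by omega
        rw [h10]
        exact lt_trans h6 h9
    have h11 := this (j - i - 1) (by omega)
    rwa [show i + (j - i - 1) + 1 = j by omega] at h11
  have hcard := hc ((Finset.range (R + 1)).image c) (by
    intro s hs
    obtain ⟨j, hj, rfl⟩ := Finset.mem_image.1 hs
    exact hc3 j (by simpa [Nat.lt_succ_iff] using hj))
  rw [Finset.card_image_of_injOn, Finset.card_range] at hcard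
  · omega
  · intro i hi j hj hij
    simp only [Finset.coe_range, Set.mem_Iio] at hi hj
    rcases lt_trichotomy i j with h | h | h
    · exact absurd hij (ne_of_lt (hmono i j h (by omega)))
    · exact h
    · exact absurd hij.symm (ne_of_lt (hmono j i h (by omega)))

theorem mem_jump_iff {X : Set ℕ} {e : ℕ} :
    e ∈ jump X ↔ ∃ c : Info, Ok X c ∧ W e (Encodable.encode c) := Iff.rfl

theorem enc1 (N : ℕ) : Computable fun x : (ℕ × ℕ) × Info =>
    (Encodable.encode (N, (x.2, x.1)) : ℕ) :=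
  Computable.encode.comp ((Computable.const N).pair (Computable.snd.pair Computable.fst))

theorem re1 (r N : ℕ) : REPred fun x : (ℕ × ℕ) × Info =>
    W r (Encodable.encode (N, (x.2, x.1))) :=
  RE.comp (p := fun p : ℕ × ℕ => W p.1 p.2) W_re
    (f := fun x : (ℕ × ℕ) × Info => (r, Encodable.encode (N, (x.2, x.1))))
    ((Computable.const r).pair (enc1 N))

theorem ex1 (r N : ℕ) : ∃ f : ℕ × ℕ → ℕ, ∀ (a : ℕ × ℕ) (c : Info),
    W (f a) (Encodable.encode c) ↔ W r (Encodable.encode (N, (c, a))) := by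
  obtain ⟨f, -, hf⟩ := smn
    (P := fun (a : ℕ × ℕ) (c : Info) => W r (Encodable.encode (N, (c, a)))) (re1 r N)
  exact ⟨f, hf⟩

theorem enc2 : Computable fun x : (ℕ × (ℕ × ℕ)) × Info =>
    (Encodable.encode (x.2, x.1.2) : ℕ) :=
  Computable.encode.comp (Computable.snd.pair (Computable.snd.comp Computable.fst))

theorem re2 : REPred fun x : (ℕ × (ℕ × ℕ)) × Info =>
    W x.1.1 (Encodable.encode (x.2, x.1.2)) :=
  RE.comp (p := fun p : ℕ × ℕ => W p.1 p.2) W_re
    (f := fun x : (ℕ × (ℕ × ℕ)) × Info => (x.1.1, Encodable.encode (x.2, x.1.2)))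
    ((Computable.fst.comp Computable.fst).pair enc2)

theorem ex2 : ∃ g : ℕ × (ℕ × ℕ) → ℕ, ∀ (a : ℕ × (ℕ × ℕ)) (c : Info),
    W (g a) (Encodable.encode c) ↔ W a.1 (Encodable.encode (c, a.2)) := by
  obtain ⟨g, -, hg⟩ := smn
    (P := fun (a : ℕ × (ℕ × ℕ)) (c : Info) => W a.1 (Encodable.encode (c, a.2))) re2
  exact ⟨g, hg⟩

/-- indices for the values of the family at level `N` -/
theorem exists_f (r N : ℕ) : ∃ f : ℕ × ℕ → ℕ, ∀ (X : Set ℕ) (s v : ℕ), f (s, v) ∈ jump X ↔
    ∃ c : Info, Ok X c ∧ W r (Encodable.encode (N, (c, (s, v)))) := by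
  obtain ⟨f, hf⟩ := ex1 r N
  refine ⟨f, fun X s v => ?_⟩
  constructor
  · rintro ⟨c, hc, hw⟩; exact ⟨c, hc, (hf (s, v) c).1 hw⟩
  · rintro ⟨c, hc, hw⟩; exact ⟨c, hc, (hf (s, v) c).2 hw⟩

theorem exists_g : ∃ g : ℕ × (ℕ × ℕ) → ℕ, ∀ (X : Set ℕ) (v u b : ℕ), g (v, (u, b)) ∈ jump X ↔
    ∃ c : Info, Ok X c ∧ W v (Encodable.encode (c, (u, b))) := by
  obtain ⟨g, hg⟩ := ex2
  refine ⟨g, fun X v u b => ?_⟩
  constructor
  · rintro ⟨c, hc, hw⟩; exact ⟨c, hc, (hg (v, (u, b)) c).1 hw⟩
  · rintro ⟨c, hc, hw⟩; exact ⟨c, hc, (hg (v, (u, b)) c).2 hw⟩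

section
variable (gn : LA.Sentence → ℕ) (κ : ℕ → LA.Sentence) (f : ℕ × ℕ → ℕ) (g : ℕ × (ℕ × ℕ) → ℕ)
  (k N : ℕ)

/-- the states -/
structure St (p : Cnd) (i : ℕ) (y : ℕ → p.M) (k2 : ℕ) (S V : ℕ → ℕ) : Prop where
  ag : ∀ l < k, y l = p.x l
  kk : k ≤ k2
  inj : InjB k2 y
  val : ∀ j < i, Fc N y k2 (f (S j, V j)) true
  inc : ∀ j, j + 1 < i → S j < S (j + 1) ∧ V j ≠ V (j + 1)
  zer : ∀ j, j + 1 = i → Fc 1 y k2 (g (V j, (gn (κ j), 0))) true

end

theorem task (h1 : S_CHAIN) (h2 : S_GAME) (h3 : S_GCAL) (h4 : S_FCAL) : S_STEP := by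
  intro gn hgn h r q hq
  obtain ⟨N, hN, hch⟩ := h1 q.M hq.pa hq.sat q.x q.n q.k hq.n1 hq.k1
  obtain ⟨κ, hκ, p, hp1, hp2⟩ := hch (h N)
  obtain ⟨N', rfl⟩ : ∃ N', N = N' + 1 := ⟨N - 1, by omega⟩
  obtain ⟨f, hf⟩ := exists_f r (N' + 1)
  obtain ⟨g, hg⟩ := exists_g
  -- the level of the final condition
  obtain ⟨n2, hn2a, hn2b, hn2c⟩ : ∃ n2, q.n ≤ n2 ∧ N' + 1 ≤ n2 ∧
      ∀ j ≤ h (N' + 1), rk (κ j) ≤ n2 := by
    refine ⟨max (max q.n (N' + 1)) ((Finset.range (h (N' + 1) + 1)).sup fun j => rk (κ j)),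
      ?_, ?_, ?_⟩
    · exact le_trans (le_max_left _ _) (le_max_left _ _)
    · exact le_trans (le_max_right _ _) (le_max_left _ _)
    · intro j hj
      refine le_trans ?_ (le_max_right _ _)
      exact Finset.le_sup (f := fun j => rk (κ j)) (Finset.mem_range.2 (by omega))
  -- final conditions
  have hfin : ∀ i ≤ h (N' + 1) + 1, ∀ (z : ℕ → (p i).M) (k3 : ℕ), (∀ l < q.k, z l = (p i).x l) →
      q.k ≤ k3 → InjB k3 z →
      (Cnd.mk (p i).M (p i).str z k3 n2).Good ∧ q.Ext (Cnd.mk (p i).M (p i).str z k3 n2) := by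
    intro i hi z k3 hz hk3 hinj
    obtain ⟨ha, hb, hc⟩ := hp1 i hi
    refine ⟨⟨ha, hb, hinj, le_trans hq.k1 hk3, le_trans hq.n1 hn2a⟩, ⟨hk3, hn2a, ?_⟩⟩
    have hG := (h2 q.M (p i).M hq.pa ha hq.sat hb q.n q.k q.x (p i).x hq.k1).1 hc
    exact h3.loc q.M (p i).M q.n q.k q.x q.x (p i).x z (fun _ _ => rfl)
      (fun l hl => (hz l hl).symm) hG
  -- meaning of the forced facts
  have hval : ∀ (A : LA.Structure ℕ) (t : ℕ → ℕ → ℕ),
      (∀ n s v : ℕ, t (n + 1) s = v ↔
        ∃ c : Info, Ok (jump^[n] (DS A)) c ∧ W r (Encodable.encode (n + 1, (c, (s, v))))) →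
      ∀ s v, t (N' + 1) s = v ↔ f (s, v) ∈ jump^[N' + 1] (DS A) := by
    intro A t ht s v
    rw [Function.iterate_succ_apply', hf, ht N' s v]
  -- stopping when no further value can be forced
  have hA : ∀ i ≤ h (N' + 1) + 1, ∀ (y : ℕ → (p i).M) (k2 : ℕ) (S V : ℕ → ℕ),
      St gn κ f g q.k (N' + 1) (p i) i y k2 S V →
      (¬ ∃ (z : ℕ → (p i).M) (k3 s v : ℕ), (∀ l < k2, z l = y l) ∧ k2 ≤ k3 ∧
        InjB k3 z ∧ (∀ j, j + 1 = i → S j < s ∧ V j ≠ v) ∧ Fc (N' + 1) z k3 (f (s, v)) true) →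
      ∃ q' : Cnd, q'.Good ∧ q.Ext q' ∧ ∀ A, Lim A q' → Fails gn h r A := by
    intro i hi y k2 S V hst hno
    obtain ⟨hgood, hext⟩ := hfin i hi y k2 hst.ag hst.kk hst.inj
    refine ⟨_, hgood, hext, ?_⟩
    rintro A hlim ⟨t, ht, htlim, -, -⟩
    have hv := hval A t ht
    have hno' : ∀ s, (∀ j, j + 1 = i → S j < s) → ∀ v, (∀ j, j + 1 = i → V j ≠ v) →
        t (N' + 1) s ≠ v := by
      intro s hs v hvv hts
      obtain ⟨z, hz, k3, hk3, hinj, hF⟩ := hlim.cov (N' + 1) hn2b _ ((hv s v).1 hts)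
      exact hno ⟨z, k3, s, v, hz, hk3, hinj, fun j hj => ⟨hs j hj, hvv j hj⟩, hF⟩
    rcases Nat.eq_zero_or_pos i with hi0 | hi0
    · subst hi0
      exact hno' 0 (fun j hj => absurd hj (by omega)) _ (fun j hj => absurd hj (by omega)) rfl
    · obtain ⟨j, rfl⟩ : ∃ j, i = j + 1 := ⟨i - 1, by omega⟩
      have hconst : ∀ s, S j < s → t (N' + 1) s = V j := by
        intro s hs
        by_contra hne
        refine hno' s (fun j' hj' => ?_) (t (N' + 1) s) (fun j' hj' => ?_) rfl
        · obtain rfl : j' = j := by omega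
          exact hs
        · obtain rfl : j' = j := by omega
          exact fun h => hne h.symm
      obtain ⟨e, ⟨s0, hs0⟩, hidx⟩ := htlim (N' + 1) (by omega)
      have he : e = V j := by
        rw [← hs0 (max s0 (S j + 1)) (le_max_left _ _)]
        exact hconst _ (lt_of_lt_of_le (Nat.lt_succ_self _) (le_max_right _ _))
      subst he
      have hz := hlim.pos 1 (le_trans (by omega) hn2b) _ (hst.zer j rfl)
      have hz' : g (V j, (gn (κ j), 0)) ∈ jump (DS A) := hz
      have hchi := (hidx (gn (κ j)) 0).1 ((hg (DS A) (V j) (gn (κ j)) 0).1 hz')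
      have htrue : TrueIn A (κ j) := (hlim.sen (κ j) (hn2c j (by omega))).2 (hp2 j (by omega)).2.1
      exact (chiN_eq_zero.1 hchi) ⟨κ j, hκ j, htrue, rfl⟩
  suffices hmain : ∀ d i, i + d = h (N' + 1) + 1 → ∀ (y : ℕ → (p i).M) (k2 : ℕ) (S V : ℕ → ℕ),
      St gn κ f g q.k (N' + 1) (p i) i y k2 S V →
      ∃ q' : Cnd, q'.Good ∧ q.Ext q' ∧ ∀ A, Lim A q' → Fails gn h r A by
    obtain ⟨ha, hb, hc⟩ := hp1 0 (by omega)
    have hG := (h2 q.M (p 0).M hq.pa ha hq.sat hb q.n q.k q.x (p 0).x hq.k1).1 hc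
    exact hmain (h (N' + 1) + 1) 0 (by omega) (p 0).x q.k (fun _ => 0) (fun _ => 0)
      ⟨fun _ _ => rfl, le_refl _, h3.inj q.M (p 0).M hq.pa ha q.n q.k q.x (p 0).x hG hq.inj,
        fun j hj => absurd hj (by omega), fun j hj => absurd hj (by omega),
        fun j hj => absurd hj (by omega)⟩
  intro d
  induction d with
  | zero =>
    intro i hi y k2 S V hst
    have hi' : i ≤ h (N' + 1) + 1 := by omega
    by_cases hex : ∃ (z : ℕ → (p i).M) (k3 s v : ℕ), (∀ l < k2, z l = y l) ∧ k2 ≤ k3 ∧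
        InjB k3 z ∧ (∀ j, j + 1 = i → S j < s ∧ V j ≠ v) ∧ Fc (N' + 1) z k3 (f (s, v)) true
    · obtain ⟨z, k3, s, v, hz, hk3, hinj, hsv, hF⟩ := hex
      obtain ⟨hgood, hext⟩ := hfin i hi' z k3
        (fun l hl => (hz l (lt_of_lt_of_le hl hst.kk)).trans (hst.ag l hl))
        (le_trans hst.kk hk3) hinj
      refine ⟨_, hgood, hext, ?_⟩
      rintro A hlim ⟨t, ht, -, -, hchg⟩
      have hv := hval A t ht
      refine not_chg (t := t (N' + 1)) (S := Function.update S i s) (V := Function.update V i v)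
        (R := h (N' + 1)) ?_ ?_ (hchg (N' + 1) (by omega))
      · intro j hj
        rcases Nat.lt_or_ge j i with hji | hji
        · rw [Function.update_of_ne (by omega), Function.update_of_ne (by omega), hv]
          exact hlim.pos _ hn2b _ (h4.mono (p i).M _ k2 k3 y z hz hk3 _ _ (hst.val j hji))
        · obtain rfl : j = i := by omega
          rw [Function.update_self, Function.update_self, hv]
          exact hlim.pos _ hn2b _ hF
      · intro j hj
        rcases Nat.lt_or_ge (j + 1) i with hji | hji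
        · rw [Function.update_of_ne (by omega), Function.update_of_ne (by omega),
            Function.update_of_ne (by omega), Function.update_of_ne (by omega)]
          exact hst.inc j hji
        · have hji' : j + 1 = i := by omega
          have h5 := hsv j hji'
          rw [show Function.update S i s j = S j from Function.update_of_ne (by omega) _ _,
            show Function.update V i v j = V j from Function.update_of_ne (by omega) _ _, hji',
            Function.update_self, Function.update_self]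
          exact h5
    · exact hA i hi' y k2 S V hst hex
  | succ d ih =>
    intro i hi y k2 S V hst
    have hi' : i ≤ h (N' + 1) + 1 := by omega
    have hi2 : i ≤ h (N' + 1) := by omega
    obtain ⟨hPA, hSat, hTE⟩ := hp1 i hi'
    obtain ⟨hPA', hSat', -⟩ := hp1 (i + 1) (by omega)
    obtain ⟨hfalse, htrue, hTI⟩ := hp2 i hi2
    by_cases hex : ∃ (z : ℕ → (p i).M) (k3 s v : ℕ), (∀ l < k2, z l = y l) ∧ k2 ≤ k3 ∧
        InjB k3 z ∧ (∀ j, j + 1 = i → S j < s ∧ V j ≠ v) ∧ Fc (N' + 1) z k3 (f (s, v)) true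
    · obtain ⟨z, k3, s, v, hz, hk3, hinj, hsv, hF⟩ := hex
      have hzag : ∀ l < q.k, z l = (p i).x l :=
        fun l hl => (hz l (lt_of_lt_of_le hl hst.kk)).trans (hst.ag l hl)
      have hkk3 : q.k ≤ k3 := le_trans hst.kk hk3
      by_cases hB1 : ∃ (w : ℕ → (p i).M) (k4 : ℕ), (∀ l < k3, w l = z l) ∧ k3 ≤ k4 ∧
          InjB k4 w ∧ Fc 1 w k4 (g (v, (gn (κ i), 1))) true
      · -- the value 1 is forced: keep the model
        obtain ⟨w, k4, hw, hk4, hinj4, hF1⟩ := hB1
        obtain ⟨hgood, hext⟩ := hfin i hi' w k4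
          (fun l hl => (hw l (lt_of_lt_of_le hl hkk3)).trans (hzag l hl))
          (le_trans hkk3 hk4) hinj4
        refine ⟨_, hgood, hext, ?_⟩
        rintro A hlim ⟨t, ht, -, hsub, -⟩
        have hv := hval A t ht
        have hts : t (N' + 1) s = v := by
          rw [hv]
          exact hlim.pos _ hn2b _ (h4.mono (p i).M _ k3 k4 z w hw hk4 _ _ hF)
        obtain ⟨Y, hY, hidx⟩ := hsub (N' + 1) (by omega) s
        rw [hts] at hidx
        have hz1 : g (v, (gn (κ i), 1)) ∈ jump (DS A) :=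
          hlim.pos 1 (le_trans (by omega) hn2b) _ hF1
        have hchi := (hidx (gn (κ i)) 1).1 ((hg (DS A) v (gn (κ i)) 1).1 hz1)
        obtain ⟨φ, -, hφ, hφe⟩ := hY (chiN_eq_one.1 hchi)
        have : φ = κ i := hgn hφe
        subst this
        exact hfalse ((hlim.sen (κ i) (hn2c i hi2)).1 hφ)
      · by_cases hB2 : ∃ (w : ℕ → (p i).M) (k4 : ℕ), (∀ l < k3, w l = z l) ∧ k3 ≤ k4 ∧
            InjB k4 w ∧ Fc 1 w k4 (g (v, (gn (κ i), 0))) true
        · -- the value 0 is forced: go to the next model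
          obtain ⟨w, k4, hw, hk4, hinj4, hF0⟩ := hB2
          have hinc := (h2 (p i).M (p (i + 1)).M hPA hPA' hSat hSat' N' q.k (p i).x
            (p (i + 1)).x hq.k1).2 hTI
          obtain ⟨y', hy', hG⟩ := hinc w
            (fun l hl => (hw l (lt_of_lt_of_le hl hkk3)).trans (hzag l hl)) k4
            (le_trans hkk3 hk4)
          refine ih (i + 1) (by omega) y' k4 (Function.update S i s) (Function.update V i v) ?_
          have htr : ∀ e, Fc (N' + 1) w k4 e true → Fc (N' + 1) y' k4 e true := fun e he =>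
            (h4.inv1 (p i).M (p (i + 1)).M hPA hPA' N' k4 w y' hG e).1 he
          have htr1 : ∀ e, Fc 1 w k4 e true → Fc 1 y' k4 e true := fun e he =>
            (h4.inv1 (p i).M (p (i + 1)).M hPA hPA' 0 k4 w y'
              (h3.mono (p i).M (p (i + 1)).M N' 0 k4 k4 w y' (Nat.zero_le _) le_rfl hG) e).1 he
          refine ⟨hy', le_trans hkk3 hk4, h3.inj (p i).M (p (i + 1)).M hPA hPA' N' k4 w y' hG
            hinj4, ?_, ?_, ?_⟩
          · intro j hj
            apply htr
            rcases Nat.lt_or_ge j i with hji | hji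
            · rw [Function.update_of_ne (by omega), Function.update_of_ne (by omega)]
              exact h4.mono (p i).M _ k3 k4 z w hw hk4 _ _
                (h4.mono (p i).M _ k2 k3 y z hz hk3 _ _ (hst.val j hji))
            · obtain rfl : j = i := by omega
              rw [Function.update_self, Function.update_self]
              exact h4.mono (p j).M _ k3 k4 z w hw hk4 _ _ hF
          · intro j hj
            rcases Nat.lt_or_ge (j + 1) i with hji | hji
            · rw [Function.update_of_ne (by omega), Function.update_of_ne (by omega),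
                Function.update_of_ne (by omega), Function.update_of_ne (by omega)]
              exact hst.inc j hji
            · have hji' : j + 1 = i := by omega
              have h5 := hsv j hji'
              rw [show Function.update S i s j = S j from Function.update_of_ne (by omega) _ _,
                show Function.update V i v j = V j from Function.update_of_ne (by omega) _ _,
                hji', Function.update_self, Function.update_self]
              exact h5
          · intro j hj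
            obtain rfl : j = i := by omega
            rw [Function.update_self]
            exact htr1 _ hF0
        · -- no value is forced: keep the model
          obtain ⟨hgood, hext⟩ := hfin i hi' z k3 hzag hkk3 hinj
          refine ⟨_, hgood, hext, ?_⟩
          rintro A hlim ⟨t, ht, -, hsub, -⟩
          have hv := hval A t ht
          have hts : t (N' + 1) s = v := by
            rw [hv]
            exact hlim.pos _ hn2b _ hF
          obtain ⟨Y, hY, hidx⟩ := hsub (N' + 1) (by omega) s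
          rw [hts] at hidx
          have hcase : ∀ b, chiN Y (gn (κ i)) = b → g (v, (gn (κ i), b)) ∈ jump (DS A) :=
            fun b hb => (hg (DS A) v (gn (κ i)) b).2 ((hidx (gn (κ i)) b).2 hb)
          by_cases hmem : gn (κ i) ∈ Y
          · obtain ⟨w, hw, k4, hk4, hinj4, hF1⟩ := hlim.cov 1 (le_trans (by omega) hn2b) _
              (hcase 1 (chiN_eq_one.2 hmem))
            exact hB1 ⟨w, k4, hw, hk4, hinj4, hF1⟩
          · obtain ⟨w, hw, k4, hk4, hinj4, hF0⟩ := hlim.cov 1 (le_trans (by omega) hn2b) _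
              (hcase 0 (chiN_eq_zero.2 hmem))
            exact hB2 ⟨w, k4, hw, hk4, hinj4, hF0⟩
    · exact hA i hi' y k2 S V hst hex

end Pool.Agent.W921.SF.Step
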