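import Pool.Agent.W930.SFD.FC
import Pool.Agent.W932.SF.MZ
import Pool.Agent.W227.SFZMA
import Pool.Agent.W930.SFD.ZMB
import Pool.Agent.W930.SFD.RE
import Pool.Agent.W227.SFCT
import Pool.Agent.W932.SF.All
import Pool.Agent.W930.SFD.DRE
import Pool.Agent.W930.SFD.Cpt
import Pool.Agent.W894.SG.UF0
import Pool.Agent.W894.SG.UF
import Pool.Agent.W932.SF.Pick
import Pool.Agent.W894.SG.KAP
import Pool.Agent.W930.SFD.Inv
import Pool.Agent.W921.SF.LimT
import Pool.Agent.W930.SFD.Dens
import Pool.Agent.W921.SF.Can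
import Pool.Agent.W921.SF.CComp
import Pool.Agent.W921.SF.Chain
import Pool.Agent.W921.SF.GC
import Pool.Agent.W921.SF.Game
import Pool.Agent.W921.SF.HC
import Pool.Agent.W921.SF.Init
import Pool.Agent.W921.SF.LimB
import Pool.Agent.W921.SF.QF
import Pool.Agent.W921.SF.Sent
import Pool.Agent.W921.SF.Step

/-!
Solovay families: the main theorem, from all the parts.
-/

set_option autoImplicit false

open FirstOrder FirstOrder.Language Pool.Agent.Helper227.EN

namespace Pool.Agent.W921.SF.Final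

open Pool.Agent.Helper578.JD Pool.Agent.Helper578.JD.Oracle Pool.Agent.Helper578.JD.Defs
open Pool.Agent.H623R3.JC Pool.Agent.W921.SF

theorem zm : S_ZM :=
  Pool.Agent.W930.SFD.ZMB.task Pool.Agent.W227.SFZMA.task Pool.Agent.W930.SFD.taskFC

theorem re : S_RE := Pool.Agent.W930.SFD.REn.task Can.task Pool.Agent.W932.SF.task zm

theorem dre : S_DRE := Pool.Agent.W930.SFD.DRE.task re Pool.Agent.W227.SFCT.task
  Pool.Agent.W932.SF.taskAll.1 Pool.Agent.W932.SF.taskAll.2 Pool.Agent.W930.SFD.taskFC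

theorem uf : S_UF := Pool.Agent.W894.SG.taskUF Pool.Agent.W894.SG.taskUF0 QF.task HC.task

theorem kap : S_KAP := Pool.Agent.W894.SG.taskKAP uf Pool.Agent.W932.SF.pick HC.task

theorem chain : S_CHAIN :=
  Chain.task kap dre (CComp.of_cpt Pool.Agent.W930.SFD.taskCPT) Sent.task

theorem step : S_STEP := Step.task chain Game.task GC.gcal GC.fcal

theorem lim : S_LIM := Main.lim_of
  (LimT.taskLIMA GC.gcal (Pool.Agent.W930.SFD.taskINV GC.gcal)) LimB.task

theorem main : S_MAIN := Main.main_of lim (Pool.Agent.W930.SFD.task GC.gcal) step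
  (Init.of_cpt Pool.Agent.W930.SFD.taskCPT)

end Pool.Agent.W921.SF.Final
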