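import Pool.Agent.W921.SF.GC

/-!
Solovay families: closure properties of the block normal form.
-/

set_option autoImplicit false

open FirstOrder FirstOrder.Language Pool.Agent.Helper227.EN

namespace Pool.Agent.W921.SF.QC0

open Pool.Agent.Helper578.JD Pool.Agent.Helper578.JD.Oracle Pool.Agent.Helper578.JD.Defs
open Pool.Agent.H623R3.JC Pool.Agent.W921.SF

/-! ### Coding finite sets by divisibility -/

theorem coprime_mods (T : ℕ) (i j : ℕ) (hi : i < T) (hj : j < T) (hij : i ≠ j) :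
    Nat.Coprime (1 + (i + 1) * (T + 1).factorial) (1 + (j + 1) * (T + 1).factorial) := by
  wlog hlt : i < j generalizing i j
  · exact (this j i hj hi hij.symm (by omega)).symm
  rw [Nat.coprime_iff_gcd_eq_one]
  by_contra hne
  obtain ⟨p, hp, hpd⟩ := Nat.exists_prime_and_dvd hne
  have h1 : p ∣ 1 + (i + 1) * (T + 1).factorial := hpd.trans (Nat.gcd_dvd_left _ _)
  have h2 : p ∣ 1 + (j + 1) * (T + 1).factorial := hpd.trans (Nat.gcd_dvd_right _ _)
  have h3 : p ∣ (j - i) * (T + 1).factorial := by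
    have h4 := (Nat.dvd_sub h2 h1)
    have h5 : 1 + (j + 1) * (T + 1).factorial - (1 + (i + 1) * (T + 1).factorial) =
        (j - i) * (T + 1).factorial := by
      obtain ⟨d, rfl⟩ := Nat.exists_eq_add_of_lt hlt
      have h6 : i + d + 1 - i = d + 1 := by omega
      rw [h6]
      have : 1 + (i + d + 1 + 1) * (T + 1).factorial =
        (d + 1) * (T + 1).factorial + (1 + (i + 1) * (T + 1).factorial) := by ring
      rw [this, Nat.add_sub_cancel]
    rwa [h5] at h4
  have h4 : p ∣ (T + 1).factorial := by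
    rcases (hp.dvd_mul).1 h3 with h | h
    · exact h.trans (Nat.dvd_factorial (by omega) (by omega))
    · exact h
  have h5 : p ∣ 1 := by
    have h6 : p ∣ (i + 1) * (T + 1).factorial := h4.mul_left _
    exact (Nat.dvd_add_left h6).1 h1
  exact hp.one_lt.ne' (Nat.dvd_one.1 h5)

theorem code_set (T : ℕ) (S : ℕ → Prop) : ∃ a c : ℕ, ∀ t < T, (1 + (t + 1) * c ∣ a ↔ S t) := by
  classical
  refine ⟨∏ t ∈ (Finset.range T).filter S, (1 + (t + 1) * (T + 1).factorial),
    (T + 1).factorial, fun t ht => ?_⟩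
  constructor
  · intro hd
    by_contra hS
    have hc : Nat.Coprime (1 + (t + 1) * (T + 1).factorial)
        (∏ t ∈ (Finset.range T).filter S, (1 + (t + 1) * (T + 1).factorial)) := by
      apply Nat.Coprime.prod_right
      intro j hj
      simp only [Finset.mem_filter, Finset.mem_range] at hj
      exact coprime_mods T t j ht hj.1 (fun h => hS (h ▸ hj.2))
    have h1 := Nat.Coprime.eq_one_of_dvd hc hd
    have h2 : 0 < (t + 1) * (T + 1).factorial := Nat.mul_pos (Nat.succ_pos _) (Nat.factorial_pos _)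
    omega
  · intro hS
    exact Finset.dvd_prod_of_mem _ (Finset.mem_filter.2 ⟨Finset.mem_range.2 ht, hS⟩)

/-! ### Level 0 -/

/-- the normal form in terms of the sequence of atomic bits -/
def DB (p : ℕ) (s : ℕ → Bool) : Prop :=
  ∃ u < p.unpair.2.unpair.2.unpair.1, ∀ e < p.unpair.2.unpair.2.unpair.2,
    (1 + (Nat.pair u e + 1) * p.unpair.2.unpair.1 ∣ p.unpair.1) → (s (e / 2) = true ↔ e % 2 = 1)

theorem DN_iff {M : Type} [LA.Structure M] (p : ℕ) (x : ℕ → M) : DN p x ↔ DB p (Dg x) := Iff.rfl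

theorem DB_loc (p : ℕ) (s s' : ℕ → Bool) (h : ∀ t < p + 1, s t = s' t) : DB p s ↔ DB p s' := by
  unfold DB
  refine exists_congr fun u => and_congr_right fun _ => forall_congr' fun e =>
    imp_congr_right fun he => imp_congr_right fun _ => ?_
  have h1 : p.unpair.2.unpair.2.unpair.2 ≤ p := GC.idx3 p
  rw [h (e / 2) (by omega)]

theorem bits1 (B : ℕ) (hB : 1 ≤ B) (g : (ℕ → Bool) → Prop)
    (hg : ∀ s s', (∀ t < B, s t = s' t) → (g s ↔ g s')) :
    ∃ p, ∀ s, DB p s ↔ g s := by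
  classical
  -- the vectors of length `B`, numbered by `u < 2 ^ B`
  let vec : ℕ → (ℕ → Bool) := fun u t => u.testBit t
  obtain ⟨T, hT⟩ : ∃ T, ∀ u < 2 ^ B, ∀ e < 2 * B + 1, Nat.pair u e < T := by
    refine ⟨Nat.pair (2 ^ B) (2 * B + 1) + 1, fun u hu e he => ?_⟩
    have := Nat.pair_lt_pair_left (2 * B + 1) hu
    have := Nat.pair_lt_pair_right u he
    omega
  -- the clause `u` consists of the literals of `vec u`, or of contradictory literals
  obtain ⟨a, c, hac⟩ := code_set T fun z =>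
    (g (vec z.unpair.1) ∧ (vec z.unpair.1 (z.unpair.2 / 2) = true ↔ z.unpair.2 % 2 = 1)) ∨
      ¬ g (vec z.unpair.1)
  refine ⟨Nat.pair a (Nat.pair c (Nat.pair (2 ^ B) (2 * B))), fun s => ?_⟩
  unfold DB
  simp only [Nat.unpair_pair]
  constructor
  · rintro ⟨u, hu, h⟩
    have h1 : ∀ e < 2 * B, (g (vec u) ∧ (vec u (e / 2) = true ↔ e % 2 = 1)) ∨ ¬ g (vec u) →
        (s (e / 2) = true ↔ e % 2 = 1) := by
      intro e he hor
      refine h e he ((hac _ (hT u hu e (by omega))).2 ?_)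
      simpa only [Nat.unpair_pair] using hor
    have h2 : ∀ t < B, g (vec u) → s t = vec u t := by
      intro t ht hgu
      by_cases hv : vec u t = true
      · have h3 := h1 (2 * t + 1) (by omega) (Or.inl ⟨hgu, by
          rw [show (2 * t + 1) / 2 = t by omega, show (2 * t + 1) % 2 = 1 by omega]
          simp [hv]⟩)
        rw [show (2 * t + 1) / 2 = t by omega, show (2 * t + 1) % 2 = 1 by omega] at h3
        rw [hv]
        exact h3.2 rfl
      · have h3 := h1 (2 * t) (by omega) (Or.inl ⟨hgu, by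
          rw [show (2 * t) / 2 = t by omega, show (2 * t) % 2 = 0 by omega]
          simp [hv]⟩)
        rw [show (2 * t) / 2 = t by omega, show (2 * t) % 2 = 0 by omega] at h3
        have h4 : ¬ s t = true := fun h => absurd (h3.1 h) (by norm_num)
        rw [Bool.not_eq_true] at hv h4
        rw [hv, h4]
    by_cases hgu : g (vec u)
    · exact (hg s (vec u) fun t ht => h2 t ht hgu).2 hgu
    · exfalso
      have h3 := h1 0 (by omega) (Or.inr hgu)
      have h4 := h1 1 (by omega) (Or.inr hgu)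
      simp at h3 h4
      rw [h3] at h4
      simp at h4
  · intro hgs
    have hbit : ∀ t < B, vec (Nat.ofBits fun i : Fin B => s i) t = s t := fun t ht =>
      Nat.testBit_ofBits_lt (fun i : Fin B => s i) t ht
    have hgv : g (vec (Nat.ofBits fun i : Fin B => s i)) := (hg _ _ hbit).2 hgs
    refine ⟨Nat.ofBits fun i : Fin B => s i, Nat.ofBits_lt_two_pow _, fun e he hd => ?_⟩
    have h1 := (hac _ (hT _ (Nat.ofBits_lt_two_pow _) e (by omega))).1 hd
    simp only [Nat.unpair_pair] at h1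
    rcases h1 with ⟨-, h1⟩ | h1
    · rw [hbit (e / 2) (by omega)] at h1
      exact h1
    · exact absurd hgv h1

theorem bits0 (B : ℕ) (g : (ℕ → Bool) → Prop) (hg : ∀ s s', (∀ t < B, s t = s' t) → (g s ↔ g s')) :
    ∃ p, ∀ s, DB p s ↔ g s :=
  bits1 (B + 1) (by omega) g fun s s' h => hg s s' fun t ht => h t (by omega)

/-- the code with renamed entries -/
def rnc (ρ : ℕ → ℕ) (t : ℕ) : ℕ :=
  cd t.unpair.1 (ρ t.unpair.2.unpair.1) (ρ t.unpair.2.unpair.2.unpair.1)
    (ρ t.unpair.2.unpair.2.unpair.2)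

theorem Dg_ren {M : Type} [LA.Structure M] (x : ℕ → M) (ρ : ℕ → ℕ) (t : ℕ) :
    Dg (fun i => x (ρ i)) t = Dg x (rnc ρ t) := by
  rw [GC.Dg_eq, rnc, GC.Dg_cd0]

theorem ren0 (p : ℕ) (ρ : ℕ → ℕ) : ∃ p', ∀ (M : Type) [LA.Structure M] (x : ℕ → M),
    Q 0 p' x ↔ Q 0 p fun i => x (ρ i) := by
  obtain ⟨B, hB⟩ : ∃ B, ∀ t < p + 1, rnc ρ t < B := by
    refine ⟨(Finset.range (p + 1)).sup (rnc ρ) + 1, fun t ht => ?_⟩
    have := Finset.le_sup (f := rnc ρ) (Finset.mem_range.2 ht)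
    omega
  obtain ⟨p', hp'⟩ := bits0 B (fun s => DB p fun t => s (rnc ρ t)) (fun s s' h =>
    DB_loc p _ _ fun t ht => h _ (hB t ht))
  refine ⟨p', fun M _ x => ?_⟩
  show DB p' (Dg x) ↔ DB p (Dg fun i => x (ρ i))
  rw [hp']
  have : (fun t => Dg x (rnc ρ t)) = Dg fun i => x (ρ i) := by
    funext t
    exact (Dg_ren x ρ t).symm
  rw [this]

theorem and0 (p p' : ℕ) : ∃ r, ∀ (M : Type) [LA.Structure M] (x : ℕ → M),
    Q 0 r x ↔ Q 0 p x ∧ Q 0 p' x := by
  obtain ⟨r, hr⟩ := bits0 (max (p + 1) (p' + 1)) (fun s => DB p s ∧ DB p' s) (fun s s' h =>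
    and_congr (DB_loc p _ _ fun t ht => h _ (lt_of_lt_of_le ht (le_max_left _ _)))
      (DB_loc p' _ _ fun t ht => h _ (lt_of_lt_of_le ht (le_max_right _ _))))
  exact ⟨r, fun M _ x => hr (Dg x)⟩

theorem or0 (p p' : ℕ) : ∃ r, ∀ (M : Type) [LA.Structure M] (x : ℕ → M),
    Q 0 r x ↔ Q 0 p x ∨ Q 0 p' x := by
  obtain ⟨r, hr⟩ := bits0 (max (p + 1) (p' + 1)) (fun s => DB p s ∨ DB p' s) (fun s s' h =>
    or_congr (DB_loc p _ _ fun t ht => h _ (lt_of_lt_of_le ht (le_max_left _ _)))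
      (DB_loc p' _ _ fun t ht => h _ (lt_of_lt_of_le ht (le_max_right _ _))))
  exact ⟨r, fun M _ x => hr (Dg x)⟩

theorem not0 (p : ℕ) : ∃ r, ∀ (M : Type) [LA.Structure M] (x : ℕ → M),
    Q 0 r x ↔ ¬ Q 0 p x := by
  obtain ⟨r, hr⟩ := bits0 (p + 1) (fun s => ¬ DB p s) (fun s s' h =>
    not_congr (DB_loc p _ _ fun t ht => h _ ht))
  exact ⟨r, fun M _ x => hr (Dg x)⟩

/-! ### All levels -/

/-- renaming of the entries of the first half of a merged sequence -/
def rn2 (ρ : ℕ → ℕ) (i : ℕ) : ℕ := if i % 2 = 0 then 2 * ρ (i / 2) else i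

theorem mrg_rn2 {M : Type} (ρ : ℕ → ℕ) (x y : ℕ → M) :
    mrg (fun i => x (ρ i)) y = fun i => mrg x y (rn2 ρ i) := by
  funext i
  unfold mrg rn2
  by_cases h : i % 2 = 0
  · rw [if_pos h, if_pos h, if_pos (by omega), show 2 * ρ (i / 2) / 2 = ρ (i / 2) by omega]
  · rw [if_neg h, if_neg h, if_neg h]

theorem renQ (m : ℕ) : ∀ (p : ℕ) (ρ : ℕ → ℕ), ∃ p', ∀ (M : Type) [LA.Structure M] (x : ℕ → M),
    Q m p' x ↔ Q m p fun i => x (ρ i) := by
  induction m with
  | zero => exact ren0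
  | succ m ih =>
    intro p ρ
    obtain ⟨p', hp'⟩ := ih p (rn2 ρ)
    refine ⟨p', fun M _ x => ?_⟩
    refine exists_congr fun y => not_congr ?_
    exact (hp' M (mrg x y)).trans (iff_of_eq (congrArg (Q m p) (mrg_rn2 ρ x y).symm))

theorem mrg_even {M : Type} (x y : ℕ → M) (i : ℕ) : mrg x y (2 * i) = x i := by
  unfold mrg
  rw [if_pos (by omega)]
  congr 1
  omega

theorem mrg_odd {M : Type} (x y : ℕ → M) (i : ℕ) : mrg x y (2 * i + 1) = y i := by
  unfold mrg
  rw [if_neg (by omega)]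
  congr 1
  omega

/-- position maps for the two halves of the second sequence -/
def hf (b i : ℕ) : ℕ := if i % 2 = 0 then i else 2 * (2 * (i / 2) + b) + 1

theorem mrg_hf {M : Type} (x z : ℕ → M) (b : ℕ) :
    (fun i => mrg x z (hf b i)) = mrg x fun i => z (2 * i + b) := by
  funext i
  by_cases h : i % 2 = 0
  · have h1 : i = 2 * (i / 2) := by omega
    unfold hf
    rw [if_pos h, h1, mrg_even, mrg_even]
  · have h1 : i = 2 * (i / 2) + 1 := by omega
    unfold hf
    rw [if_neg h, mrg_odd]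
    conv_rhs => rw [h1, mrg_odd]

theorem split2 {M : Type} (z : ℕ → M) : (fun i => mrg z z (2 * i)) = z := by
  funext i
  exact mrg_even _ _ _

theorem andorQ (m : ℕ) : (∀ p p' : ℕ, ∃ r, ∀ (M : Type) [LA.Structure M] (x : ℕ → M),
      Q m r x ↔ Q m p x ∧ Q m p' x) ∧
    (∀ p p' : ℕ, ∃ r, ∀ (M : Type) [LA.Structure M] (x : ℕ → M),
      Q m r x ↔ Q m p x ∨ Q m p' x) := by
  induction m with
  | zero => exact ⟨and0, or0⟩
  | succ m ih =>
    constructor
    · intro p p'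
      obtain ⟨a, ha⟩ := renQ m p (hf 0)
      obtain ⟨b, hb⟩ := renQ m p' (hf 1)
      obtain ⟨r, hr⟩ := ih.2 a b
      refine ⟨r, fun M _ x => ?_⟩
      constructor
      · rintro ⟨z, hz⟩
        rw [hr, ha, hb, mrg_hf, mrg_hf] at hz
        push Not at hz
        exact ⟨⟨_, hz.1⟩, ⟨_, hz.2⟩⟩
      · rintro ⟨⟨y, hy⟩, ⟨y', hy'⟩⟩
        refine ⟨mrg y y', ?_⟩
        rw [hr, ha, hb, mrg_hf, mrg_hf]
        have e1 : (fun i => mrg y y' (2 * i + 0)) = y := by
          funext i; exact mrg_even _ _ _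
        have e2 : (fun i => mrg y y' (2 * i + 1)) = y' := by
          funext i; exact mrg_odd _ _ _
        rw [e1, e2]
        push Not
        exact ⟨hy, hy'⟩
    · intro p p'
      obtain ⟨r, hr⟩ := ih.1 p p'
      refine ⟨r, fun M _ x => ?_⟩
      constructor
      · rintro ⟨z, hz⟩
        rw [hr] at hz
        by_cases h : Q m p (mrg x z)
        · exact Or.inr ⟨z, fun h' => hz ⟨h, h'⟩⟩
        · exact Or.inl ⟨z, h⟩
      · rintro (⟨z, hz⟩ | ⟨z, hz⟩)
        · exact ⟨z, fun h => hz ((hr M _).1 h).1⟩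
        · exact ⟨z, fun h => hz ((hr M _).1 h).2⟩

theorem notQ (m p : ℕ) : ∃ r, ∀ (M : Type) [LA.Structure M] (x : ℕ → M),
    Q (m + 1) r x ↔ ¬ Q m p x := by
  obtain ⟨r, hr⟩ := renQ m p (fun i => 2 * i)
  refine ⟨r, fun M _ x => ?_⟩
  have h1 : ∀ z : ℕ → M, (fun i => mrg x z (2 * i)) = x := fun z => by
    funext i; exact mrg_even _ _ _
  constructor
  · rintro ⟨z, hz⟩
    rwa [hr, h1] at hz
  · intro h
    refine ⟨x, ?_⟩
    rwa [hr, h1]

theorem upQ (m : ℕ) : ∀ p : ℕ, ∃ r, ∀ (M : Type) [LA.Structure M] (x : ℕ → M),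
    Q (m + 1) r x ↔ Q m p x := by
  induction m with
  | zero =>
    intro p
    obtain ⟨a, ha⟩ := not0 p
    obtain ⟨r, hr⟩ := notQ 0 a
    refine ⟨r, fun M _ x => ?_⟩
    rw [hr, ha, not_not]
  | succ m ih =>
    intro p
    obtain ⟨r, hr⟩ := ih p
    refine ⟨r, fun M _ x => ?_⟩
    exact exists_congr fun y => not_congr (hr M _)

/-- position map for nested merging -/
def ex2 (i : ℕ) : ℕ :=
  if i % 2 = 1 then 2 * (2 * (i / 2) + 1) + 1
  else if (i / 2) % 2 = 0 then 2 * (i / 4) else 2 * (2 * (i / 4)) + 1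

theorem mrg_ex2 {M : Type} (x y w : ℕ → M) :
    (fun i => mrg x (mrg y w) (ex2 i)) = mrg (mrg x y) w := by
  funext i
  unfold ex2
  by_cases h : i % 2 = 1
  · rw [if_pos h, mrg_odd, mrg_odd]
    have h1 : i = 2 * (i / 2) + 1 := by omega
    conv_rhs => rw [h1, mrg_odd]
  · rw [if_neg h]
    have h1 : i = 2 * (i / 2) := by omega
    conv_rhs => rw [h1, mrg_even]
    by_cases h2 : i / 2 % 2 = 0
    · rw [if_pos h2, mrg_even]
      have h3 : i / 2 = 2 * (i / 4) := by omega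
      rw [h3, mrg_even]
    · rw [if_neg h2, mrg_odd, mrg_even]
      have h3 : i / 2 = 2 * (i / 4) + 1 := by omega
      rw [h3, mrg_odd]

theorem exQ (m p : ℕ) : ∃ r, ∀ (M : Type) [LA.Structure M] (x : ℕ → M),
    Q (m + 1) r x ↔ ∃ y : ℕ → M, Q (m + 1) p (mrg x y) := by
  obtain ⟨r, hr⟩ := renQ m p ex2
  refine ⟨r, fun M _ x => ?_⟩
  constructor
  · rintro ⟨u, hu⟩
    refine ⟨fun i => u (2 * i), fun i => u (2 * i + 1), ?_⟩
    have h1 : mrg (fun i => u (2 * i)) (fun i => u (2 * i + 1)) = u := by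
      funext i
      unfold mrg
      by_cases h : i % 2 = 0
      · rw [if_pos h]
        exact congrArg u (by omega)
      · rw [if_neg h]
        exact congrArg u (by omega)
    rw [← mrg_ex2, h1]
    rwa [hr] at hu
  · rintro ⟨y, w, h⟩
    refine ⟨mrg y w, ?_⟩
    rw [hr, mrg_ex2]
    exact h

theorem qcal : S_QCAL where
  bits := by
    intro B g hg
    obtain ⟨p, hp⟩ := bits0 B g hg
    exact ⟨p, fun M _ x => hp (Dg x)⟩
  ren := by
    rintro m R ρ ⟨p, hp⟩
    obtain ⟨p', hp'⟩ := renQ m p ρ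
    exact ⟨p', fun M _ x => (hp' M x).trans (hp M _)⟩
  and := by
    rintro m R S ⟨p, hp⟩ ⟨p', hp'⟩
    obtain ⟨r, hr⟩ := (andorQ m).1 p p'
    exact ⟨r, fun M _ x => (hr M x).trans (and_congr (hp M x) (hp' M x))⟩
  or := by
    rintro m R S ⟨p, hp⟩ ⟨p', hp'⟩
    obtain ⟨r, hr⟩ := (andorQ m).2 p p'
    exact ⟨r, fun M _ x => (hr M x).trans (or_congr (hp M x) (hp' M x))⟩
  up := by
    rintro m R ⟨p, hp⟩
    obtain ⟨r, hr⟩ := upQ m p
    exact ⟨r, fun M _ x => (hr M x).trans (hp M x)⟩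
  not := by
    rintro m R ⟨p, hp⟩
    obtain ⟨r, hr⟩ := notQ m p
    exact ⟨r, fun M _ x => (hr M x).trans (not_congr (hp M x))⟩
  ex := by
    rintro m R ⟨p, hp⟩
    obtain ⟨r, hr⟩ := exQ m p
    exact ⟨r, fun M _ x => (hr M x).trans (exists_congr fun y => hp M _)⟩

end Pool.Agent.W921.SF.QC0
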