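import Pool.Agent.W921.SF.Defs
import Pool.Agent.H623R3.JC.Stmts

/-!
Solovay families: the statements of the parts. Each `S_*` is a closed proposition; the dependencies
of the parts are given as hypotheses in the tasks.
-/

set_option autoImplicit false

open FirstOrder FirstOrder.Language Pool.Agent.Helper227.EN

namespace Pool.Agent.W921.SF

open Pool.Agent.Helper578.JD Pool.Agent.Helper578.JD.Oracle Pool.Agent.Helper578.JD.Defs
open Pool.Agent.H623R3.JC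

/-! ### A. Coded formulas and recursive enumerability of entailment -/

/-- Every formula has a code, uniformly in all models of PA (more generally in all structures with
`x + 0 = x`). -/
def S_FC : Prop :=
  ∀ φ : LA.Formula ℕ, ∃ c : ℕ, ∀ (M : Type) [LA.Structure M],
    (∀ x z y : M, z = Structure.funMap (L := LA) AF.zero ![] →
      (Structure.funMap (L := LA) AF.add ![x, z] = y ↔ x = y)) →
    ∀ x : ℕ → M, Sat c x ↔ φ.Realize x

/-- Entailment from PA is recursively enumerable: formulas with code `q.2`, all variables replaced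
by the numeral of `q.1`. -/
def S_RE : Prop :=
  REPred fun q : ℕ × ℕ => ∀ (M : Type) [LA.Structure M], M ⊨ PA → Sat q.2 fun _ => nv M q.1

/-- Compactness of Cantor space, effectively: if `F a` are recursively enumerable sets of forbidden
pieces of information, then it is r.e. that no set avoids all of them. -/
def S_CAN : Prop :=
  ∀ F : ℕ × ℕ → Info → Prop, REPred (fun q : (ℕ × ℕ) × Info => F q.1 q.2) →
    REPred fun a : ℕ × ℕ => ¬ ∃ Z : Set ℕ, ∀ c, F a c → ¬ Ok Z c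

/-- environments: a list of values of variables (numbers of parameters) and a default value -/
abbrev Env := List (ℕ × ℕ) × ℕ

/-- value of a variable in an environment -/
def lk (E : Env) (v : ℕ) : ℕ := (E.1.lookup v).getD E.2

/-- the code of the fact that the formula `c` is true in the environment `E` -/
def fct (c : ℕ) (E : Env) : ℕ := Encodable.encode (c, E)

/-- change the value of the variable `v` to the parameter `j` -/
def Env.set (E : Env) (v j : ℕ) : Env := ((v, j) :: E.1, E.2)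

/-- the parameter which is a counterexample to `∀ x_v, a` if there is one -/
def hk (c v : ℕ) (E : Env) : ℕ := 2 * Encodable.encode (c, (v, E)) + 1

/-- an atomic fact in an environment, in terms of the parameters -/
def rs (p : ℕ) (E : Env) : ℕ :=
  cd p.unpair.1 (lk E p.unpair.2.unpair.1) (lk E p.unpair.2.unpair.2.unpair.1)
    (lk E p.unpair.2.unpair.2.unpair.2)

/-- the formula `x_1 = x_0 + 1` -/
def cSucc : ℕ := cNand (cAll 2 (cNand (cAt (cd 4 2 0 0)) (cAt (cd 0 0 2 1))))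
  (cAll 2 (cNand (cAt (cd 4 2 0 0)) (cAt (cd 0 0 2 1))))

/-- Forbidden information about the set `Z` of (codes of) facts true in a structure with named
counterexamples, in which the parameter `2 j` is the `j`-th numeral and all formulas in `Ax` are true;
moreover the formula `a.2` should be false if all variables have the value of the numeral `a.1`. -/
inductive Forb (Ax : ℕ → Prop) (a : ℕ × ℕ) : Info → Prop
  | nand1 (c d : ℕ) (E : Env) : Forb Ax a ([fct (cNand c d) E, fct c E, fct d E], [])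
  | nand2 (c d : ℕ) (E : Env) : Forb Ax a ([], [fct (cNand c d) E, fct c E])
  | nand3 (c d : ℕ) (E : Env) : Forb Ax a ([], [fct (cNand c d) E, fct d E])
  | all1 (c v j : ℕ) (E : Env) : Forb Ax a ([fct (cAll v c) E], [fct c (E.set v j)])
  | all2 (c v : ℕ) (E : Env) : Forb Ax a ([fct c (E.set v (hk c v E))], [fct (cAll v c) E])
  | atom (p p' : ℕ) (E E' : Env) : rs p E = rs p' E' →
      Forb Ax a ([fct (cAt p) E], [fct (cAt p') E'])
  | ax (c : ℕ) (E : Env) : Ax c → Forb Ax a ([], [fct c E])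
  | zero : Forb Ax a ([], [fct (cAt (cd 3 0 0 0)) ([], 0)])
  | succ (j : ℕ) : Forb Ax a ([], [fct cSucc ([(0, 2 * j), (1, 2 * j + 2)], 0)])
  | goal : Forb Ax a ([fct a.2 ([], 2 * a.1)], [])

/-- A model of PA gives a set without forbidden information. -/
def S_MZ : Prop :=
  ∀ Ax : ℕ → Prop, (∀ c, Ax c → ∀ (M : Type) [LA.Structure M], M ⊨ PA → ∀ x : ℕ → M, Sat c x) →
    ∀ a : ℕ × ℕ, ∀ (M : Type) [LA.Structure M], M ⊨ PA → ¬ Sat a.2 (fun _ => nv M a.1) →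
      ∃ Z : Set ℕ, ∀ c, Forb Ax a c → ¬ Ok Z c

/-- For suitable axioms, a set without forbidden information gives a model of PA. -/
def S_ZM : Prop :=
  ∃ Ax : ℕ → Prop, REPred Ax ∧
    (∀ c, Ax c → ∀ (M : Type) [LA.Structure M], M ⊨ PA → ∀ x : ℕ → M, Sat c x) ∧
    ∀ a : ℕ × ℕ, ∀ Z : Set ℕ, (∀ c, Forb Ax a c → ¬ Ok Z c) →
      ∃ (M : Type) (_ : LA.Structure M), M ⊨ PA ∧ ¬ Sat a.2 fun _ => nv M a.1

/-- The first part of `S_ZM`: the structure given by a set without forbidden information. -/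
def S_ZMA : Prop :=
  ∃ Ax0 : ℕ → Prop, REPred Ax0 ∧
    (∀ c, Ax0 c → ∀ (M : Type) [LA.Structure M], M ⊨ PA → ∀ x : ℕ → M, Sat c x) ∧
    ∀ Ax : ℕ → Prop, (∀ c, Ax0 c → Ax c) → ∀ a : ℕ × ℕ, ∀ Z : Set ℕ,
      (∀ c, Forb Ax a c → ¬ Ok Z c) →
      ∃ (M : Type) (_ : LA.Structure M) (P : ℕ → M),
        (∀ x z y : M, z = Structure.funMap (L := LA) AF.zero ![] →
          (Structure.funMap (L := LA) AF.add ![x, z] = y ↔ x = y)) ∧
        Function.Surjective P ∧ (∀ c E, Sat c (fun v => P (lk E v)) ↔ fct c E ∈ Z) ∧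
        ∀ j, nv M j = P (2 * j)

/-- Translation of the block normal form to codes of formulas. -/
def S_CT : Prop :=
  ∀ m k : ℕ, 1 ≤ k → ∃ f : ℕ → ℕ → ℕ, Computable₂ f ∧ ∀ (b p : ℕ) (M : Type) [LA.Structure M]
    (x : ℕ → M), Sat (f b p) x ↔ Q m p (tr k fun i => x (b + i))

/-- Universal quantification over all the variables from `b` on. -/
def S_ALL : Prop :=
  ∃ f : ℕ → ℕ → ℕ, Computable₂ f ∧ ∀ (b c : ℕ) (M : Type) [LA.Structure M] (x : ℕ → M),
    Sat (f b c) x ↔ ∀ y : ℕ → M, Sat c fun i => if i < b then x i else y i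

/-- The truth of a coded formula `c` only depends on the variables `≤ c`. -/
def S_SUP : Prop :=
  ∀ (c : ℕ) (M : Type) [LA.Structure M] (x y : ℕ → M), (∀ i ≤ c, x i = y i) →
    (Sat c x ↔ Sat c y)

/-- The sentences used in the diagonalisation are recursively enumerable. -/
def S_DRE : Prop :=
  ∀ (K : ℕ → LA.Formula ℕ) (N n k r : ℕ), 1 ≤ k → REPred fun q : ℕ × ℕ =>
    ∀ (M : Type) [LA.Structure M], M ⊨ PA → ∀ x : ℕ → M, Th n k q.2 x →
      Dsp N k r q.2 (fun i => (K i).Realize fun _ => nv M q.1) x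

/-! ### B. Calculus of the block normal form -/

/-- Closure properties of the classes `QC m`. -/
structure QCal : Prop where
  bits : ∀ (B : ℕ) (g : (ℕ → Bool) → Prop), (∀ s s', (∀ t < B, s t = s' t) → (g s ↔ g s')) →
    QC 0 fun _ _ x => g (Dg x)
  ren : ∀ (m : ℕ) (R : ∀ (M : Type) [LA.Structure M], (ℕ → M) → Prop) (ρ : ℕ → ℕ), QC m R →
    QC m fun M _ x => R M fun i => x (ρ i)
  and : ∀ (m : ℕ) (R S : ∀ (M : Type) [LA.Structure M], (ℕ → M) → Prop), QC m R → QC m S →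
    QC m fun M _ x => R M x ∧ S M x
  or : ∀ (m : ℕ) (R S : ∀ (M : Type) [LA.Structure M], (ℕ → M) → Prop), QC m R → QC m S →
    QC m fun M _ x => R M x ∨ S M x
  up : ∀ (m : ℕ) (R : ∀ (M : Type) [LA.Structure M], (ℕ → M) → Prop), QC m R → QC (m + 1) R
  not : ∀ (m : ℕ) (R : ∀ (M : Type) [LA.Structure M], (ℕ → M) → Prop), QC m R →
    QC (m + 1) fun M _ x => ¬ R M x
  ex : ∀ (m : ℕ) (R : ∀ (M : Type) [LA.Structure M], (ℕ → M) → Prop), QC (m + 1) R →
    QC (m + 1) fun M _ x => ∃ y : ℕ → M, R M (mrg x y)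

def S_QCAL : Prop := QCal

/-- The truth of a block normal form only depends on finitely many variables, and it is given by a
formula. -/
def S_QF : Prop :=
  ∀ m p : ℕ, (∃ S : ℕ, ∀ (M : Type) [LA.Structure M] (x y : ℕ → M), (∀ i < S, x i = y i) →
      (Q m p x ↔ Q m p y)) ∧
    ∃ φ : LA.Formula ℕ, ∀ (M : Type) [LA.Structure M] (x : ℕ → M), φ.Realize x ↔ Q m p x

/-- Compactness, with a saturated model. -/
def S_CPT : Prop :=
  ∀ Γ : ℕ → LA.Formula ℕ,
    (∀ s : ℕ, ∃ (M : Type) (_ : LA.Structure M) (x : ℕ → M), M ⊨ PA ∧ ∀ j < s, (Γ j).Realize x) →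
    ∃ (M : Type) (_ : LA.Structure M) (x : ℕ → M), M ⊨ PA ∧ Satu M ∧ ∀ j, (Γ j).Realize x

/-- In saturated models of PA, sequences with the same facts are equivalent in the game. -/
def S_GAME : Prop :=
  ∀ (M M' : Type) [LA.Structure M] [LA.Structure M'], M ⊨ PA → M' ⊨ PA → Satu M → Satu M' →
    ∀ (m k : ℕ) (x : ℕ → M) (x' : ℕ → M'), 1 ≤ k →
      (TE m k x x' → G m k x x') ∧ (TI (m + 1) k x x' → Inc m k x x')

/-- a chain of models over the level `n` facts of `x` with increasing sets of level `N` facts, such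
that `κ i` is false in the `i`-th model and true in the next one -/
def ChainEx {M : Type} [LA.Structure M] (x : ℕ → M) (n k N r : ℕ) (κ : ℕ → LA.Sentence) : Prop :=
  ∃ q : ℕ → Cnd, (∀ i ≤ r + 1, (q i).M ⊨ PA ∧ Satu (q i).M ∧ TE n k x (q i).x) ∧
    ∀ i ≤ r, ¬ (q i).M ⊨ κ i ∧ (q (i + 1)).M ⊨ κ i ∧ TI N k (q i).x (q (i + 1)).x

/-- If there is no chain then this is witnessed by an entailment. -/
def S_CCOMP : Prop :=
  ∀ (M : Type) [LA.Structure M], M ⊨ PA → ∀ (x : ℕ → M) (n k N r : ℕ) (κ : ℕ → LA.Sentence),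
    1 ≤ k → ChainEx x n k N r κ ∨ ∃ p, Th n k p x ∧ ∀ (M' : Type) [LA.Structure M'], M' ⊨ PA →
      ∀ y : ℕ → M', Th n k p y → Dsp N k r p (fun i => M' ⊨ κ i) y

/-! ### C. Definability in one model -/

/-- predicates definable by formulas in the arithmetical hierarchy -/
def HD (M : Type) [LA.Structure M] (b : Bool) (N : ℕ) (R : (ℕ → M) → Prop) : Prop :=
  ∃ φ : LA.Formula ℕ, Hier b N φ ∧ ∀ x, φ.Realize x ↔ R x

/-- Closure properties of the arithmetical hierarchy (in one structure). -/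
structure HCal (M : Type) [LA.Structure M] : Prop where
  and : ∀ (N : ℕ) (R S : (ℕ → M) → Prop), HD M true N R → HD M true N S →
    HD M true N fun x => R x ∧ S x
  not : ∀ (b : Bool) (N : ℕ) (R : (ℕ → M) → Prop), HD M b N R → HD M (!b) N fun x => ¬ R x
  ex : ∀ (N : ℕ) (R : (ℕ → M) → Prop) (v : ℕ), HD M true (N + 1) R →
    HD M true (N + 1) fun x => ∃ y, R (Function.update x v y)
  any : ∀ R : (ℕ → M) → Prop, Dfn R → ∃ K, ∀ N ≥ K, ∀ b, HD M b N R
  sub : ∀ (b : Bool) (N : ℕ) (R : (ℕ → M) → Prop) (f : ℕ → LA.Term ℕ), HD M b N R →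
    HD M b N fun x => R fun i => (f i).realize x

def S_HCAL : Prop := ∀ (M : Type) [LA.Structure M], Nonempty M → HCal M

/-- Replace all the variables by a numeral. -/
def S_SENT : Prop :=
  ∀ (b : Bool) (N : ℕ) (φ : LA.Formula ℕ), Hier b N φ → ∀ e : ℕ, ∃ κ : LA.Sentence, Hier b N κ ∧
    ∀ (M : Type) [LA.Structure M], M ⊨ κ ↔ φ.Realize fun _ => nv M e

/-- code of a quadruple -/
def p4 (a c L B : ℕ) : ℕ := Nat.pair a (Nat.pair c (Nat.pair L B))

/-- the sequence merged from `x_i = v (4 + i)` (`i < k`) and the `j` sequences coded (by the beta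
function) by `v (4 + k + 2 i), v (4 + k + 2 i + 1)`, `i < j` -/
noncomputable def nest {M : Type} [CommSemiring M] [LinearOrder M] (k : ℕ) (v : ℕ → M) :
    ℕ → (ℕ → M)
  | 0 => tr k fun i => v (4 + i)
  | j + 1 => mrg (nest k v j) (bs (v (4 + k + 2 * j)) (v (4 + k + 2 * j + 1)))

/-- The disjunctive normal forms are `Δ₀` in terms of codes of sequences. -/
def S_UF0 : Prop :=
  ∀ (M : Type) [CommSemiring M] [LinearOrder M] [IsStrictOrderedRing M] [CanonicallyOrderedAdd M]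
    [LA.Structure M], NPA M → ∀ k j : ℕ, 1 ≤ k → ∃ φ : LA.Formula ℕ, D0 φ ∧
      ∀ (a c L B : ℕ) (v : ℕ → M), v 0 = (a : M) → v 1 = (c : M) → v 2 = (L : M) → v 3 = (B : M) →
        (φ.Realize v ↔ DN (p4 a c L B) (nest k v j))

/-- The universal `Σ_N` formula for the block normal forms of level `N`. -/
def S_UF : Prop :=
  ∀ (M : Type) [CommSemiring M] [LinearOrder M] [IsStrictOrderedRing M] [CanonicallyOrderedAdd M]
    [LA.Structure M], NPA M → ∀ k N : ℕ, 1 ≤ k → 1 ≤ N → ∃ φ : LA.Formula ℕ, Hier true N φ ∧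
      ∀ (a c L B : ℕ) (v : ℕ → M), v 0 = (a : M) → v 1 = (c : M) → v 2 = (L : M) → v 3 = (B : M) →
        (φ.Realize v ↔ Q N (p4 a c L B) (tr k fun i => v (4 + i)))

/-- Definable choice of a tuple (the values of the variables `1, …, K`), with minimal first entry. -/
def S_PICK : Prop :=
  ∀ (M : Type) [CommSemiring M] [LinearOrder M] [IsStrictOrderedRing M] [CanonicallyOrderedAdd M]
    [LA.Structure M], NPA M → ∀ (R : (ℕ → M) → Prop) (K : ℕ), Dfn R → ∃ R' : (ℕ → M) → Prop,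
      Dfn R' ∧ (∀ v, R' v → R v) ∧
      (∀ v v', R' v → R' v' → (∀ i, (i = 0 ∨ K < i) → v i = v' i) → v = v') ∧
      (∀ v, R v → ∃ v', R' v' ∧ ∀ i, (i = 0 ∨ K < i) → v' i = v i) ∧
      (1 ≤ K → ∀ v v', R v → R' v' → (∀ i, (i = 0 ∨ K < i) → v' i = v i) → v' 1 ≤ v 1)

/-- The formulas used in the diagonalisation. -/
def S_KAP : Prop :=
  ∀ (M : Type) [LA.Structure M], M ⊨ PA → Satu M → ∀ n k : ℕ, 1 ≤ n → 1 ≤ k →
    ∃ N0 : ℕ, ∀ N ≥ N0, ∃ K : ℕ → LA.Formula ℕ, (∀ i, Hier true N (K i)) ∧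
      ∀ e : ℕ, (∃ p, W e p ∧ ∃ x : ℕ → M, Th n k p x) →
        ∃ (p : ℕ) (x : ℕ → M), W e p ∧ Th n k p x ∧
          ∀ i, ((K i).Realize (fun _ => nv M e) ↔ Q N (tau i p) (tr k x))

/-- The chain lemma. -/
def S_CHAIN : Prop :=
  ∀ (M : Type) [LA.Structure M], M ⊨ PA → Satu M → ∀ (x : ℕ → M) (n k : ℕ), 1 ≤ n → 1 ≤ k →
    ∃ N > n, ∀ r : ℕ, ∃ κ : ℕ → LA.Sentence, (∀ i, Hier true N (κ i)) ∧ ChainEx x n k N r κ

/-! ### D. Forcing -/

/-- The game preserves the truth of formulas. -/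
def S_INV : Prop :=
  ∀ (φ : LA.Formula ℕ) (m k : ℕ), rk φ ≤ m → (∀ i ∈ φ.freeVarFinset, i < k) →
    ∀ (M M' : Type) [LA.Structure M] [LA.Structure M'], M ⊨ PA → M' ⊨ PA →
      ∀ (x : ℕ → M) (x' : ℕ → M'), G m k x x' → (φ.Realize x ↔ φ.Realize x')

/-- Basic properties of the game. -/
structure GCal : Prop where
  refl : ∀ (M : Type) [LA.Structure M] (m k : ℕ) (x : ℕ → M), G m k x x
  symm : ∀ (M M' : Type) [LA.Structure M] [LA.Structure M'] (m k : ℕ) (x : ℕ → M) (x' : ℕ → M'),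
    G m k x x' → G m k x' x
  trans : ∀ (M M' M'' : Type) [LA.Structure M] [LA.Structure M'] [LA.Structure M''] (m k : ℕ)
    (x : ℕ → M) (x' : ℕ → M') (x'' : ℕ → M''), G m k x x' → G m k x' x'' → G m k x x''
  loc : ∀ (M M' : Type) [LA.Structure M] [LA.Structure M'] (m k : ℕ) (x y : ℕ → M)
    (x' y' : ℕ → M'), (∀ i < k, x i = y i) → (∀ i < k, x' i = y' i) → G m k x x' → G m k y y'
  ren : ∀ (M M' : Type) [LA.Structure M] [LA.Structure M'] (m k k' : ℕ) (x : ℕ → M) (x' : ℕ → M')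
    (ρ : ℕ → ℕ), (∀ i < k', ρ i < k) → G m k x x' → G m k' (fun i => x (ρ i)) fun i => x' (ρ i)
  mono : ∀ (M M' : Type) [LA.Structure M] [LA.Structure M'] (m m' k k' : ℕ) (x : ℕ → M)
    (x' : ℕ → M'), m' ≤ m → k' ≤ k → G m k x x' → G m' k' x x'
  inj : ∀ (M M' : Type) [LA.Structure M] [LA.Structure M'], M ⊨ PA → M' ⊨ PA → ∀ (m k : ℕ)
    (x : ℕ → M) (x' : ℕ → M'), G m k x x' → InjB k x → InjB k x'

def S_GCAL : Prop := GCal

/-- Basic properties of the forced facts. -/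
structure FCal : Prop where
  inv : ∀ (M M' : Type) [LA.Structure M] [LA.Structure M'], M ⊨ PA → M' ⊨ PA → ∀ (m k : ℕ)
    (x : ℕ → M) (x' : ℕ → M'), G m k x x' → ∀ e b, Fc m x k e b ↔ Fc m x' k e b
  inv1 : ∀ (M M' : Type) [LA.Structure M] [LA.Structure M'], M ⊨ PA → M' ⊨ PA → ∀ (m k : ℕ)
    (x : ℕ → M) (x' : ℕ → M'), G m k x x' → ∀ e, Fc (m + 1) x k e true ↔ Fc (m + 1) x' k e true
  mono : ∀ (M : Type) [LA.Structure M] (m k k' : ℕ) (x y : ℕ → M), (∀ i < k, y i = x i) →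
    k ≤ k' → ∀ e b, Fc m x k e b → Fc m y k' e b
  con : ∀ (M : Type) [LA.Structure M] (m k : ℕ) (x : ℕ → M), InjB k x → ∀ e,
    ¬ (Fc m x k e true ∧ Fc m x k e false)

def S_FCAL : Prop := FCal

/-- `y` in front of the sequence `x` -/
def cs {M : Type} (y : M) (x : ℕ → M) : ℕ → M
  | 0 => y
  | i + 1 => x i

/-- generic sequences of conditions -/
structure GenSeq (q : ℕ → Cnd) : Prop where
  good : ∀ j, (q j).Good
  ext : ∀ j, (q j).Ext (q (j + 1))
  kk : ∀ a, ∃ j, a ≤ (q j).k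
  nn : ∀ a, ∃ j, a ≤ (q j).n
  dec : ∀ m e, ∃ j, m ≤ (q j).n ∧
    (Fc m (q j).x (q j).k e true ∨ Fc m (q j).x (q j).k e false)
  hen : ∀ φ : LA.Formula ℕ, ∃ j, rk φ + 1 ≤ (q j).n ∧ (∀ i ∈ φ.freeVarFinset, i ≤ (q j).k) ∧
    ((∃ y, φ.Realize (cs y (q j).x)) → ∃ i < (q j).k, φ.Realize (cs ((q j).x i) (q j).x))

/-- The limit structure. -/
def S_LIM : Prop :=
  ∀ q : ℕ → Cnd, GenSeq q → ∃ A : LA.Structure ℕ, ∀ j, Lim A (q j)

/-- The limit structure, first part: truth. -/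
def S_LIMA : Prop :=
  ∀ q : ℕ → Cnd, GenSeq q → ∃ A : LA.Structure ℕ,
    (∀ p, p ∈ DS A ↔ ∃ j, p < (q j).k ∧ Dg (q j).x p = true) ∧
    ∀ j, (∀ φ : LA.Sentence, rk φ ≤ (q j).n → (TrueIn A φ ↔ (q j).M ⊨ φ)) ∧
      ∀ φ : LA.Formula ℕ, rk φ ≤ (q j).n → (∀ i ∈ φ.freeVarFinset, i < (q j).k) →
        (@Formula.Realize LA ℕ A ℕ φ (id : ℕ → ℕ) ↔ φ.Realize (q j).x)

/-- The limit structure, second part: the jumps. -/
def S_LIMB : Prop :=
  ∀ q : ℕ → Cnd, GenSeq q → ∀ A : LA.Structure ℕ,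
    (∀ p, p ∈ DS A ↔ ∃ j, p < (q j).k ∧ Dg (q j).x p = true) →
    ∀ j, (∀ m ≤ (q j).n, ∀ e, Fc m (q j).x (q j).k e true → e ∈ jump^[m] (DS A)) ∧
      (∀ m ≤ (q j).n, ∀ e, Fc m (q j).x (q j).k e false → e ∉ jump^[m] (DS A)) ∧
      ∀ m ≤ (q j).n, ∀ e ∈ jump^[m] (DS A), ∃ y : ℕ → (q j).M,
        (∀ i < (q j).k, y i = (q j).x i) ∧ ∃ k' ≥ (q j).k, InjB k' y ∧ Fc m y k' e true

/-- the number `r` is not an index of a Solovay family with at most `h n` changes at level `n` -/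
def Fails (gn : LA.Sentence → ℕ) (h : ℕ → ℕ) (r : ℕ) (A : LA.Structure ℕ) : Prop :=
  ¬ ∃ t : ℕ → ℕ → ℕ,
    (∀ n s v : ℕ, t (n + 1) s = v ↔
      ∃ c : Info, Ok (jump^[n] (DS A)) c ∧ W r (Encodable.encode (n + 1, (c, (s, v))))) ∧
    (∀ n ≥ 1, ∃ e, (∃ s0, ∀ s ≥ s0, t n s = e) ∧ IsIdx e (DS A) (Tn gn A n)) ∧
    (∀ n ≥ 1, ∀ s, ∃ Y ⊆ Tn gn A n, IsIdx (t n s) (DS A) Y) ∧
    ∀ n ≥ 1, Chg (t n) (h n)

/-- The main step. -/
def S_STEP : Prop :=
  ∀ gn : LA.Sentence → ℕ, Function.Injective gn → ∀ (h : ℕ → ℕ) (r : ℕ) (q : Cnd), q.Good →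
    ∃ q' : Cnd, q'.Good ∧ q.Ext q' ∧ ∀ A, Lim A q' → Fails gn h r A

/-- The density lemmas. -/
def S_DENS : Prop :=
  ∀ q : Cnd, q.Good →
    (∀ a, ∃ q' : Cnd, q'.Good ∧ q.Ext q' ∧ a ≤ q'.k ∧ a ≤ q'.n) ∧
    (∀ m e, ∃ q' : Cnd, q'.Good ∧ q.Ext q' ∧ m ≤ q'.n ∧
      (Fc m q'.x q'.k e true ∨ Fc m q'.x q'.k e false)) ∧
    (∀ φ : LA.Formula ℕ, ∃ q' : Cnd, q'.Good ∧ q.Ext q' ∧ rk φ + 1 ≤ q'.n ∧
      (∀ i ∈ φ.freeVarFinset, i ≤ q'.k) ∧
      ((∃ y, φ.Realize (cs y q'.x)) → ∃ i < q'.k, φ.Realize (cs (q'.x i) q'.x)))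

/-- The initial condition: the first element is nonstandard. -/
def S_INIT : Prop :=
  ∃ q : Cnd, q.Good ∧ ∀ j : ℕ, Structure.RelMap (L := LA) AR.lt ![nv q.M j, q.x 0]

/-- The main theorem (for a sequence of bounds). -/
def S_MAIN : Prop :=
  ∀ gn : LA.Sentence → ℕ, Function.Injective gn → ∀ h : ℕ → ℕ → ℕ, ∃ A : LA.Structure ℕ,
    @FirstOrder.Language.Theory.Model LA ℕ A PA ∧
    ¬ Nonempty (@FirstOrder.Language.Equiv LA ℕ ℕ A stdStr) ∧
    ∀ t : ℕ → ℕ → ℕ, IsSolovay gn A t → ∀ i, ∃ n ≥ 1, ¬ Chg (t n) (h i n)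

end Pool.Agent.W921.SF
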